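import Pool.Agent.Q155.KG.LF
import Pool.Agent.Q283.IN.D

/-!
# The twists of `X_0(49)` over multiquadratic fields: rank and order of vanishing
-/

set_option autoImplicit false
set_option linter.unusedSectionVars false

namespace Q155.KG

open Finset Matrix Filter Topology
open Q283.GW (CF PA QA ρ49 C4)
open Q283.GM (rk)
open Q283.XF (nf)
open Pool.Agent.Y19.QT (EQ EK rkK FinGenK IsLFun IsLFunK Indep)
open scoped Classical

/-- the corank of the matrix of `D` -/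
noncomputable def cr (D : ℕ) : ℕ := rk ρ49.Φ nf D.primeFactors

theorem kn_cr {D : ℕ} (hD : Ad D) : kn D = 2 ^ cr D := kn_rk hD

/-- the rank over `ℚ` -/
theorem rank_Q {D : ℕ} (hD : Ad D) :
    Module.finrank ℤ (EQ (-2835 * (D : ℤ) ^ 2) (-71442 * (D : ℤ) ^ 3)) ≤ 2 * cr D := by
  have h1 := Q283.GS.rank_le (S := D.primeFactors) hD.2
  have h2 := Q283.GS.rank_short (D := (D : ℤ)) (by exact_mod_cast hD.1.ne_zero)
  have h3 : Q283.GS.pd D.primeFactors = (D : ℤ) := by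
    unfold Q283.GS.pd
    rw [Nat.prod_primeFactors_of_squarefree hD.1]
  rw [h3, ← h2] at h1
  exact h1

/-- the discriminant -/
theorem disc49 {M : ℤ} (hM : M ≠ 0) : 4 * (-2835 * M ^ 2) ^ 3 + 27 * (-71442 * M ^ 3) ^ 2 ≠ 0 := by
  have e : 4 * (-2835 * M ^ 2) ^ 3 + 27 * (-71442 * M ^ 3) ^ 2 =
      (4 * (-2835) ^ 3 + 27 * (-71442) ^ 2) * M ^ 6 := by ring
  rw [e]
  exact mul_ne_zero (by norm_num) (pow_ne_zero 6 hM)

/-- products of different primes are independent modulo squares -/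
theorem indep_primes {k : ℕ} {p : Fin k → ℕ} (hp : ∀ i, (p i).Prime) (hinj : Function.Injective p) :
    Indep (fun i => (p i : ℤ)) := by
  intro T hT
  have h := Q283.IN.not_sq_set (J := T.image p) (fun q hq => by
    obtain ⟨i, -, rfl⟩ := Finset.mem_image.1 hq
    exact hp i) (hT.image p)
  rw [Finset.prod_image fun i _ j _ hij => hinj hij] at h
  push_cast at h
  exact h

/-- **over the multiquadratic field** -/
theorem mq_rank {k : ℕ} {p : Fin k → ℕ} {D : ℕ} (hD : Ad D) (hp : ∀ i, P1 (p i))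
    (hinj : Function.Injective p) (hpD : ∀ i, p i ∉ D.primeFactors)
    (K : Type) [Field K] [NumberField K] (x : Fin k → K) (hx : ∀ i, x i ^ 2 = (p i : K))
    (hK : IntermediateField.adjoin ℚ (Set.range x) = ⊤) :
    FinGenK K (-2835 * (D : ℤ) ^ 2) (-71442 * (D : ℤ) ^ 3) ∧
    rkK K (-2835 * (D : ℤ) ^ 2) (-71442 * (D : ℤ) ^ 3) ≤
      ∑ U : Finset (Fin k), 2 * cr (D * ∏ i ∈ U, p i) := by
  have hab := disc49 (M := (D : ℤ)) (by exact_mod_cast hD.1.ne_zero)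
  have hf := Pool.Agent.Y687.MQ.fg_gen K hab
  refine ⟨hf, (Pool.Agent.Y687.MQ.rank_gen K (fun i => (p i : ℤ)) x (fun i => by rw [hx i]; push_cast; rfl) hK
    (fun i => by exact_mod_cast (hp i).1.ne_zero) hab hf).trans (Finset.sum_le_sum fun U _ => ?_)⟩
  have h1 := rank_Q (ad_mul hD hp hinj hpD U)
  rw [Nat.cast_mul, Nat.cast_prod] at h1
  have e1 : -2835 * (D : ℤ) ^ 2 * (∏ i ∈ U, (p i : ℤ)) ^ 2 = -2835 * ((D : ℤ) * ∏ i ∈ U, (p i : ℤ)) ^ 2 := by
    ring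
  have e2 : -71442 * (D : ℤ) ^ 3 * (∏ i ∈ U, (p i : ℤ)) ^ 3 = -71442 * ((D : ℤ) * ∏ i ∈ U, (p i : ℤ)) ^ 3 := by
    ring
  rw [e1, e2]
  exact h1

/-- **the L-function over the multiquadratic field** -/
theorem mq_order {k : ℕ} {p : Fin k → ℕ} {D : ℕ} (hD : Ad D) (hp : ∀ i, P1 (p i))
    (hinj : Function.Injective p) (hpD : ∀ i, p i ∉ D.primeFactors)
    (K : Type) [Field K] [NumberField K] (x : Fin k → K) (hx : ∀ i, x i ^ 2 = (p i : K))
    (hK : IntermediateField.adjoin ℚ (Set.range x) = ⊤) :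
    ∃ G : Finset (Fin k) → ℂ → ℂ, (∀ U, IsLFun (-2835 * ((D * ∏ i ∈ U, p i : ℕ) : ℤ) ^ 2)
      (-71442 * ((D * ∏ i ∈ U, p i : ℕ) : ℤ) ^ 3) (G U)) ∧
    ∃ F : ℂ → ℂ, IsLFunK K (-2835 * (D : ℤ) ^ 2) (-71442 * (D : ℤ) ^ 3) (∏ i, (p i : ℤ)) F ∧
      analyticOrderAt F 1 = ∑ U : Finset (Fin k), analyticOrderAt (G U) 1 := by
  have hab := disc49 (M := (D : ℤ)) (by exact_mod_cast hD.1.ne_zero)
  choose G hG using fun U => lfun_C4 (ad_mul hD hp hinj hpD U)
  refine ⟨G, hG, ?_⟩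
  have hG' : ∀ U : Finset (Fin k), IsLFun (-2835 * (D : ℤ) ^ 2 * (∏ i ∈ U, (p i : ℤ)) ^ 2)
      (-71442 * (D : ℤ) ^ 3 * (∏ i ∈ U, (p i : ℤ)) ^ 3) (G U) := by
    intro U
    have h1 := hG U
    rw [Nat.cast_mul, Nat.cast_prod] at h1
    have e1 : -2835 * (D : ℤ) ^ 2 * (∏ i ∈ U, (p i : ℤ)) ^ 2 =
        -2835 * ((D : ℤ) * ∏ i ∈ U, (p i : ℤ)) ^ 2 := by ring
    have e2 : -71442 * (D : ℤ) ^ 3 * (∏ i ∈ U, (p i : ℤ)) ^ 3 =
        -71442 * ((D : ℤ) * ∏ i ∈ U, (p i : ℤ)) ^ 3 := by ring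
    rw [e1, e2]
    exact h1
  obtain ⟨F, hF, hF1⟩ := Pool.Agent.Y73.QMQ1.MQ1 _ _ hab k (fun i => (p i : ℤ))
    (indep_primes (fun i => (hp i).1) hinj) G hG' K x (fun i => by rw [hx i]; push_cast; rfl) hK
  exact ⟨F, hF, hF1 1 (by norm_num)⟩

/-- the rank does not go down -/
theorem finrank_le_F (F : Type) [Field F] [NumberField F] {a b : ℤ}
    (hab : 4 * a ^ 3 + 27 * b ^ 2 ≠ 0) : Module.finrank ℤ (EQ a b) ≤ rkK F a b := by
  have hf := Pool.Agent.Y687.MQ.fg_gen F hab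
  unfold FinGenK at hf
  unfold rkK
  have key : ∀ (V : WeierstrassCurve ℚ) (V' : WeierstrassCurve F),
      V = (⟨0, 0, 0, a, b⟩ : WeierstrassCurve ℤ).baseChange ℚ →
      V' = (⟨0, 0, 0, a, b⟩ : WeierstrassCurve ℤ).baseChange F →
      Module.Finite ℤ V'.toAffine.Point →
      Module.finrank ℤ V.toAffine.Point ≤ Module.finrank ℤ V'.toAffine.Point := by
    rintro _ _ rfl rfl hfin
    let f : ℚ →ₐ[ℤ] F := (algebraMap ℚ F).toIntAlgHom
    let φ := WeierstrassCurve.Affine.Point.map (W' := (⟨0, 0, 0, a, b⟩ : WeierstrassCurve ℤ).toAffine) f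
    have hφ : Function.Injective φ := WeierstrassCurve.Affine.Point.map_injective f
    exact LinearMap.finrank_le_finrank_of_injective (f := φ.toIntLinearMap) hφ
  exact key _ _ (by ext <;> simp [WeierstrassCurve.baseChange, WeierstrassCurve.map])
    (by ext <;> simp [WeierstrassCurve.baseChange, WeierstrassCurve.map]) hf

theorem fin1 {T : Finset (Fin 1)} (hT : T.Nonempty) : T = {0} := by
  obtain ⟨i, hi⟩ := hT
  have h0' : i = 0 := Subsingleton.elim _ _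
  subst h0'
  ext j
  have h0 : j = 0 := Subsingleton.elim _ _
  rw [h0]
  simpa using hi

theorem sum_fin1 {α : Type} [AddCommMonoid α] (f : Finset (Fin 1) → α) :
    ∑ T : Finset (Fin 1), f T = f ∅ + f {0} := by
  have e : (Finset.univ : Finset (Finset (Fin 1))) = {∅, {0}} := by
    apply Finset.eq_of_subset_of_card_le
    · intro T _
      rcases T.eq_empty_or_nonempty with h | ⟨i, hi⟩
      · rw [h]; exact Finset.mem_insert_self _ _
      · exact Finset.mem_insert_of_mem (Finset.mem_singleton.2 (fin1 ⟨i, hi⟩))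
    · exact Finset.card_le_univ _
  rw [e, Finset.sum_pair (by decide)]

/-- **over a quadratic field**: the twist is good -/
theorem quad_rank {D d : ℕ} (hD : Ad D) (hDd : Ad (D * d)) (hc : cr (D * d) = 0)
    (F : Type) [Field F] [NumberField F] (y : F) (hy : y ^ 2 = (d : F))
    (hF : IntermediateField.adjoin ℚ {y} = ⊤) :
    rkK F (-2835 * (D : ℤ) ^ 2) (-71442 * (D : ℤ) ^ 3) =
      Module.finrank ℤ (EQ (-2835 * (D : ℤ) ^ 2) (-71442 * (D : ℤ) ^ 3)) := by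
  have hab := disc49 (M := (D : ℤ)) (by exact_mod_cast hD.1.ne_zero)
  refine le_antisymm ?_ (finrank_le_F F hab)
  have hd0 : d ≠ 0 := fun h => hDd.1.ne_zero (by rw [h, mul_zero])
  have h1 := Pool.Agent.Y687.MQ.rank_gen F (fun _ : Fin 1 => (d : ℤ)) (fun _ => y)
    (fun _ => by rw [hy]; push_cast; rfl) (by rw [Set.range_const]; exact hF)
    (fun _ => by exact_mod_cast hd0) hab (Pool.Agent.Y687.MQ.fg_gen F hab)
  rw [sum_fin1, Finset.prod_empty, Finset.prod_singleton, one_pow, one_pow, mul_one, mul_one] at h1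
  have h2 := rank_Q hDd
  rw [hc, mul_zero, Nat.cast_mul] at h2
  have e1 : -2835 * (D : ℤ) ^ 2 * (d : ℤ) ^ 2 = -2835 * ((D : ℤ) * d) ^ 2 := by ring
  have e2 : -71442 * (D : ℤ) ^ 3 * (d : ℤ) ^ 3 = -71442 * ((D : ℤ) * d) ^ 3 := by ring
  rw [e1, e2] at h1
  omega

theorem quad_order {D d : ℕ} (hD : Ad D) (hDd : Ad (D * d)) (hc : cr (D * d) = 0)
    (hsq : ¬ IsSquare (d : ℤ)) (F : Type) [Field F] [NumberField F] (y : F) (hy : y ^ 2 = (d : F))
    (hF : IntermediateField.adjoin ℚ {y} = ⊤) :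
    ∃ G : ℂ → ℂ, IsLFun (-2835 * (D : ℤ) ^ 2) (-71442 * (D : ℤ) ^ 3) G ∧
    ∃ Φ : ℂ → ℂ, IsLFunK F (-2835 * (D : ℤ) ^ 2) (-71442 * (D : ℤ) ^ 3) (d : ℤ) Φ ∧
      analyticOrderAt Φ 1 = analyticOrderAt G 1 := by
  have hab := disc49 (M := (D : ℤ)) (by exact_mod_cast hD.1.ne_zero)
  obtain ⟨G, hG⟩ := lfun_C4 hD
  have hC : C4 (D * d) := hDd
  obtain ⟨⟨H, hH, hH1⟩, -⟩ := Q283.GW.zb_CF hC.2 hc
  have hDD : Pool.Agent.Y687.DD (D * d).primeFactors = ((D : ℤ) * d) := by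
    rw [← hC.eq]
    push_cast
    rfl
  rw [hDD] at hH
  refine ⟨G, hG, ?_⟩
  obtain ⟨Φ, h1, h2⟩ := Pool.Agent.Y73.QMQ1.MQ1 _ _ hab 1 (fun _ => (d : ℤ)) (by
      intro T hT h
      rw [fin1 hT, Finset.prod_singleton] at h
      exact hsq h) (fun T => if T = ∅ then G else H) (by
      intro T
      by_cases hT : T = ∅
      · subst hT
        rw [if_pos rfl, Finset.prod_empty, one_pow, one_pow, mul_one, mul_one]
        exact hG
      · rw [if_neg hT]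
        have hT1 : T = {0} := fin1 (Finset.nonempty_of_ne_empty hT)
        have e1 : -2835 * (D : ℤ) ^ 2 * (d : ℤ) ^ 2 = -2835 * ((D : ℤ) * d) ^ 2 := by ring
        have e2 : -71442 * (D : ℤ) ^ 3 * (d : ℤ) ^ 3 = -71442 * ((D : ℤ) * d) ^ 3 := by ring
        rw [hT1, Finset.prod_singleton, e1, e2]
        exact hH) F (fun _ => y) (fun _ => by rw [hy]; push_cast; rfl) (by rw [Set.range_const]; exact hF)
  refine ⟨Φ, ?_, ?_⟩
  · rwa [Fin.prod_const, pow_one] at h1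
  · rw [h2 1 (by norm_num), sum_fin1]
    rw [if_pos rfl, if_neg (Finset.singleton_ne_empty _), hH1, add_zero]

end Q155.KG
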