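import Pool.Agent.Q155.KG.Cp

/-!
# One sequence of primes for all the base twists
-/

set_option autoImplicit false
set_option linter.unusedSectionVars false

namespace Q155.KG

open Finset Filter Topology
open Q155.KT (Par Lb Dta Sy tb avg_tb Pr sy avg_ind avg_sum sy_of nrp_self)
open Q283.TW (nrp)
open Q283.XF (nf Cl1 Cl3 Base)
open Pool.Agent.Q1.PT (avg avg_equiv avg_prod avg_mono avg_const avg_add avg_sub abs_avg avg_hom)
open scoped Classical

/-- large primes of a class with a given label -/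
theorem exists_lb {R : Finset ℕ} (K : Cls R) (l : Lb R) (N : ℕ) :
    ∃ p, N < p ∧ K.C p ∧ p ∉ R ∧ lb K p = l := by
  by_contra hc
  push Not at hc
  have h1 := K.dens l
  have h2 : Tendsto (fun X : ℕ => ((clL K l X).card : ℝ) / ((cs K X).card : ℝ)) atTop (𝓝 0) := by
    refine squeeze_zero (fun X => by positivity) (fun X => ?_)
      (Tendsto.div_atTop (tendsto_const_nhds (x := ((N + 1 : ℕ) : ℝ))) (cs_tendsto K))
    refine div_le_div_of_nonneg_right ?_ (by positivity)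
    have h3 : clL K l X ⊆ range (N + 1) := by
      intro p hp
      obtain ⟨a1, a2, a3⟩ := mem_clL.1 hp
      rw [Finset.mem_range]
      by_contra hlt
      exact hc p (by omega) (mem_cs.1 a1).2 a2 a3
    have := Finset.card_le_card h3
    rw [Finset.card_range] at this
    exact_mod_cast this
  have h3 := tendsto_nhds_unique h1 h2
  have : (0 : ℝ) < 1 / 2 ^ (R.card + 1) := by positivity
  linarith

/-- the statistics which are considered at the time `t` -/
def stt (t : ℕ) : Finset (Option ℕ) := insert none ((range t).image some)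

theorem card_stt (t : ℕ) : (stt t).card ≤ t + 1 := by
  unfold stt
  refine (Finset.card_insert_le _ _).trans ?_
  refine Nat.succ_le_succ (Finset.card_image_le.trans ?_)
  rw [Finset.card_range]

/-- the bad event -/
noncomputable def FD (D : Bs) (t : ℕ) (x : Dta (D.1 ∪ D.2) t) : ℝ :=
  if ∀ s ∈ stt t, |mnT D s univ x - Sl s| < (31 / 32 : ℝ) ^ t then 0 else 1

theorem FD_nonneg (D : Bs) (t : ℕ) (x : Dta (D.1 ∪ D.2) t) : 0 ≤ FD D t x := by
  unfold FD
  split_ifs <;> norm_num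

theorem avg_FD {D : Bs} (h : Vd D) (t : ℕ) :
    avg (FD D t) ≤ ((t : ℝ) + 1) * (400 * 4 ^ D.2.card) * (896 / 961) ^ t := by
  obtain ⟨W, hW⟩ : ∃ W : Dta (D.1 ∪ D.2) t → Prop,
      ∀ x, W x ↔ ¬ ∀ s ∈ stt t, |mnT D s univ x - Sl s| < (31 / 32 : ℝ) ^ t :=
    ⟨_, fun _ => Iff.rfl⟩
  have e1 : avg (FD D t) = avg fun x : Par (D.1 ∪ D.2) t => if W (tb x) then (1 : ℝ) else 0 := by
    rw [← avg_tb W, ← avg_ind]
    congr 1
    funext x
    unfold FD
    by_cases h1 : W x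
    · rw [if_neg ((hW x).1 h1), if_pos h1]
    · rw [if_pos (not_not.1 fun h2 => h1 ((hW x).2 h2)), if_neg h1]
  have h2 := bad_le (R := D.1 ∪ D.2) (k := t) (𝒟 := {D}) (fun D' hD' => by
    rw [Finset.mem_singleton.1 hD']; exact h) (fun D' hD' => by
    rw [Finset.mem_singleton.1 hD']) (stt t) univ (ε := (31 / 32 : ℝ) ^ t) (by positivity)
  have e2 : (fun x : Par (D.1 ∪ D.2) t => if W (tb x) then (1 : ℝ) else 0) =
      fun x => if ∀ D' ∈ ({D} : Finset Bs), ∀ s ∈ stt t, |pdev D' s univ x| < (31 / 32 : ℝ) ^ t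
        then (0 : ℝ) else 1 := by
    funext x
    have h4 : ¬ W (tb x) ↔ ∀ D' ∈ ({D} : Finset Bs), ∀ s ∈ stt t,
        |pdev D' s univ x| < (31 / 32 : ℝ) ^ t := by
      rw [hW, not_not]
      constructor
      · intro h5 D' hD' s hs
        rw [Finset.mem_singleton.1 hD']
        exact h5 s hs
      · intro h5 s hs
        exact h5 D (Finset.mem_singleton_self D) s hs
    by_cases h5 : W (tb x)
    · rw [if_pos h5, if_neg (fun h6 => (h4.2 h6) h5)]
    · rw [if_neg h5, if_pos (h4.1 h5)]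
  rw [e1, e2]
  refine h2.trans ?_
  have h6 : Cst ({D} : Finset Bs) = 400 * 4 ^ D.2.card := by
    unfold Cst
    rw [Finset.sum_singleton]
  rw [h6, Finset.card_univ, Fintype.card_fin, mul_div_assoc]
  have h7 : (7 / 8 : ℝ) ^ t / ((31 / 32) ^ t) ^ 2 = (896 / 961) ^ t := by
    rw [← pow_mul, mul_comm t 2, pow_mul, ← div_pow]
    norm_num
  rw [h7]
  have h8 : ((stt t).card : ℝ) ≤ (t : ℝ) + 1 := by exact_mod_cast card_stt t
  have h9 : (0 : ℝ) ≤ 400 * 4 ^ D.2.card := by positivity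
  exact mul_le_mul_of_nonneg_right (mul_le_mul_of_nonneg_right h8 h9) (by positivity)

theorem summable_FD {D : Bs} (h : Vd D) : Summable fun t => avg (FD D t) := by
  refine Summable.of_nonneg_of_le (fun t => avg_nonneg fun x => FD_nonneg D t x)
    (fun t => avg_FD h t) ?_
  have h1 : Summable fun t : ℕ => (t : ℝ) ^ 1 * (896 / 961 : ℝ) ^ t :=
    summable_pow_mul_geometric_of_norm_lt_one 1 (by norm_num)
  have h2 : Summable fun t : ℕ => (896 / 961 : ℝ) ^ t :=
    summable_geometric_of_lt_one (by norm_num) (by norm_num)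
  refine ((h1.add h2).mul_left (400 * 4 ^ D.2.card)).congr fun t => ?_
  ring

/-- the table of the first `t` primes -/
noncomputable def tq (D : Bs) (q : ℕ → ℕ) (t : ℕ) : Dta (D.1 ∪ D.2) t :=
  (fun i => ((fun r => nrp (q i) r), nf (q i)), sy fun e : Pr t => nrp (q e.1.1) (q e.1.2))

theorem tq_snd (D : Bs) {q : ℕ → ℕ} {t : ℕ} (hq : ∀ i < t, (q i).Prime ∧ q i % 4 = 1) :
    (tq D q t).2.1 = fun i j : Fin t => nrp (q i) (q j) :=
  sy_of (fun i j : Fin t => nrp (q i) (q j)) (fun i j => nrp_sym (hq i i.2) (hq j j.2))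
    fun _ => nrp_self _

theorem tq_succ (D : Bs) {q : ℕ → ℕ} {t p : ℕ} (hq : ∀ i < t, (q i).Prime ∧ q i % 4 = 1)
    (hp : p.Prime ∧ p % 4 = 1) : tq D (Function.update q t p) (t + 1) =
      ex (tq D q t) (((fun r => nrp p r), nf p), fun j : Fin t => nrp p (q j)) := by
  have hu : ∀ i, i < t → Function.update q t p i = q i := fun i hi =>
    Function.update_of_ne (by omega) _ _
  have hq' : ∀ i < t + 1, (Function.update q t p i).Prime ∧ Function.update q t p i % 4 = 1 := by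
    intro i hi
    by_cases h : i < t
    · rw [hu i h]
      exact hq i h
    · have : i = t := by omega
      subst this
      rw [Function.update_self]
      exact hp
  refine Prod.ext ?_ (Subtype.ext ?_)
  · funext i
    show ((fun r : ↥(D.1 ∪ D.2) => nrp (Function.update q t p i) r),
      nf (Function.update q t p i)) = if hi : (i : ℕ) < t then _ else _
    by_cases hi : (i : ℕ) < t
    · rw [dif_pos hi, hu i hi]
      rfl
    · have hit : (i : ℕ) = t := by have := i.2; omega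
      rw [dif_neg hi, hit, Function.update_self]
  · rw [tq_snd D hq']
    show _ = exf (tq D q t).2.1 _
    rw [tq_snd D hq]
    funext i j
    unfold exf
    by_cases hi : (i : ℕ) < t
    · by_cases hj : (j : ℕ) < t
      · rw [dif_pos hi, dif_pos hj, hu i hi, hu j hj]
      · have hjt : (j : ℕ) = t := by have := j.2; omega
        rw [dif_pos hi, dif_neg hj, hu i hi, hjt, Function.update_self]
        exact nrp_sym (hq i hi) hp
    · have hit : (i : ℕ) = t := by have := i.2; omega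
      by_cases hj : (j : ℕ) < t
      · rw [dif_neg hi, dif_pos hj, hu j hj, hit, Function.update_self]
      · have hjt : (j : ℕ) = t := by have := j.2; omega
        rw [dif_neg hi, dif_neg hj, hit, hjt]
        exact nrp_self _

section
variable {r n : ℕ}

/-- the admissible bases -/
def Adm (r : ℕ) (D : Bs) : Prop := Vd D ∧ r ∉ D.1 ∪ D.2

/-- the potential of a base -/
noncomputable def pt (a : Bs × ℕ) (q : ℕ → ℕ) (t : ℕ) : ℝ := ph (FD a.1) a.2 t (tq a.1 q t)

/-- the first `t` primes -/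
def Gq (r n : ℕ) (q : ℕ → ℕ) (t : ℕ) : Prop :=
  (∀ i < t, Cl1 r n (q i)) ∧ ∀ i j, i < j → j < t → q i < q j

/-- the bases are prime to the primes -/
def Cop (r : ℕ) (q : ℕ → ℕ) (t : ℕ) (D : Bs) : Prop := Adm r D ∧ ∀ i < t, q i ∉ D.1 ∪ D.2

/-- the projection of the labels -/
noncomputable def thq (D : Bs) {R' : Finset ℕ} (hD : D.1 ∪ D.2 ⊆ R') {q : ℕ → ℕ} {t : ℕ}
    (hq : ∀ i < t, q i ∈ R') : Lb R' →+ (Lb (D.1 ∪ D.2) × (Fin t → ZMod 2)) where
  toFun l := (((fun r => l.1 ⟨r, hD r.2⟩), l.2), fun j => l.1 ⟨q j, hq j j.2⟩)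
  map_zero' := rfl
  map_add' _ _ := rfl

theorem thq_surj {D : Bs} {R' : Finset ℕ} (hD : D.1 ∪ D.2 ⊆ R') {q : ℕ → ℕ} {t : ℕ}
    (hq : ∀ i < t, q i ∈ R') (hinj : ∀ i j, i < j → j < t → q i < q j)
    (hcop : ∀ i < t, q i ∉ D.1 ∪ D.2) : Function.Surjective (thq D hD hq) := by
  rintro ⟨⟨v, e⟩, w⟩
  let l : R' → ZMod 2 := fun x => if h : (x : ℕ) ∈ D.1 ∪ D.2 then v ⟨x, h⟩ else
    if h : ∃ j : Fin t, q j = x then w h.choose else 0
  have hqi : ∀ i j : Fin t, q i = q j → i = j := by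
    intro i j h
    rcases lt_trichotomy (i : ℕ) j with h1 | h1 | h1
    · exact absurd h (hinj i j h1 j.2).ne
    · exact Fin.ext h1
    · exact absurd h (hinj j i h1 i.2).ne'
  refine ⟨(l, e), ?_⟩
  refine Prod.ext (Prod.ext ?_ rfl) ?_
  · funext x
    show (if h : (x : ℕ) ∈ D.1 ∪ D.2 then v ⟨x, h⟩ else _) = v x
    rw [dif_pos x.2]
  · funext j
    show (if h : q j ∈ D.1 ∪ D.2 then v ⟨q j, h⟩ else
      if h : ∃ j' : Fin t, q j' = q j then w h.choose else 0) = w j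
    have h6 : ∃ j' : Fin t, q j' = q j := ⟨j, rfl⟩
    rw [dif_neg (hcop j j.2), dif_pos h6, hqi _ _ h6.choose_spec]

theorem exists_le_avg {α : Type} [Fintype α] [Nonempty α] (f : α → ℝ) : ∃ a, f a ≤ avg f := by
  by_contra hc
  push Not at hc
  have h1 : ∑ _a : α, avg f < ∑ a : α, f a :=
    Finset.sum_lt_sum_of_nonempty Finset.univ_nonempty fun a _ => hc a
  rw [Finset.sum_const, nsmul_eq_mul, Finset.card_univ] at h1
  unfold avg at h1
  have h0 : (0 : ℝ) < Fintype.card α := by exact_mod_cast Fintype.card_pos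
  rw [mul_div_cancel₀ _ h0.ne'] at h1
  exact lt_irrefl _ h1

/-- **One more prime.** -/
theorem exists_next (hr : r.Prime) (hr2 : r ≠ 2) (hr7 : r ≠ 7) (hr' : ¬ Cl1 r n r)
    {𝒜 : Finset (Bs × ℕ)} {q : ℕ → ℕ} {t : ℕ} (hq : Gq r n q t)
    (h𝒜 : ∀ a ∈ 𝒜, Cop r q t a.1) {c : ℝ} (hc : ∑ a ∈ 𝒜, pt a q t < c) :
    ∃ p, Gq r n (Function.update q t p) (t + 1) ∧
      (∀ a ∈ 𝒜, Cop r (Function.update q t p) (t + 1) a.1) ∧
      ∑ a ∈ 𝒜, pt a (Function.update q t p) (t + 1) < c := by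
  let R' : Finset ℕ := (𝒜.biUnion fun a => a.1.1 ∪ a.1.2) ∪ (range t).image q
  have hq4 : ∀ i < t, (q i).Prime ∧ q i % 4 = 1 := fun i hi => ⟨(hq.1 i hi).1, (hq.1 i hi).2.1⟩
  have hD : ∀ a ∈ 𝒜, a.1.1 ∪ a.1.2 ⊆ R' := fun a ha =>
    (Finset.subset_biUnion_of_mem (fun a : Bs × ℕ => a.1.1 ∪ a.1.2) ha).trans
      Finset.subset_union_left
  have hqR : ∀ i < t, q i ∈ R' := fun i hi =>
    Finset.mem_union_right _ (Finset.mem_image_of_mem q (Finset.mem_range.2 hi))
  have hR4 : ∀ x ∈ R', x.Prime ∧ x % 4 = 1 := by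
    intro x hx
    rcases Finset.mem_union.1 hx with h | h
    · obtain ⟨a, ha, hxa⟩ := Finset.mem_biUnion.1 h
      exact (h𝒜 a ha).1.1.1 x hxa
    · obtain ⟨i, hi, rfl⟩ := Finset.mem_image.1 h
      exact hq4 i (Finset.mem_range.1 hi)
  have hb : Base R' r := by
    refine ⟨hr, hr2, hr7, ?_, fun x hx => ?_⟩
    · intro h
      rcases Finset.mem_union.1 h with h | h
      · obtain ⟨a, ha, hxa⟩ := Finset.mem_biUnion.1 h
        exact (h𝒜 a ha).1.2 hxa
      · obtain ⟨i, hi, he⟩ := Finset.mem_image.1 h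
        have := hq.1 i (Finset.mem_range.1 hi)
        rw [he] at this
        exact hr' this
    · obtain ⟨h1, h2⟩ := hR4 x hx
      exact ⟨h1, by omega, by omega⟩
  let ψ : Lb R' → ℝ := fun l => ∑ a ∈ 𝒜.attach, ph (FD a.1.1) a.1.2 (t + 1)
    (ex (tq a.1.1 q t) (thq a.1.1 (hD a.1 a.2) hqR l))
  have h1 : avg ψ ≤ ∑ a ∈ 𝒜, pt a q t := by
    rw [avg_sum, ← Finset.sum_attach 𝒜]
    refine Finset.sum_le_sum fun a _ => ?_
    have hs := thq_surj (hD a.1 a.2) hqR hq.2 (h𝒜 a.1 a.2).2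
    refine le_trans (le_of_eq (avg_hom (thq a.1.1 (hD a.1 a.2) hqR) hs
      (fun z => ph (FD a.1.1) a.1.2 (t + 1) (ex (tq a.1.1 q t) z)))) ?_
    exact ph_step (FD_nonneg a.1.1) (summable_FD (h𝒜 a.1 a.2).1.1) a.1.2 t (tq a.1.1 q t)
  obtain ⟨l, hl⟩ := exists_le_avg ψ
  obtain ⟨p, hp1, hp2, hp3, hp4⟩ := exists_lb (cS hb n) l (∑ i ∈ range t, q i)
  have hp2' : Cl1 r n p := hp2
  have hu : ∀ i, i < t → Function.update q t p i = q i := fun i hi =>
    Function.update_of_ne (by omega) _ _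
  have hut : Function.update q t p t = p := Function.update_self _ _ _
  have hlt : ∀ i < t, q i < p := fun i hi =>
    lt_of_le_of_lt (Finset.single_le_sum (f := q) (fun _ _ => Nat.zero_le _)
      (Finset.mem_range.2 hi)) hp1
  refine ⟨p, ⟨fun i hi => ?_, fun i j hij hj => ?_⟩, fun a ha => ⟨(h𝒜 a ha).1, fun i hi => ?_⟩, ?_⟩
  · rcases Nat.lt_succ_iff_lt_or_eq.1 hi with h | h
    · rw [hu i h]
      exact hq.1 i h
    · rw [h, hut]
      exact hp2'
  · rcases Nat.lt_succ_iff_lt_or_eq.1 hj with h | h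
    · rw [hu i (hij.trans h), hu j h]
      exact hq.2 i j hij h
    · rw [h, hut, hu i (h ▸ hij)]
      exact hlt i (h ▸ hij)
  · rcases Nat.lt_succ_iff_lt_or_eq.1 hi with h | h
    · rw [hu i h]
      exact (h𝒜 a ha).2 i h
    · rw [h, hut]
      exact fun h' => hp3 (hD a ha h')
  · refine lt_of_le_of_lt ?_ (lt_of_le_of_lt h1 hc)
    refine le_trans (le_of_eq ?_) hl
    rw [← Finset.sum_attach 𝒜]
    refine Finset.sum_congr rfl fun a _ => ?_
    unfold pt
    rw [tq_succ a.1.1 hq4 ⟨hp2'.1, hp2'.2.1⟩]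
    congr 2
    rw [← hp4]
    rfl

/-- **A new base.** -/
theorem exists_act {𝒜 : Finset (Bs × ℕ)} {q : ℕ → ℕ} {t : ℕ}
    (h𝒜 : ∀ a ∈ 𝒜, Cop r q t a.1) {c δ : ℝ} (hδ : 0 < δ) (hc : ∑ a ∈ 𝒜, pt a q t < c) (D : Bs) :
    ∃ ℬ : Finset (Bs × ℕ), 𝒜 ⊆ ℬ ∧ (∀ a ∈ ℬ, Cop r q t a.1) ∧ ∑ a ∈ ℬ, pt a q t < c + δ ∧
      (Cop r q t D → ∃ K, (D, K) ∈ ℬ) := by
  by_cases hD : Cop r q t D
  · obtain ⟨K, hK⟩ := ph_small (FD_nonneg D) (summable_FD hD.1.1) t (tq D q t) hδ
    refine ⟨insert (D, K) 𝒜, Finset.subset_insert _ _, fun a ha => ?_, ?_, fun _ =>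
      ⟨K, Finset.mem_insert_self _ _⟩⟩
    · rcases Finset.mem_insert.1 ha with h | h
      · rw [h]
        exact hD
      · exact h𝒜 a h
    · by_cases h : (D, K) ∈ 𝒜
      · rw [Finset.insert_eq_of_mem h]
        linarith
      · rw [Finset.sum_insert h]
        have : pt (D, K) q t < δ := hK
        linarith
  · exact ⟨𝒜, subset_rfl, h𝒜, by linarith, fun h => absurd h hD⟩

/-- the states -/
def St (r n : ℕ) : Type := {s : ℕ × (ℕ → ℕ) × Finset (Bs × ℕ) // Gq r n s.2.1 s.1 ∧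
  (∀ a ∈ s.2.2, Cop r s.2.1 s.1 a.1) ∧ ∑ a ∈ s.2.2, pt a s.2.1 s.1 < 1 - (1 / 2 : ℝ) ^ (s.1 + 1)}

theorem exists_step (hr : r.Prime) (hr2 : r ≠ 2) (hr7 : r ≠ 7) (hr' : ¬ Cl1 r n r) (s : St r n)
    (D : Bs) : ∃ s' : St r n, s'.1.1 = s.1.1 + 1 ∧ (∀ i < s.1.1, s'.1.2.1 i = s.1.2.1 i) ∧
      s.1.2.2 ⊆ s'.1.2.2 ∧ (Cop r s.1.2.1 s.1.1 D → ∃ K, (D, K) ∈ s'.1.2.2) := by
  obtain ⟨⟨t, q, 𝒜⟩, h1, h2, h3⟩ := s
  obtain ⟨ℬ, b1, b2, b3, b4⟩ := exists_act h2 (δ := (1 / 2 : ℝ) ^ (t + 2)) (by positivity) h3 D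
  obtain ⟨p, p1, p2, p3⟩ := exists_next hr hr2 hr7 hr' h1 b2 b3
  refine ⟨⟨(t + 1, Function.update q t p, ℬ), p1, p2, lt_of_lt_of_eq p3 ?_⟩, rfl, ?_, b1, b4⟩
  · show 1 - (1 / 2 : ℝ) ^ (t + 1) + (1 / 2) ^ (t + 2) = 1 - (1 / 2) ^ (t + 1 + 1)
    rw [pow_succ (1 / 2 : ℝ) (t + 1)]
    ring
  · intro i hi
    have hi' : i < t := hi
    exact Function.update_of_ne (by omega) _ _

/-- the base with the number `n` -/
noncomputable def bse (m : ℕ) : Bs := (Encodable.decode (α := Bs) m).getD (∅, ∅)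

theorem bse_surj (D : Bs) : ∃ m, bse m = D := by
  refine ⟨Encodable.encode D, ?_⟩
  unfold bse
  rw [Encodable.encodek]
  rfl

/-- **One sequence of primes for all the bases.** -/
theorem exists_primes (hr : r.Prime) (hr2 : r ≠ 2) (hr7 : r ≠ 7) (hr' : ¬ Cl1 r n r) :
    ∃ p : ℕ → ℕ, StrictMono p ∧ (∀ i, Cl1 r n (p i)) ∧
      ∀ D : Bs, Adm r D → (∀ i, p i ∉ D.1 ∪ D.2) → ∃ k₀, ∀ k, k₀ ≤ k → ∀ s ∈ stt k,
        |mn D s univ (fun i : Fin k => p i) - Sl s| < (31 / 32 : ℝ) ^ k := by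
  choose f f1 f2 f3 f4 using fun (s : St r n) (D : Bs) => exists_step hr hr2 hr7 hr' s D
  let s0 : St r n := ⟨(0, fun _ => 0, ∅), ⟨fun i hi => absurd hi (Nat.not_lt_zero i),
    fun i j _ hj => absurd hj (Nat.not_lt_zero j)⟩, fun a ha => absurd ha (Finset.notMem_empty a), by
      rw [Finset.sum_empty]; norm_num⟩
  let s : ℕ → St r n := fun m => Nat.rec s0 (fun m t => f t (bse m)) m
  have hs : ∀ m, s (m + 1) = f (s m) (bse m) := fun m => rfl
  have ht : ∀ m, (s m).1.1 = m := by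
    intro m
    induction m with
    | zero => rfl
    | succ m ih => rw [hs, f1, ih]
  have hmono : ∀ m, (s m).1.2.2 ⊆ (s (m + 1)).1.2.2 := fun m => by
    rw [hs]
    exact f3 _ _
  have hmono' : ∀ a b, a ≤ b → (s a).1.2.2 ⊆ (s b).1.2.2 := fun a b hab =>
    monotone_nat_of_le_succ (f := fun m => (s m).1.2.2) hmono hab
  let p : ℕ → ℕ := fun i => (s (i + 1)).1.2.1 i
  have hp : ∀ m i, i < m → (s m).1.2.1 i = p i := by
    intro m
    induction m with
    | zero => exact fun i hi => absurd hi (Nat.not_lt_zero i)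
    | succ m ih =>
      intro i hi
      rcases Nat.lt_succ_iff_lt_or_eq.1 hi with h | h
      · rw [hs, f2 _ _ i (by rw [ht]; exact h), ih i h]
      · rw [h]
  have hG : ∀ m, Gq r n (s m).1.2.1 m := fun m => by
    have := (s m).2.1
    rwa [ht] at this
  refine ⟨p, ?_, fun i => ?_, ?_⟩
  · refine strictMono_nat_of_lt_succ fun i => ?_
    have h1 := (hG (i + 2)).2 i (i + 1) (by omega) (by omega)
    rwa [hp (i + 2) i (by omega), hp (i + 2) (i + 1) (by omega)] at h1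
  · have h1 := (hG (i + 1)).1 i (by omega)
    rwa [hp (i + 1) i (by omega)] at h1
  · intro D hD hDp
    obtain ⟨m, rfl⟩ := bse_surj D
    have hcop : Cop r (s m).1.2.1 (s m).1.1 (bse m) := by
      refine ⟨hD, fun i hi => ?_⟩
      rw [ht] at hi
      rw [hp m i hi]
      exact hDp i
    obtain ⟨K, hK⟩ := f4 (s m) (bse m) hcop
    refine ⟨max (m + 1) K, fun k hk => ?_⟩
    have hkm : m + 1 ≤ k := (le_max_left _ _).trans hk
    have hkK : K ≤ k := (le_max_right _ _).trans hk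
    have hmem : (bse m, K) ∈ (s k).1.2.2 := hmono' (m + 1) k hkm (by rw [hs]; exact hK)
    have hsum := (s k).2.2.2
    rw [ht] at hsum
    have h1 : pt (bse m, K) (s k).1.2.1 k ≤ ∑ a ∈ (s k).1.2.2, pt a (s k).1.2.1 k :=
      Finset.single_le_sum (f := fun a : Bs × ℕ => pt a (s k).1.2.1 k)
        (fun a _ => ph_nonneg (FD_nonneg a.1) _ _ _) hmem
    have h2 : FD (bse m) k (tq (bse m) (s k).1.2.1 k) ≤ pt (bse m, K) (s k).1.2.1 k :=
      ph_self (FD_nonneg _) (summable_FD hD.1) hkK _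
    have h3 : FD (bse m) k (tq (bse m) (s k).1.2.1 k) < 1 := by
      have : (0 : ℝ) < (1 / 2) ^ (k + 1) := by positivity
      linarith
    have h4 : ∀ s' ∈ stt k, |mnT (bse m) s' univ (tq (bse m) (s k).1.2.1 k) - Sl s'| <
        (31 / 32 : ℝ) ^ k := by
      by_contra hc
      unfold FD at h3
      rw [if_neg hc] at h3
      exact lt_irrefl _ h3
    have hb : Base ((bse m).1 ∪ (bse m).2) r := by
      refine ⟨hr, hr2, hr7, hD.2, fun x hx => ?_⟩
      obtain ⟨h1, h2⟩ := hD.1.1 x hx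
      exact ⟨h1, by omega, by omega⟩
    have e1 : tq (bse m) (s k).1.2.1 k = tab (fun _ : Fin k => cS hb n) fun i : Fin k => p i := by
      refine Prod.ext ?_ ?_
      · funext i
        show ((fun x : ↥((bse m).1 ∪ (bse m).2) => nrp ((s k).1.2.1 i) x), nf ((s k).1.2.1 i)) = _
        rw [hp k i i.2]
        rfl
      · show sy (fun e : Pr k => nrp ((s k).1.2.1 e.1.1) ((s k).1.2.1 e.1.2)) =
          sy fun e : Pr k => nrp (p e.1.1) (p e.1.2)
        congr 1
        funext e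
        rw [hp k _ e.1.1.2, hp k _ e.1.2.2]
    have hCl : ∀ i : Fin k, Cl1 r n (p i) := by
      intro i
      have h1 := (hG k).1 i i.2
      rwa [hp k i i.2] at h1
    have hinj : Function.Injective fun i : Fin k => p i := by
      intro i j hij
      rcases lt_trichotomy (i : ℕ) j with h | h | h
      · have h1 := (hG k).2 i j h j.2
        rw [hp k i i.2, hp k j j.2] at h1
        exact absurd hij h1.ne
      · exact Fin.ext h
      · have h1 := (hG k).2 j i h i.2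
        rw [hp k i i.2, hp k j j.2] at h1
        exact absurd hij h1.ne'
    intro s' hs'
    rw [mn_tab hD.1 (subset_refl _) (fun _ : Fin k => cS hb n) (A := univ) (fun _ _ => rfl)
      (p := fun i : Fin k => p i) hCl hinj (fun i => hDp i) s', ← e1]
    exact h4 s' hs'

end

end Q155.KG
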