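import Pool.Agent.Q155.KG.All
import Pool.Agent.Q155.KG.Inf

/-!
# The law of large numbers over the divisors, for the matrices
-/

set_option autoImplicit false
set_option linter.unusedSectionVars false

namespace Q155.KG

open Finset Matrix Filter Topology
open Q155.KT (kz kz_pow)
open Q283.XF (nf Cl1 Cl3 Base)
open Pool.Agent.Y703.CQ (c2)
open scoped Classical

/-- the share of the subsets for which the kernel has `2 ^ b` elements -/
noncomputable def shr {k : ℕ} (f : Finset (Fin k) → ℕ) (b : ℕ) : ℝ :=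
  (Nat.card {U : Finset (Fin k) // f U = 2 ^ b} : ℝ) / 2 ^ k

/-- the mean of the sizes of the kernels -/
noncomputable def mea {k : ℕ} (f : Finset (Fin k) → ℕ) : ℝ := (∑ U : Finset (Fin k), (f U : ℝ)) / 2 ^ k

theorem sum_FI {k : ℕ} (f : Finset (Fin k) → ℕ) (b : ℕ) :
    (∑ U : Finset (Fin k), FI b (f U)) / 2 ^ k = shr f b := by
  unfold shr FI
  rw [Finset.sum_boole, Nat.card_eq_fintype_card, Fintype.card_subtype]

theorem shr_nonneg {k : ℕ} (f : Finset (Fin k) → ℕ) (b : ℕ) : 0 ≤ shr f b := by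
  unfold shr
  positivity

theorem shr_mul_le {k : ℕ} (f : Finset (Fin k) → ℕ) (b : ℕ) : shr f b * 2 ^ b ≤ mea f := by
  rw [← sum_FI]
  unfold mea
  rw [div_mul_eq_mul_div, Finset.sum_mul]
  refine div_le_div_of_nonneg_right (Finset.sum_le_sum fun U _ => ?_) (by positivity)
  unfold FI
  by_cases h : f U = 2 ^ b
  · rw [if_pos h, h]
    push_cast
    rw [one_mul]
  · rw [if_neg h, zero_mul]
    exact Nat.cast_nonneg _

theorem c2_lt : c2 < 0.4195 := Pool.Agent.Y948.CQ.t_C2.2.2.2.2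

theorem c2_gt : 0.4194 < c2 := Pool.Agent.Y948.CQ.t_C2.2.2.2.1

theorem al_succ (b : ℕ) : al (b + 1) = al b / (2 ^ (b + 1) - 1) := by
  unfold al
  rw [Finset.prod_range_succ, div_div]

theorem al_zero : al 0 = c2 := by
  unfold al
  rw [Finset.range_zero, Finset.prod_empty, div_one]

theorem al_one : al 1 = c2 := by
  rw [al_succ, al_zero]
  norm_num

theorem al_two : al 2 = c2 / 3 := by
  rw [al_succ, al_one]
  norm_num

theorem al_three : al 3 = c2 / 21 := by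
  rw [al_succ, al_two]
  norm_num
  ring

theorem al_nonneg (b : ℕ) : 0 ≤ al b := by
  induction b with
  | zero => rw [al_zero]; linarith [c2_gt]
  | succ b ih =>
    rw [al_succ]
    refine div_nonneg ih ?_
    have : (1 : ℝ) ≤ 2 ^ (b + 1) := one_le_pow₀ (by norm_num)
    linarith

theorem al_le (b : ℕ) : al b ≤ 1 / 2 ^ b := by
  rcases b with _ | b
  · rw [al_zero]
    have := c2_lt
    norm_num
    linarith
  · induction b with
    | zero => rw [al_one]; have := c2_lt; norm_num; linarith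
    | succ b ih =>
      rw [al_succ]
      have h1 : (4 : ℝ) ≤ 2 ^ (b + 1 + 1) := by
        have : (2 : ℝ) ^ 2 ≤ 2 ^ (b + 1 + 1) := pow_le_pow_right₀ (by norm_num) (by omega)
        linarith
      have h2 := al_nonneg (b + 1)
      have h3 : al (b + 1) / (2 ^ (b + 1 + 1) - 1) ≤ al (b + 1) / 2 :=
        div_le_div_of_nonneg_left h2 (by norm_num) (by linarith)
      refine h3.trans ?_
      rw [pow_succ (2 : ℝ) (b + 1), ← div_div]
      exact div_le_div_of_nonneg_right ih (by norm_num)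

/-- the shares are near the limit law -/
def Nr {k : ℕ} (f : Finset (Fin k) → ℕ) (ε : ℝ) : Prop :=
  (∀ b, |shr f b - al b| < ε) ∧ |mea f - 2| < ε

theorem nr_of {k : ℕ} {f : Finset (Fin k) → ℕ} {ε : ℝ} (hε1 : ε ≤ 1) (B : ℕ) (hB : 3 / 2 ^ B < ε)
    (h : ∀ s : Option ℕ, s ∈ insert none ((range B).image some) →
      |(∑ U : Finset (Fin k), SF s (f U)) / 2 ^ k - Sl s| < ε) : Nr f ε := by
  have hm : |mea f - 2| < ε := h none (Finset.mem_insert_self _ _)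
  refine ⟨fun b => ?_, hm⟩
  by_cases hb : b < B
  · have h1 := h (some b) (Finset.mem_insert_of_mem (Finset.mem_image_of_mem _
      (Finset.mem_range.2 hb)))
    have e : (∑ U : Finset (Fin k), SF (some b) (f U)) / 2 ^ k = shr f b := sum_FI f b
    rwa [e] at h1
  · have h2 : (2 : ℝ) ^ B ≤ 2 ^ b := pow_le_pow_right₀ (by norm_num) (not_lt.1 hb)
    have h3 := shr_mul_le f b
    have h4 := (abs_lt.1 hm).2
    have h5 : (0 : ℝ) < 2 ^ b := by positivity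
    have h6 : shr f b ≤ 3 / 2 ^ b := by
      rw [le_div_iff₀ h5]
      linarith
    have h7 : 3 / (2 : ℝ) ^ b ≤ 3 / 2 ^ B :=
      div_le_div_of_nonneg_left (by norm_num) (by positivity) h2
    have h8 := al_le b
    have h9 : 1 / (2 : ℝ) ^ b ≤ 3 / 2 ^ b := div_le_div_of_nonneg_right (by norm_num) h5.le
    have h10 := al_nonneg b
    have h11 := shr_nonneg f b
    rw [abs_lt]
    constructor <;> linarith

theorem exists_B {ε : ℝ} (hε : 0 < ε) : ∃ B : ℕ, 3 / 2 ^ B < ε := by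
  have h1 : Tendsto (fun B : ℕ => (3 : ℝ) * (1 / 2) ^ B) atTop (𝓝 0) := by
    have := (tendsto_pow_atTop_nhds_zero_of_lt_one (by norm_num : (0 : ℝ) ≤ 1 / 2)
      (by norm_num : (1 / 2 : ℝ) < 1)).const_mul (3 : ℝ)
    rwa [mul_zero] at this
  obtain ⟨B, hB⟩ := (h1.eventually (gt_mem_nhds hε)).exists
  refine ⟨B, lt_of_eq_of_lt ?_ hB⟩
  rw [one_div, inv_pow, div_eq_mul_inv]

/-- **The means of the coranks.** -/
theorem mean_le {k : ℕ} {f : Finset (Fin k) → ℕ} {ε : ℝ} (h : Nr f ε)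
    (c : Finset (Fin k) → ℕ) (hc : ∀ U, f U = 2 ^ c U) :
    (∑ U : Finset (Fin k), (c U : ℝ)) / 2 ^ k < 0.7647 + 3 * ε := by
  have h1 : ∀ n : ℕ, (n : ℝ) ≤ -(1 / 4) * FI 0 (2 ^ n) + 1 / 2 * FI 1 (2 ^ n) + FI 2 (2 ^ n) +
      FI 3 (2 ^ n) + 1 / 4 * ((2 ^ n : ℕ) : ℝ) := by
    intro n
    rw [FI_pow, FI_pow, FI_pow, FI_pow]
    unfold fb
    rcases n with _ | _ | _ | _ | n
    · norm_num
    · norm_num
    · norm_num
    · norm_num
    · have e0 : n + 1 + 1 + 1 + 1 ≠ 0 := by omega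
      have e1 : n + 1 + 1 + 1 + 1 ≠ 1 := by omega
      have e2 : n + 1 + 1 + 1 + 1 ≠ 2 := by omega
      have e3 : n + 1 + 1 + 1 + 1 ≠ 3 := by omega
      rw [if_neg e0, if_neg e1, if_neg e2, if_neg e3]
      have h2 : n + 1 ≤ 2 ^ n := Nat.lt_two_pow_self
      have h3 : (n : ℝ) + 1 ≤ 2 ^ n := by exact_mod_cast h2
      push_cast
      rw [pow_succ, pow_succ, pow_succ, pow_succ]
      linarith
  have h2 : (∑ U : Finset (Fin k), (c U : ℝ)) / 2 ^ k ≤ -(1 / 4) * shr f 0 + 1 / 2 * shr f 1 +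
      shr f 2 + shr f 3 + 1 / 4 * mea f := by
    rw [← sum_FI, ← sum_FI, ← sum_FI, ← sum_FI]
    unfold mea
    have e : -(1 / 4 : ℝ) * ((∑ U : Finset (Fin k), FI 0 (f U)) / 2 ^ k) +
        1 / 2 * ((∑ U : Finset (Fin k), FI 1 (f U)) / 2 ^ k) +
        (∑ U : Finset (Fin k), FI 2 (f U)) / 2 ^ k + (∑ U : Finset (Fin k), FI 3 (f U)) / 2 ^ k +
        1 / 4 * ((∑ U : Finset (Fin k), (f U : ℝ)) / 2 ^ k) =
        (∑ U : Finset (Fin k), (-(1 / 4) * FI 0 (f U) + 1 / 2 * FI 1 (f U) + FI 2 (f U) +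
          FI 3 (f U) + 1 / 4 * (f U : ℝ))) / 2 ^ k := by
      rw [Finset.sum_add_distrib, Finset.sum_add_distrib, Finset.sum_add_distrib,
        Finset.sum_add_distrib, ← Finset.mul_sum, ← Finset.mul_sum, ← Finset.mul_sum]
      ring
    rw [e]
    refine div_le_div_of_nonneg_right (Finset.sum_le_sum fun U _ => ?_) (by positivity)
    rw [hc U]
    exact h1 (c U)
  have a0 := (abs_lt.1 (h.1 0)).1
  have a1 := (abs_lt.1 (h.1 1)).2
  have a2 := (abs_lt.1 (h.1 2)).2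
  have a3 := (abs_lt.1 (h.1 3)).2
  have a4 := (abs_lt.1 h.2).2
  rw [al_zero] at a0
  rw [al_one] at a1
  rw [al_two] at a2
  rw [al_three] at a3
  have h3 := c2_lt
  linarith

theorem nr_mono {k : ℕ} {f : Finset (Fin k) → ℕ} {ε δ : ℝ} (h : Nr f ε) (hεδ : ε ≤ δ) : Nr f δ :=
  ⟨fun b => (h.1 b).trans_le hεδ, h.2.trans_le hεδ⟩

/-- **The law of large numbers**, all primes `1` modulo `4`. -/
theorem divisors_law {𝒟 : Finset ℕ} (h : ∀ D ∈ 𝒟, Ad D) {ε : ℝ} (hε : 0 < ε) : ∃ C : ℝ, ∀ k : ℕ,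
    ∃ X₀ : ℕ, ∀ X, X₀ ≤ X → (1 - C * (15 / 16) ^ k) * ((tupP k X).card : ℝ) ≤
      (((tupP k X).filter fun p => Function.Injective p ∧ ∀ D ∈ 𝒟, (∀ i, ¬ p i ∣ D) ∧
        Nr (fun U => kn (D * ∏ i ∈ U, p i)) ε).card : ℝ) := by
  set ε' := min ε 1 with hε'
  have hε0 : 0 < ε' := lt_min hε one_pos
  obtain ⟨B, hB⟩ := exists_B hε0
  set 𝒮 : Finset (Option ℕ) := insert none ((range B).image some) with h𝒮
  refine ⟨𝒮.card * Cs 𝒟 / ε' ^ 2 + 1, fun k => ?_⟩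
  obtain ⟨T, hT⟩ : ∃ T : (Fin k → ℕ) → Prop, ∀ p, T p ↔ Function.Injective p ∧
      (∀ i, p i ∉ Rp 𝒟) ∧ ∀ D ∈ 𝒟, ∀ s ∈ 𝒮, |mm D s p - Sl s| < ε' := ⟨_, fun _ => Iff.rfl⟩
  obtain ⟨ℓ, hℓ, hlim⟩ := lln_all h k 𝒮 hε0 T (fun p _ => hT p)
  have h1 : 1 - (𝒮.card * Cs 𝒟 / ε' ^ 2 + 1) * (15 / 16) ^ k < ℓ := by
    have h2 : (0 : ℝ) < (15 / 16) ^ k := by positivity
    have e : (𝒮.card : ℝ) * Cs 𝒟 * (15 / 16) ^ k / ε' ^ 2 =
        𝒮.card * Cs 𝒟 / ε' ^ 2 * (15 / 16) ^ k := by ring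
    rw [e] at hℓ
    linarith
  obtain ⟨X₀, hX₀⟩ := Filter.eventually_atTop.1 (hlim.eventually (lt_mem_nhds h1))
  refine ⟨X₀, fun X hX => ?_⟩
  have h3 := hX₀ X hX
  have h4 : ((tupP k X).filter fun p => T p) ⊆ (tupP k X).filter fun p => Function.Injective p ∧
      ∀ D ∈ 𝒟, (∀ i, ¬ p i ∣ D) ∧ Nr (fun U => kn (D * ∏ i ∈ U, p i)) ε := by
    intro p hp
    obtain ⟨hp1, hp2⟩ := Finset.mem_filter.1 hp
    obtain ⟨t1, t2, t3⟩ := (hT p).1 hp2
    have hP := mem_tupP.1 hp1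
    refine Finset.mem_filter.2 ⟨hp1, t1, fun D hD => ⟨fun i hi => ?_, ?_⟩⟩
    · exact t2 i (Finset.mem_biUnion.2 ⟨D, hD, (hP i).2.1.mem_primeFactors hi (h D hD).1.ne_zero⟩)
    · exact nr_mono (nr_of (min_le_right _ _) B hB fun s hs => t3 D hD s hs) (min_le_left _ _)
  have h5 := (Nat.cast_le (α := ℝ)).2 (Finset.card_le_card h4)
  refine le_trans ?_ h5
  rcases (Nat.cast_nonneg (tupP k X).card : (0 : ℝ) ≤ _).lt_or_eq with h6 | h6
  · rw [lt_div_iff₀ h6] at h3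
    exact h3.le
  · rw [← h6, mul_zero]
    exact Nat.cast_nonneg _

/-- **One sequence for all the twists.** -/
theorem sequence_law : ∃ p : ℕ → ℕ, StrictMono p ∧ (∀ i, P1 (p i) ∧ Sq (p i)) ∧
    ∀ D, Ad D → (∀ i, ¬ p i ∣ D) → ∃ k₀, ∀ k, k₀ ≤ k →
      Nr (fun U : Finset (Fin k) => kn (D * ∏ i ∈ U, p i)) ((31 / 32) ^ k) := by
  obtain ⟨p, h1, h2, h3⟩ := exists_primes (r := 3) (n := 0) (by norm_num) (by norm_num)
    (by norm_num) (fun h => absurd h.2.1 (by norm_num))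
  have h2' : ∀ i, P1 (p i) ∧ Sq (p i) := fun i => (cl1_iff _).1 (h2 i)
  refine ⟨p, h1, h2', fun D hD hDp => ?_⟩
  have hcop : ∀ i, p i ∉ (bs D).1 ∪ (bs D).2 := fun i hi => by
    rw [bs_union] at hi
    exact hDp i (Nat.dvd_of_mem_primeFactors hi)
  have hadm : Adm 3 (bs D) := by
    refine ⟨vd_bs hD, fun h => ?_⟩
    rw [bs_union] at h
    have := (hD.2 3 h).2
    omega
  obtain ⟨k₀, hk₀⟩ := h3 (bs D) hadm hcop
  have h16 : ∀ k : ℕ, 2 ≤ k → 3 / (2 : ℝ) ^ k < (31 / 32) ^ k := by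
    intro k hk
    rw [div_lt_iff₀ (by positivity), ← mul_pow]
    have h5 : (31 / 32 * 2 : ℝ) ^ 2 ≤ (31 / 32 * 2) ^ k := pow_le_pow_right₀ (by norm_num) hk
    have h6 : (3 : ℝ) < (31 / 32 * 2) ^ 2 := by norm_num
    linarith
  refine ⟨max k₀ 2, fun k hk => ?_⟩
  refine nr_of (pow_le_one₀ (by norm_num) (by norm_num)) k (h16 k ((le_max_right _ _).trans hk))
    fun s hs => ?_
  have h4 := hk₀ k ((le_max_left _ _).trans hk) s hs
  have e : mn (bs D) s univ (fun i : Fin k => p i) =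
      (∑ U : Finset (Fin k), SF s (kn (D * ∏ i ∈ U, p i))) / 2 ^ k :=
    (mm_eq hD.1.ne_zero (fun i => (h2' i).1) (A := univ)
      (fun i => ⟨fun _ => Finset.mem_univ i, fun _ => (h2' i).2⟩) s).symm
  rwa [e] at h4

end Q155.KG
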