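import Pool.Agent.Q155.KG.Den
import Pool.Agent.TH423.SH.PAIP

/-!
# The classes of primes
-/

set_option autoImplicit false
set_option linter.style.haveILetI false
set_option linter.unusedSectionVars false

namespace Q155.KG

open Filter Topology Finset
open Q155.KT (Lb)
open Q283.TW (nrp)
open Q283.XF (nf Cl1 Cl2 Cl3 Base)
open scoped Classical

theorem cheg (m a : ℕ) (hm : 0 < m) (ha : a.Coprime m) : ∃ (c : ℝ) (Y₀ : ℕ), 0 < c ∧ ∀ Y : ℕ, Y₀ ≤ Y →
    c * Y / Real.log Y ≤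
      (((range (Y + 1)).filter fun p => p.Prime ∧ p % m = a % m).card : ℝ) := by
  obtain ⟨x₀, hx₀⟩ := Pool.Agent.TH423.SH.pai m hm (1 / 2) (1 / 4) (by norm_num)
    (by norm_num)
  have hφ : (0 : ℝ) < (m.totient : ℝ) := by exact_mod_cast Nat.totient_pos.2 hm
  refine ⟨1 / (8 * m.totient), max 4 ⌈x₀⌉₊, by positivity, ?_⟩
  intro Y hY
  have hY4 : 4 ≤ Y := le_trans (le_max_left _ _) hY
  have hYx : x₀ ≤ (Y : ℝ) := (Nat.le_ceil x₀).trans (by exact_mod_cast (le_max_right _ _).trans hY)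
  have hY4' : (4 : ℝ) ≤ Y := by exact_mod_cast hY4
  have hdiv1 : ((Y / 2 : ℕ) : ℝ) ≤ (Y : ℝ) / 2 := Nat.cast_div_le
  have hdiv2 : (Y : ℝ) / 2 ≤ ((Y / 2 + 1 : ℕ) : ℝ) := by
    have : Y < 2 * (Y / 2 + 1) := by omega
    have : (Y : ℝ) < 2 * ((Y / 2 + 1 : ℕ) : ℝ) := by exact_mod_cast this
    linarith
  have hlog : 0 < Real.log Y := Real.log_pos (by linarith)
  have h := hx₀ Y hYx (Y / 2 + 1) Y a hdiv2 (by linarith)
    (by push_cast; linarith) ha
  have h1 := (abs_le.mp h).1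
  have hsub : (Ioc (Y / 2 + 1) Y).filter (fun q => q.Prime ∧ q % m = a % m) ⊆
      (range (Y + 1)).filter fun p => p.Prime ∧ p % m = a % m := by
    intro q hq
    rw [mem_filter, mem_Ioc] at hq
    rw [mem_filter, mem_range]
    exact ⟨by omega, hq.2⟩
  have hcard : (((Ioc (Y / 2 + 1) Y).filter (fun q => q.Prime ∧ q % m = a % m)).card : ℝ) ≤
      (((range (Y + 1)).filter fun p => p.Prime ∧ p % m = a % m).card : ℝ) := by
    exact_mod_cast Finset.card_le_card hsub
  refine le_trans ?_ hcard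
  have h2 : (1 / 2 : ℝ) * (((Y : ℝ) - ((Y / 2 + 1 : ℕ) : ℝ)) / (m.totient * Real.log Y)) ≤
      (((Ioc (Y / 2 + 1) Y).filter (fun q => q.Prime ∧ q % m = a % m)).card : ℝ) := by
    linarith
  refine le_trans ?_ h2
  have h3 : (Y : ℝ) / 4 ≤ (Y : ℝ) - ((Y / 2 + 1 : ℕ) : ℝ) := by push_cast; linarith
  have h4 : (Y : ℝ) / 4 / (m.totient * Real.log Y) ≤
      ((Y : ℝ) - ((Y / 2 + 1 : ℕ) : ℝ)) / (m.totient * Real.log Y) := by
    apply div_le_div_of_nonneg_right h3
    positivity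
  calc 1 / (8 * (m.totient : ℝ)) * Y / Real.log Y = 1 / 2 * ((Y : ℝ) / 4 / (m.totient * Real.log Y)) := by
        field_simp; ring
    _ ≤ _ := by linarith

/-- a class of primes with equidistributed labels -/
structure Cls (R : Finset ℕ) where
  C : ℕ → Prop
  e : ℕ → ZMod 2
  hC : ∀ p, C p → p.Prime ∧ p % 4 = 1
  low : ∃ (c : ℝ) (Y₀ : ℕ), 0 < c ∧ ∀ Y : ℕ, Y₀ ≤ Y →
    c * Y / Real.log Y ≤ (((range (Y + 1)).filter fun p => C p).card : ℝ)
  dens : ∀ l : Lb R, Tendsto (fun X : ℕ =>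
    (((range (X + 1)).filter fun p => C p ∧ (p ∉ R ∧ ((fun q : R => nrp p q), e p) = l)).card : ℝ) /
      (((range (X + 1)).filter fun p => C p).card : ℝ)) atTop (𝓝 (1 / 2 ^ (R.card + 1)))

section
variable {R : Finset ℕ} {r : ℕ}

theorem low_of {C : ℕ → Prop} (m a : ℕ) (hm : 0 < m) (ha : a.Coprime m)
    (h : ∀ p : ℕ, p.Prime → p % m = a % m → C p) : ∃ (c : ℝ) (Y₀ : ℕ), 0 < c ∧ ∀ Y : ℕ, Y₀ ≤ Y →
    c * Y / Real.log Y ≤ (((range (Y + 1)).filter fun p => C p).card : ℝ) := by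
  obtain ⟨c, Y₀, hc, h1⟩ := cheg m a hm ha
  refine ⟨c, Y₀, hc, fun Y hY => (h1 Y hY).trans ?_⟩
  have : ((range (Y + 1)).filter fun p => p.Prime ∧ p % m = a % m) ⊆
      (range (Y + 1)).filter fun p => C p := by
    intro p hp
    obtain ⟨h1, h2, h3⟩ := Finset.mem_filter.1 hp
    exact Finset.mem_filter.2 ⟨h1, h p h2 h3⟩
  exact_mod_cast Finset.card_le_card this

theorem low_split (hb : Base R r) (n : ℕ) : ∃ (c : ℝ) (Y₀ : ℕ), 0 < c ∧ ∀ Y : ℕ, Y₀ ≤ Y →
    c * Y / Real.log Y ≤ (((range (Y + 1)).filter fun p => Cl1 r n p).card : ℝ) := by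
  have hr := hb.hr.pos
  haveI : NeZero r := ⟨hb.hr.ne_zero⟩
  refine low_of (4 * (7 * r)) 1 (by positivity) (Nat.coprime_one_left _) fun p hp h => ?_
  haveI : Fact p.Prime := ⟨hp⟩
  have h1 : p ≡ 1 [MOD 4 * (7 * r)] := h
  refine Q283.XF.cl1_of ?_ ?_ ?_
  · have : p ≡ 1 [MOD 4] := h1.of_dvd (Dvd.intro _ rfl)
    exact this
  · exact h1.of_dvd ⟨4 * r, by ring⟩
  · exact h1.of_dvd ⟨28, by ring⟩

theorem low_inert (hb : Base R r) (n : ℕ) : ∃ (c : ℝ) (Y₀ : ℕ), 0 < c ∧ ∀ Y : ℕ, Y₀ ≤ Y →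
    c * Y / Real.log Y ≤ (((range (Y + 1)).filter fun p => Cl3 r n p).card : ℝ) := by
  have hr := hb.hr.pos
  haveI : NeZero r := ⟨hb.hr.ne_zero⟩
  have hc : Nat.Coprime 7 (4 * r) := by
    refine Nat.Coprime.mul_right (by norm_num) ?_
    exact ((Nat.coprime_primes (by norm_num) hb.hr).2 (fun h => hb.hr7 h.symm))
  obtain ⟨a, ha1, ha2⟩ := Nat.chineseRemainder hc 3 1
  have hac : a.Coprime (7 * (4 * r)) := by
    refine Nat.Coprime.mul_right ?_ ?_
    · have h1 : Nat.gcd a 7 = Nat.gcd 3 7 := ha1.gcd_eq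
      show Nat.gcd a 7 = 1
      rw [h1]; norm_num
    · have h1 : Nat.gcd a (4 * r) = Nat.gcd 1 (4 * r) := ha2.gcd_eq
      show Nat.gcd a (4 * r) = 1
      rw [h1]; simp
  refine low_of (7 * (4 * r)) a (by positivity) hac fun p hp h => ?_
  haveI : Fact p.Prime := ⟨hp⟩
  have h1 : p ≡ a [MOD 7 * (4 * r)] := h
  have h7 : p ≡ 3 [MOD 7] := (h1.of_dvd (Dvd.intro _ rfl)).trans ha1
  have h4r : p ≡ 1 [MOD 4 * r] := (h1.of_dvd (Dvd.intro_left _ rfl)).trans ha2
  have h4 : p % 4 = 1 := by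
    have : p ≡ 1 [MOD 4] := h4r.of_dvd (Dvd.intro _ rfl)
    exact this
  have hpr : p ≡ 1 [MOD r] := h4r.of_dvd (Dvd.intro_left _ rfl)
  obtain ⟨-, -, h5⟩ := Q283.XF.cl2_of (n := n) h4 hpr
  refine ⟨hp, h4, ?_, ?_, h5⟩
  · rw [Q283.XF.sq7_iff h4]
    have : (p : ZMod 7) = (3 : ℕ) := (ZMod.natCast_eq_natCast_iff _ _ _).2 h7
    rw [this]
    decide
  · rintro rfl
    have h6 : p ∣ 1 := (Nat.modEq_zero_iff_dvd.1 (hpr.symm.trans (by
      exact Nat.modEq_zero_iff_dvd.2 dvd_rfl)))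
    exact hp.one_lt.ne' (Nat.dvd_one.1 h6)

/-- the split primes -/
noncomputable def cS (hb : Base R r) (n : ℕ) : Cls R where
  C := Cl1 r n
  e := nf
  hC := fun p h => ⟨h.1, h.2.1⟩
  low := low_split hb n
  dens := by
    intro l
    have h := split_gen hb n (subset_refl R) (fun x => x = (l.1, ∑ r : R, l.1 r + l.2))
      (fun p => p ∉ R ∧ ((fun q : R => nrp p q), nf p) = l) (by
        intro p hp hpR
        obtain ⟨v, e⟩ := l
        rw [Prod.mk.injEq, Prod.mk.injEq]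
        constructor
        · rintro ⟨-, h1, h2⟩
          refine ⟨h1, ?_⟩
          rw [← h1, h2, Finset.sum_coe_sort R (fun r => nrp p r)]
        · rintro ⟨h1, h2⟩
          refine ⟨hpR, h1, ?_⟩
          rw [← h1] at h2
          simp only at h2
          rw [Finset.sum_coe_sort R (fun r => nrp p r)] at h2
          exact add_left_cancel h2)
    have e1 : Nat.card {x : (R → ZMod 2) × ZMod 2 // x = (l.1, ∑ r : R, l.1 r + l.2)} = 1 :=
      Nat.card_unique
    rw [e1, Fintype.card_coe] at h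
    push_cast at h
    refine h.congr fun X => ?_
    congr

/-- an auxiliary prime -/
theorem exists_aux (hb : Base R r) : ∃ q, q ∉ R ∧ Base (insert q R) r := by
  obtain ⟨q, hq1, hq2, hq3, -⟩ := Q283.XF.exists_prime_sym hb 1 (by norm_num) (fun _ => True)
    (7 + r + ∑ q ∈ R, q)
  have hqR : q ∉ R := by
    intro h
    have := Finset.single_le_sum (f := fun q => q) (fun _ _ => Nat.zero_le _) h
    omega
  refine ⟨q, hqR, hb.hr, hb.hr2, hb.hr7, ?_, ?_⟩
  · intro h
    rcases Finset.mem_insert.1 h with h | h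
    · omega
    · exact hb.hrR h
  · intro x hx
    rcases Finset.mem_insert.1 hx with h | h
    · subst h
      exact ⟨hq2, by omega, by omega⟩
    · exact hb.hR x h

/-- the inert primes -/
noncomputable def cI (hb : Base R r) (n : ℕ) : Cls R where
  C := Cl3 r n
  e := fun p => nrp p (exists_aux hb).choose
  hC := fun p h => ⟨h.1, h.2.1⟩
  low := low_inert hb n
  dens := by
    intro l
    obtain ⟨hqR, hb'⟩ := (exists_aux hb).choose_spec
    set q₀ := (exists_aux hb).choose with hq₀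
    let v₀ : ↥(insert q₀ R) → ZMod 2 := fun x => if h : (x : ℕ) ∈ R then l.1 ⟨x, h⟩ else l.2
    have h := inert_gen hb' n (subset_refl _) (fun v => v = v₀)
      (fun p => p ∉ R ∧ ((fun q : R => nrp p q), nrp p q₀) = l) (by
        intro p hp hpR
        have hpR' : p ∉ R := fun h => hpR (Finset.mem_insert_of_mem h)
        constructor
        · rintro ⟨-, h1⟩
          funext x
          show nrp p x = if h : (x : ℕ) ∈ R then l.1 ⟨x, h⟩ else l.2
          by_cases hx : (x : ℕ) ∈ R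
          · rw [dif_pos hx, ← h1]
          · rw [dif_neg hx, ← h1]
            rcases Finset.mem_insert.1 x.2 with h | h
            · rw [h]
            · exact absurd h hx
        · intro h1
          refine ⟨hpR', Prod.ext ?_ ?_⟩
          · funext q
            have := congrFun h1 ⟨q, Finset.mem_insert_of_mem q.2⟩
            refine this.trans ?_
            show (if h : (q : ℕ) ∈ R then l.1 ⟨q, h⟩ else l.2) = l.1 q
            rw [dif_pos q.2]
          · have := congrFun h1 ⟨q₀, Finset.mem_insert_self _ _⟩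
            refine this.trans ?_
            show (if h : q₀ ∈ R then l.1 ⟨q₀, h⟩ else l.2) = l.2
            rw [dif_neg hqR])
    have e1 : Nat.card {x : ↥(insert q₀ R) → ZMod 2 // x = v₀} = 1 := Nat.card_unique
    rw [e1, Fintype.card_coe, Finset.card_insert_of_notMem hqR] at h
    push_cast at h
    refine h.congr fun X => ?_
    congr

end

end Q155.KG
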