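import Pool.Agent.Q155.KG.Stat

/-!
# Second moments
-/

set_option autoImplicit false
set_option linter.unusedSectionVars false

namespace Q155.KG

open Finset Matrix Filter Topology
open Q155.KT Q283.TW
open Pool.Agent.Q1.PT (avg avg_equiv avg_prod avg_mono avg_const avg_add avg_sub abs_avg avg_hom)

theorem avg_nonneg {α : Type} [Fintype α] {f : α → ℝ} (h : ∀ a, 0 ≤ f a) : 0 ≤ avg f := by
  unfold avg
  exact div_nonneg (Finset.sum_nonneg fun a _ => h a) (Nat.cast_nonneg _)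

theorem avg_sq_le {α : Type} [Fintype α] [Nonempty α] (f : α → ℝ) :
    avg f ^ 2 ≤ avg fun a => f a ^ 2 := by
  unfold avg
  have h0 : (0 : ℝ) < Fintype.card α := by exact_mod_cast Fintype.card_pos
  have h := sq_sum_le_card_mul_sum_sq (s := (univ : Finset α)) (f := f)
  rw [Finset.card_univ] at h
  rw [div_pow, div_le_div_iff₀ (by positivity) h0]
  calc (∑ a, f a) ^ 2 * (Fintype.card α : ℝ) ≤
        ((Fintype.card α : ℝ) * ∑ a, f a ^ 2) * (Fintype.card α : ℝ) :=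
        mul_le_mul_of_nonneg_right h h0.le
    _ = _ := by ring

theorem avg_cmul {α : Type} [Fintype α] (f : α → ℝ) (c : ℝ) :
    avg (fun a => c * f a) = c * avg f := by
  unfold avg
  rw [← Finset.mul_sum, mul_div_assoc]

section
variable {n : Type} [Fintype n] [DecidableEq n]

/-- the size of the kernel, now and after one step -/
noncomputable def mz (N : Matrix n n (ZMod 2)) : ℝ := (kz N : ℝ) + 2 * ap 1 (fun z => (z : ℝ)) N

theorem ap_one_nonneg (N : Matrix n n (ZMod 2)) : 0 ≤ ap 1 (fun z => (z : ℝ)) N := by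
  rw [ap_succ]
  exact avg_nonneg fun _ => Nat.cast_nonneg _

theorem mz_nonneg (N : Matrix n n (ZMod 2)) : 0 ≤ mz N :=
  add_nonneg (Nat.cast_nonneg _) (mul_nonneg zero_le_two (ap_one_nonneg N))

/-- **The distance from the limit.** -/
theorem ap_dist {F : ℕ → ℝ} {ℓ : ℝ} (h : Lm F ℓ) (m : ℕ) {N : Matrix n n (ZMod 2)}
    (hN : N.IsSymm) : |ap m F N - ℓ| ≤ mz N / 2 ^ m := by
  rcases m with _ | a
  · rw [ap_zero]
    obtain ⟨c, hc⟩ := kz_pow N
    have h1 := h 0 c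
    rw [gF_zero, ← hc, pow_zero, div_one] at h1
    have h2 : (2 : ℝ) ^ c = (kz N : ℝ) := by rw [hc]; push_cast; rfl
    rw [h2] at h1
    rw [pow_zero, div_one]
    unfold mz
    have := ap_one_nonneg N
    linarith
  · rw [ap_eq _ a hN]
    have e : (avg fun x : (n → ZMod 2) × ZMod 2 => gF F a (kz (bord N x.1 x.2))) - ℓ =
        avg fun x : (n → ZMod 2) × ZMod 2 => (gF F a (kz (bord N x.1 x.2)) - ℓ) := by
      rw [avg_sub, avg_const]
    rw [e]
    refine (abs_avg _).trans ?_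
    have h1 : ∀ x : (n → ZMod 2) × ZMod 2, |gF F a (kz (bord N x.1 x.2)) - ℓ| ≤
        1 / 2 ^ a * (kz (bord N x.1 x.2) : ℝ) := by
      intro x
      obtain ⟨c, hc⟩ := kz_pow (bord N x.1 x.2)
      rw [hc]
      refine (h a c).trans (le_of_eq ?_)
      push_cast
      ring
    refine (avg_mono h1).trans ?_
    rw [avg_cmul]
    have e2 : (avg fun x : (n → ZMod 2) × ZMod 2 => (kz (bord N x.1 x.2) : ℝ)) =
        ap 1 (fun z => (z : ℝ)) N := rfl
    rw [e2]
    unfold mz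
    rw [pow_succ (2 : ℝ) a]
    have h3 : (0 : ℝ) ≤ (kz N : ℝ) := Nat.cast_nonneg _
    have h4 : (0 : ℝ) < 2 ^ a := by positivity
    rw [le_div_iff₀ (by positivity)]
    have e3 : 1 / (2 : ℝ) ^ a * ap 1 (fun z => (z : ℝ)) N * (2 ^ a * 2) =
        2 * ap 1 (fun z => (z : ℝ)) N := by
      field_simp
    rw [e3]
    linarith

theorem mz_sq (N : Matrix n n (ZMod 2)) :
    mz N ^ 2 ≤ 2 * ap 0 (fun z => (z : ℝ) ^ 2) N + 8 * ap 1 (fun z => (z : ℝ) ^ 2) N := by
  have h1 : ap 1 (fun z => (z : ℝ)) N ^ 2 ≤ ap 1 (fun z => (z : ℝ) ^ 2) N := by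
    rw [ap_succ, ap_succ]
    exact avg_sq_le _
  rw [ap_zero]
  unfold mz
  nlinarith [sq_nonneg ((kz N : ℝ) - 2 * ap 1 (fun z => (z : ℝ)) N)]

theorem ap_sq_le (w : ℕ) {N : Matrix n n (ZMod 2)} (hN : N.IsSymm) :
    ap w (fun z => (z : ℝ) ^ 2) N ≤ 40 * 4 ^ Fintype.card n := by
  rcases w with _ | w
  · rw [ap_zero]
    have h1 : (kz N : ℝ) ≤ 2 ^ Fintype.card n := by exact_mod_cast kz_le N
    have h2 : (kz N : ℝ) ^ 2 ≤ (2 ^ Fintype.card n) ^ 2 := pow_le_pow_left₀ (Nat.cast_nonneg _) h1 2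
    have e : ((2 : ℝ) ^ Fintype.card n) ^ 2 = 4 ^ Fintype.card n := by
      rw [← pow_mul, mul_comm, pow_mul]
      norm_num
    rw [e] at h2
    have : (0 : ℝ) ≤ 4 ^ Fintype.card n := by positivity
    linarith
  · rw [ap_eq _ w hN]
    have h1 : ∀ x : (n → ZMod 2) × ZMod 2, gF (fun z => (z : ℝ) ^ 2) w (kz (bord N x.1 x.2)) ≤
        40 * 4 ^ Fintype.card n := by
      intro x
      obtain ⟨c, hc⟩ := kz_pow (bord N x.1 x.2)
      have h2 := kz_le (bord N x.1 x.2)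
      rw [Fintype.card_sum, Fintype.card_unit] at h2
      rw [hc] at h2 ⊢
      refine (gF_sq_le w c).trans ?_
      have h3 : (2 : ℝ) ^ c ≤ 2 ^ (Fintype.card n + 1) := by exact_mod_cast h2
      have h4 : ((2 : ℝ) ^ c) ^ 2 ≤ (2 ^ (Fintype.card n + 1)) ^ 2 :=
        pow_le_pow_left₀ (by positivity) h3 2
      have e : ((2 : ℝ) ^ (Fintype.card n + 1)) ^ 2 = 4 * 4 ^ Fintype.card n := by
        rw [← pow_mul, mul_comm, pow_mul, pow_succ]
        norm_num
        ring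
      rw [e] at h4
      linarith
    calc _ ≤ avg (fun _ : (n → ZMod 2) × ZMod 2 => (40 : ℝ) * 4 ^ Fintype.card n) := avg_mono h1
      _ = _ := avg_const _

end

end Q155.KG
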