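import Pool.Agent.Q283.XF.MatD
import Pool.Agent.Q155.KT.Lln
import Pool.Agent.Q155.KG.Mom

/-!
# The matrices of the twists by the divisors, with active and passive primes
-/

set_option autoImplicit false
set_option linter.unusedSectionVars false
set_option linter.style.haveILetI false

namespace Q155.KG

open Finset Matrix
open Q155.KT Q283.TW
open Q283.XF (nf)
open Pool.Agent.Y698.SG (mat nq n4)
open scoped Classical

/-- the base: the passive and the active primes -/
abbrev Bs : Type := Finset ℕ × Finset ℕ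

/-- all the primes are `1` modulo `4` -/
def Vd (D : Bs) : Prop := (∀ q ∈ D.1 ∪ D.2, q.Prime ∧ q % 4 = 1) ∧ Disjoint D.1 D.2

/-- the matrix in terms of the symbols; `V` are the active indices, `U` all of them -/
noncomputable def big (D : Bs) {k : ℕ} (V U : Finset (Fin k)) (v : Fin k → ℕ → ZMod 2)
    (e : Fin k → ZMod 2) (a : Fin k → Fin k → ZMod 2) : Matrix (D.2 ⊕ V) (D.2 ⊕ V) (ZMod 2) :=
  Matrix.fromBlocks (mat D.1 D.2 + Matrix.diagonal fun r : D.2 => ∑ i ∈ U, v i r)
    (Matrix.of fun r i => v i r) (Matrix.of fun i r => v i r)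
    (Matrix.of fun i j => if i = j then
      ∑ r ∈ D.1 ∪ D.2, v i r + ∑ l ∈ U.erase i, a i l + e i else a i j)

theorem nrp_sym {p q : ℕ} (hp : p.Prime ∧ p % 4 = 1) (hq : q.Prime ∧ q % 4 = 1) :
    nrp p q = nrp q p := by
  haveI : Fact p.Prime := ⟨hp.1⟩
  haveI : Fact q.Prime := ⟨hq.1⟩
  have h1 := hp.2
  have h2 := hq.2
  have := ZMod.exists_sq_eq_prime_iff_of_mod_four_eq_one (p := p) (q := q) (by omega) (by omega)
  unfold nrp
  by_cases h : IsSquare (q : ZMod p)
  · rw [if_pos h, if_pos (this.1 h)]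
  · rw [if_neg h, if_neg (fun h' => h (this.2 h'))]

theorem mat_apply' (Q P : Finset ℕ) (i j : P) : mat Q P i j = if i = j then
    nf i + ∑ q ∈ Q, nrp i q + ∑ p ∈ P, nrp i p else nrp i j := by
  unfold mat
  rw [Matrix.of_apply]
  by_cases h : i = j
  · rw [if_pos h, if_pos h]
    rw [← Finset.add_sum_erase P (fun p => nrp i p) i.2, nrp_self, zero_add]
    rfl
  · rw [if_neg h, if_neg h]
    rfl

section
variable {D : Bs} {k : ℕ} {p : Fin k → ℕ}

/-- the equivalence of the index sets -/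
noncomputable def eqvU (P : Finset ℕ) (V : Finset (Fin k)) (hinj : Function.Injective p)
    (hP : ∀ i, p i ∉ P) : P ⊕ V ≃ ↥(P ∪ V.image p) := by
  refine Equiv.ofBijective (Sum.elim
    (fun q : P => (⟨(q : ℕ), Finset.mem_union_left _ q.2⟩ : ↥(P ∪ V.image p)))
    (fun i : V => ⟨p i, Finset.mem_union_right _ (Finset.mem_image_of_mem p i.2)⟩)) ⟨?_, ?_⟩
  · rintro (q | q) (q' | q') h
    · simp only [Sum.elim_inl, Subtype.mk.injEq] at h
      rw [Subtype.ext h]
    · simp only [Sum.elim_inl, Sum.elim_inr, Subtype.mk.injEq] at h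
      exact absurd (h ▸ q.2) (hP _)
    · simp only [Sum.elim_inl, Sum.elim_inr, Subtype.mk.injEq] at h
      exact absurd (h ▸ q'.2) (hP _)
    · simp only [Sum.elim_inr, Subtype.mk.injEq] at h
      rw [Subtype.ext (hinj h)]
  · rintro ⟨x, hx⟩
    rcases Finset.mem_union.1 hx with h | h
    · exact ⟨Sum.inl ⟨x, h⟩, rfl⟩
    · obtain ⟨i, hi, rfl⟩ := Finset.mem_image.1 h
      exact ⟨Sum.inr ⟨i, hi⟩, rfl⟩

theorem kz_big (hD : Vd D) (hp : ∀ i, (p i).Prime ∧ p i % 4 = 1) (hinj : Function.Injective p)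
    (hT : ∀ i, p i ∉ D.1 ∪ D.2) (A U : Finset (Fin k)) :
    kz (mat (D.1 ∪ (U \ A).image p) (D.2 ∪ (U ∩ A).image p)) =
      kz (big D (U ∩ A) U (fun i r => nrp (p i) r) (fun i => nf (p i))
        (fun i j => nrp (p i) (p j))) := by
  have hP : ∀ i, p i ∉ D.2 := fun i h => hT i (Finset.mem_union_right _ h)
  have hQ : ∀ i, p i ∉ D.1 := fun i h => hT i (Finset.mem_union_left _ h)
  rw [← kz_submatrix (eqvU D.2 (U ∩ A) hinj hP) (mat (D.1 ∪ (U \ A).image p)
    (D.2 ∪ (U ∩ A).image p))]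
  congr 1
  have e1 : ∀ q : D.2, ((eqvU D.2 (U ∩ A) hinj hP (Sum.inl q) :
    ↥(D.2 ∪ (U ∩ A).image p)) : ℕ) = q := fun _ => rfl
  have e2 : ∀ i : ↥(U ∩ A), ((eqvU D.2 (U ∩ A) hinj hP (Sum.inr i) :
    ↥(D.2 ∪ (U ∩ A).image p)) : ℕ) = p i := fun _ => rfl
  have d1 : Disjoint D.1 ((U \ A).image p) := by
    rw [Finset.disjoint_left]
    intro q hq hq'
    obtain ⟨i, -, rfl⟩ := Finset.mem_image.1 hq'
    exact hQ i hq
  have d2 : Disjoint D.2 ((U ∩ A).image p) := by
    rw [Finset.disjoint_left]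
    intro q hq hq'
    obtain ⟨i, -, rfl⟩ := Finset.mem_image.1 hq'
    exact hP i hq
  have hsum : ∀ n : ℕ, ∑ r ∈ D.1 ∪ (U \ A).image p, nrp n r + ∑ r ∈ D.2 ∪ (U ∩ A).image p, nrp n r =
      ∑ r ∈ D.1, nrp n r + ∑ r ∈ D.2, nrp n r + ∑ i ∈ U, nrp n (p i) := by
    intro n
    rw [Finset.sum_union d1, Finset.sum_union d2, Finset.sum_image fun a _ b _ hab => hinj hab,
      Finset.sum_image fun a _ b _ hab => hinj hab]
    have h1 := Finset.sum_inter_add_sum_sdiff U A (fun i => nrp n (p i))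
    rw [← h1]
    ring
  have hPc : ∀ i : D.2, (i : ℕ).Prime ∧ (i : ℕ) % 4 = 1 := fun i =>
    hD.1 i (Finset.mem_union_right _ i.2)
  ext i j
  rw [Matrix.submatrix_apply, mat_apply']
  unfold big
  rcases i with i | i <;> rcases j with j | j
  · rw [Matrix.fromBlocks_apply₁₁, Matrix.add_apply, Matrix.diagonal_apply, mat_apply', e1, e1]
    by_cases hij : i = j
    · subst hij
      rw [if_pos rfl, if_pos rfl, if_pos rfl, add_assoc, hsum]
      have : ∑ l ∈ U, nrp (i : ℕ) (p l) = ∑ l ∈ U, nrp (p l) i :=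
        Finset.sum_congr rfl fun l _ => nrp_sym (hPc i) (hp l)
      rw [this]
      ring
    · rw [if_neg (fun h' => hij (Sum.inl_injective ((eqvU D.2 (U ∩ A) hinj hP).injective h'))),
        if_neg hij, if_neg hij, add_zero]
  · rw [Matrix.fromBlocks_apply₁₂, Matrix.of_apply, e1, e2, if_neg]
    · exact nrp_sym (hPc i) (hp j)
    · intro h'
      exact absurd ((eqvU D.2 (U ∩ A) hinj hP).injective h') (by simp)
  · rw [Matrix.fromBlocks_apply₂₁, Matrix.of_apply, e1, e2, if_neg]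
    intro h'
    exact absurd ((eqvU D.2 (U ∩ A) hinj hP).injective h') (by simp)
  · rw [Matrix.fromBlocks_apply₂₂, Matrix.of_apply, e2, e2]
    by_cases hij : i = j
    · subst hij
      have hiU : (i : Fin k) ∈ U := (Finset.mem_inter.1 i.2).1
      rw [if_pos rfl, if_pos rfl, add_assoc, hsum, Finset.sum_union hD.2,
        ← Finset.add_sum_erase U (fun l => nrp (p i) (p l)) hiU, nrp_self, zero_add]
      ring
    · rw [if_neg (fun h' => hij (Sum.inr_injective ((eqvU D.2 (U ∩ A) hinj hP).injective h'))),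
        if_neg hij]

end

end Q155.KG
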