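import Pool.Agent.Q155.KT.Pat
import Pool.Agent.Q155.KG.Cls
import Pool.Agent.Q155.KG.Mat

/-!
# Tuples of primes of given classes with given labels and given symbols
-/

set_option autoImplicit false
set_option linter.unusedSectionVars false

namespace Q155.KG

open Finset Filter Topology
open Pool.Agent.Y703.CQ (nr sg prs HB)
open Q155.KT (Lb Dta Sy sy syEquiv sy_of Pr kap bil_box log_pow_small nr_eq card_dta card_lb nrp_self)
open Q283.TW
open Q283.XF (nf)
open scoped Classical

section
variable {R : Finset ℕ}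

/-- the label -/
noncomputable def lb (K : Cls R) (p : ℕ) : Lb R := ((fun q : R => nrp p q), K.e p)

/-- the primes of the class up to `X` -/
noncomputable def cs (K : Cls R) (X : ℕ) : Finset ℕ := (range (X + 1)).filter fun p => K.C p

/-- the primes of the class up to `X` with a given label, not in `R` -/
noncomputable def clL (K : Cls R) (l : Lb R) (X : ℕ) : Finset ℕ :=
  (range (X + 1)).filter fun p => K.C p ∧ (p ∉ R ∧ lb K p = l)

theorem mem_cs {K : Cls R} {X p : ℕ} : p ∈ cs K X ↔ p ≤ X ∧ K.C p := by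
  unfold cs
  rw [Finset.mem_filter, Finset.mem_range, Nat.lt_succ_iff]

theorem mem_clL {K : Cls R} {l : Lb R} {X p : ℕ} :
    p ∈ clL K l X ↔ p ∈ cs K X ∧ p ∉ R ∧ lb K p = l := by
  rw [mem_cs]
  unfold clL
  rw [Finset.mem_filter, Finset.mem_range, Nat.lt_succ_iff]
  tauto

theorem cs_bound {K : Cls R} {X p : ℕ} (h : p ∈ cs K X) : p.Prime ∧ p ≠ 2 ∧ p ≤ X := by
  obtain ⟨h1, h2⟩ := mem_cs.1 h
  obtain ⟨h3, h4⟩ := K.hC p h2
  exact ⟨h3, by omega, h1⟩

theorem card_cs_le (K : Cls R) (X : ℕ) : (cs K X).card ≤ X := by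
  have h4 : cs K X ⊆ Finset.Icc 1 X := by
    intro p hp
    obtain ⟨a1, -, a3⟩ := cs_bound hp
    exact Finset.mem_Icc.2 ⟨a1.one_lt.le, a3⟩
  have h5 := Finset.card_le_card h4
  rwa [Nat.card_Icc, Nat.add_sub_cancel] at h5

theorem cs_ratio (K : Cls R) : ∃ c : ℝ, 0 < c ∧ ∀ᶠ X : ℕ in atTop,
    0 < ((cs K X).card : ℝ) ∧ (X : ℝ) / ((cs K X).card : ℝ) ≤ Real.log X / c := by
  obtain ⟨c, Y₀, hc, h⟩ := K.low
  refine ⟨c, hc, ?_⟩
  filter_upwards [eventually_ge_atTop (max Y₀ 3)] with X hX
  have hX3 : (3 : ℝ) ≤ X := by exact_mod_cast (le_max_right _ _).trans hX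
  have hX0 : (0 : ℝ) < X := by linarith
  have hl : 0 < Real.log X := Real.log_pos (by linarith)
  have h1 := h X ((le_max_left _ _).trans hX)
  have h2 : 0 < c * X / Real.log X := by positivity
  have h3 : 0 < ((cs K X).card : ℝ) := lt_of_lt_of_le h2 h1
  refine ⟨h3, ?_⟩
  rw [div_le_iff₀ h3]
  calc (X : ℝ) = Real.log X / c * (c * X / Real.log X) := by field_simp
    _ ≤ _ := mul_le_mul_of_nonneg_left h1 (by positivity)

theorem cs_tendsto (K : Cls R) : Tendsto (fun X : ℕ => ((cs K X).card : ℝ)) atTop atTop := by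
  rw [tendsto_atTop]
  intro B
  obtain ⟨c, Y₀, hc, h⟩ := K.low
  have h1 : Tendsto (fun X : ℕ => (X : ℝ) / Real.log X) atTop atTop := by
    have h2 : Tendsto (fun x : ℝ => Real.log x / x) atTop (𝓝 0) :=
      Real.isLittleO_log_id_atTop.tendsto_div_nhds_zero
    have h3 : Tendsto (fun x : ℝ => Real.log x / x) atTop (𝓝[>] 0) := by
      refine tendsto_nhdsWithin_iff.2 ⟨h2, ?_⟩
      filter_upwards [eventually_gt_atTop 1] with x hx
      exact div_pos (Real.log_pos hx) (by linarith)
    have h4 := (tendsto_inv_nhdsGT_zero.comp h3).comp (tendsto_natCast_atTop_atTop (R := ℝ))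
    refine h4.congr fun X => ?_
    simp only [Function.comp_apply, inv_div]
  filter_upwards [(h1.const_mul_atTop hc).eventually_ge_atTop B, eventually_ge_atTop Y₀]
    with X hX hX'
  have := h X hX'
  rw [mul_div_assoc] at this
  exact hX.trans this

variable {k : ℕ} (K : Fin k → Cls R)

/-- the number of the tuples -/
noncomputable def ct (X : ℕ) : ℝ := ∏ i, ((cs (K i) X).card : ℝ)

theorem ct_nonneg (X : ℕ) : 0 ≤ ct K X := Finset.prod_nonneg fun _ _ => Nat.cast_nonneg _

theorem err_small : Tendsto (fun X : ℕ => kap X * (X : ℝ) ^ k / ct K X) atTop (𝓝 0) := by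
  choose c hc h using fun i => cs_ratio (K i)
  have h0 : Tendsto (fun X : ℕ => kap X * (Real.log X / 1) ^ k * (∏ i, (c i)⁻¹)) atTop (𝓝 0) := by
    have := (log_pow_small 1 zero_lt_one k).mul_const (∏ i, (c i)⁻¹)
    rwa [zero_mul] at this
  have hk : ∀ X : ℕ, 0 ≤ kap X := fun X => by unfold kap; positivity
  refine squeeze_zero' (Filter.Eventually.of_forall fun X =>
    div_nonneg (mul_nonneg (hk X) (by positivity)) (ct_nonneg K X)) ?_ h0
  filter_upwards [Filter.eventually_all.2 h] with X hX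
  rw [mul_div_assoc, mul_assoc]
  refine mul_le_mul_of_nonneg_left ?_ (hk X)
  have e1 : (X : ℝ) ^ k / ct K X = ∏ i, ((X : ℝ) / ((cs (K i) X).card : ℝ)) := by
    rw [Finset.prod_div_distrib, Finset.prod_const, Finset.card_univ, Fintype.card_fin]
    rfl
  have e2 : (Real.log X / 1) ^ k * (∏ i, (c i)⁻¹) = ∏ i, (Real.log X / c i) := by
    simp_rw [div_eq_mul_inv]
    rw [Finset.prod_mul_distrib, Finset.prod_const, Finset.card_univ, Fintype.card_fin, inv_one,
      mul_one]
  rw [e1, e2]
  exact Finset.prod_le_prod (fun i _ => by positivity) fun i _ => (hX i).2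

/-- the number of the tuples with given labels whose symbols satisfy `Q` -/
noncomputable def cntL (Q : (Pr k → ZMod 2) → Prop) (l : Fin k → Lb R) (X : ℕ) : ℕ :=
  ((Fintype.piFinset fun i => clL (K i) (l i) X).filter fun p =>
    Q fun e => nr (p e.1.1) (p e.1.2)).card

theorem HB_box (l : Fin k → Lb R) {X : ℕ} (hX : 1 ≤ X) :
    HB (univ : Finset (Fin k)) (fun i => clL (K i) (l i) X) (fun _ => X) (kap X) := by
  intro i j _ _ c d hc hd
  exact bil_box hX (fun p hp => cs_bound (mem_clL.1 hp).1) (fun p hp => cs_bound (mem_clL.1 hp).1)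
    c d hc hd

theorem one_label (Q : (Pr k → ZMod 2) → Prop) (l : Fin k → Lb R) :
    Tendsto (fun X : ℕ => (cntL K Q l X : ℝ) / ct K X) atTop
      (𝓝 (((univ.filter Q).card : ℝ) / 2 ^ (Pr k).card * ∏ _i : Fin k, (1 / 2 ^ (R.card + 1)))) := by
  have hmain : Tendsto (fun X : ℕ => ((univ.filter Q).card : ℝ) / 2 ^ (Pr k).card *
      ∏ i : Fin k, (((clL (K i) (l i) X).card : ℝ) / ((cs (K i) X).card : ℝ))) atTop
      (𝓝 (((univ.filter Q).card : ℝ) / 2 ^ (Pr k).card * ∏ _i : Fin k, (1 / 2 ^ (R.card + 1)))) :=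
    (tendsto_finsetProd _ fun i _ => (K i).dens (l i)).const_mul _
  have herr : Tendsto (fun X : ℕ => (2 : ℝ) ^ (Pr k).card *
      (kap X * (X : ℝ) ^ k / ct K X)) atTop (𝓝 0) := by
    have := (err_small K).const_mul ((2 : ℝ) ^ (Pr k).card)
    rwa [mul_zero] at this
  have hdiff : Tendsto (fun X : ℕ => (cntL K Q l X : ℝ) / ct K X -
      ((univ.filter Q).card : ℝ) / 2 ^ (Pr k).card *
      ∏ i : Fin k, (((clL (K i) (l i) X).card : ℝ) / ((cs (K i) X).card : ℝ))) atTop (𝓝 0) := by
    refine squeeze_zero_norm' ?_ herr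
    filter_upwards [eventually_ge_atTop 1] with X hX
    have h1 := Pool.Agent.Y356.CQ.t_EQ (Fin k) univ (fun i => clL (K i) (l i) X) (fun _ => X) (kap X)
      (by unfold kap; positivity)
      (fun i => (Finset.card_le_card (fun p hp => (mem_clL.1 hp).1)).trans (card_cs_le (K i) X))
      (HB_box K l hX) Q
    rw [Finset.prod_const, Finset.card_univ, Fintype.card_fin] at h1
    have h2 := ct_nonneg K X
    rw [Finset.prod_div_distrib]
    change ‖_ / ct K X - _ * (_ / ct K X)‖ ≤ _
    rw [← mul_div_assoc, ← sub_div, Real.norm_eq_abs, abs_div, abs_of_nonneg h2, ← mul_div_assoc]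
    refine div_le_div_of_nonneg_right ?_ h2
    unfold cntL
    exact h1
  have := hdiff.add hmain
  rw [zero_add] at this
  refine this.congr fun X => ?_
  ring

/-- the tuples of primes up to `X` of the classes -/
noncomputable def tup (X : ℕ) : Finset (Fin k → ℕ) := Fintype.piFinset fun i : Fin k => cs (K i) X

theorem card_tup (X : ℕ) : ((tup K X).card : ℝ) = ct K X := by
  unfold tup ct
  rw [Fintype.card_piFinset]
  push_cast
  rfl

theorem mem_tup {X : ℕ} {p : Fin k → ℕ} : p ∈ tup K X ↔ ∀ i, p i ≤ X ∧ (K i).C (p i) := by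
  unfold tup
  rw [Fintype.mem_piFinset]
  exact forall_congr' fun i => mem_cs

theorem count_all (Q : (Fin k → Lb R) → (Pr k → ZMod 2) → Prop) :
    Tendsto (fun X : ℕ => (((tup K X).filter fun p => (∀ i, p i ∉ R) ∧
        Q (fun i => lb (K i) (p i)) (fun e => nr (p e.1.1) (p e.1.2))).card : ℝ) / ct K X) atTop
      (𝓝 ((Nat.card {x : (Fin k → Lb R) × (Pr k → ZMod 2) // Q x.1 x.2} : ℝ) /
        2 ^ (k * (R.card + 1) + (Pr k).card))) := by
  have h1 : ∀ X, ((tup K X).filter fun p => (∀ i, p i ∉ R) ∧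
        Q (fun i => lb (K i) (p i)) (fun e => nr (p e.1.1) (p e.1.2))).card =
      ∑ l : Fin k → Lb R, cntL K (Q l) l X := by
    intro X
    rw [Finset.card_eq_sum_card_fiberwise (f := fun (p : Fin k → ℕ) (i : Fin k) => lb (K i) (p i))
      (t := univ) (fun _ _ => Finset.mem_coe.2 (Finset.mem_univ _))]
    refine Finset.sum_congr rfl fun l _ => ?_
    unfold cntL
    congr 1
    ext p
    simp only [Finset.mem_filter, Fintype.mem_piFinset]
    unfold tup
    rw [Fintype.mem_piFinset]
    constructor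
    · rintro ⟨⟨a1, a2, a3⟩, a4⟩
      refine ⟨fun i => mem_clL.2 ⟨a1 i, a2 i, congrFun a4 i⟩, ?_⟩
      rw [a4] at a3
      exact a3
    · rintro ⟨a1, a2⟩
      have a4 : (fun i => lb (K i) (p i)) = l := funext fun i => (mem_clL.1 (a1 i)).2.2
      refine ⟨⟨fun i => (mem_clL.1 (a1 i)).1, fun i => (mem_clL.1 (a1 i)).2.1, ?_⟩, a4⟩
      rw [a4]
      exact a2
  have h2 : Tendsto (fun X : ℕ => ∑ l : Fin k → Lb R,
      ((cntL K (Q l) l X : ℝ) / ct K X)) atTop
      (𝓝 (∑ l : Fin k → Lb R, (((univ.filter (Q l)).card : ℝ) / 2 ^ (Pr k).card *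
        ∏ _i : Fin k, (1 / 2 ^ (R.card + 1))))) :=
    tendsto_finsetSum _ fun l _ => one_label K (Q l) l
  have h3 : (∑ l : Fin k → Lb R, (((univ.filter (Q l)).card : ℝ) / 2 ^ (Pr k).card *
        ∏ _i : Fin k, (1 / 2 ^ (R.card + 1) : ℝ))) =
      (Nat.card {x : (Fin k → Lb R) × (Pr k → ZMod 2) // Q x.1 x.2} : ℝ) /
        2 ^ (k * (R.card + 1) + (Pr k).card) := by
    have e1 : Nat.card {x : (Fin k → Lb R) × (Pr k → ZMod 2) // Q x.1 x.2} =
        ∑ l : Fin k → Lb R, (univ.filter (Q l)).card := by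
      rw [Nat.card_congr (Equiv.subtypeProdEquivSigmaSubtype Q), Nat.card_sigma]
      refine Finset.sum_congr rfl fun l _ => ?_
      rw [Nat.card_eq_fintype_card, Fintype.card_subtype]
    rw [e1, Finset.prod_const, Finset.card_univ, Fintype.card_fin, ← Finset.sum_mul,
      ← Finset.sum_div]
    push_cast
    rw [one_div, inv_pow, ← pow_mul, pow_add, mul_comm (R.card + 1) k]
    field_simp
  rw [h3] at h2
  refine h2.congr fun X => ?_
  rw [h1 X, ← Finset.sum_div]
  push_cast
  rfl

theorem eq_coord (X : ℕ) {i j : Fin k} (hij : i ≠ j) :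
    (((tup K X).filter fun p => p i = p j).card : ℝ) ≤
      ∏ l ∈ univ.erase i, ((cs (K l) X).card : ℝ) := by
  have h1 : (Fintype.piFinset fun l : {x : Fin k // x ≠ i} => cs (K l) X).card =
      ∏ l ∈ univ.erase i, (cs (K l) X).card := by
    rw [Fintype.card_piFinset]
    refine (Finset.prod_subtype (univ.erase i) (p := fun x => x ≠ i) (fun x => ?_)
      (fun l => (cs (K l) X).card)).symm
    simp
  have h2 : ((tup K X).filter fun p => p i = p j).card ≤
      (Fintype.piFinset fun l : {x : Fin k // x ≠ i} => cs (K l) X).card := by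
    refine Finset.card_le_card_of_injOn (fun p (x : {x : Fin k // x ≠ i}) => p x) ?_ ?_
    · intro p hp
      rw [Finset.mem_coe, Finset.mem_filter] at hp
      rw [Finset.mem_coe, Fintype.mem_piFinset]
      intro x
      have := hp.1
      unfold tup at this
      rw [Fintype.mem_piFinset] at this
      exact this x
    · intro p hp q hq h
      rw [Finset.mem_coe, Finset.mem_filter] at hp hq
      have hx : ∀ x : Fin k, x ≠ i → p x = q x := fun x hxi => congrFun h ⟨x, hxi⟩
      funext x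
      by_cases hxi : x = i
      · subst hxi
        rw [hp.2, hq.2]
        exact hx j hij.symm
      · exact hx x hxi
  rw [h1] at h2
  exact_mod_cast h2

theorem nonInj_card (X : ℕ) : (((tup K X).filter fun p => ¬ Function.Injective p).card : ℝ) ≤
    ∑ e ∈ (univ : Finset (Fin k × Fin k)).filter (fun e => e.1 ≠ e.2),
      ∏ l ∈ univ.erase e.1, ((cs (K l) X).card : ℝ) := by
  have h1 : ((tup K X).filter fun p => ¬ Function.Injective p) ⊆
      ((univ : Finset (Fin k × Fin k)).filter fun e => e.1 ≠ e.2).biUnion fun e =>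
        (tup K X).filter fun p => p e.1 = p e.2 := by
    intro p hp
    rw [Finset.mem_filter] at hp
    obtain ⟨hp1, hp2⟩ := hp
    unfold Function.Injective at hp2
    push Not at hp2
    obtain ⟨a, b, hab, hne⟩ := hp2
    rw [Finset.mem_biUnion]
    exact ⟨(a, b), Finset.mem_filter.2 ⟨Finset.mem_univ _, hne⟩, Finset.mem_filter.2 ⟨hp1, hab⟩⟩
  have h2 : (((tup K X).filter fun p => ¬ Function.Injective p).card : ℝ) ≤
      ∑ e ∈ (univ : Finset (Fin k × Fin k)).filter (fun e => e.1 ≠ e.2),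
        (((tup K X).filter fun p => p e.1 = p e.2).card : ℝ) := by
    exact_mod_cast (Finset.card_le_card h1).trans Finset.card_biUnion_le
  refine h2.trans (Finset.sum_le_sum fun e he => ?_)
  exact eq_coord K X (Finset.mem_filter.1 he).2

theorem nonInj_small : Tendsto (fun X : ℕ =>
    (((tup K X).filter fun p => ¬ Function.Injective p).card : ℝ) / ct K X) atTop (𝓝 0) := by
  have h : Tendsto (fun X : ℕ => ∑ e ∈ (univ : Finset (Fin k × Fin k)).filter (fun e => e.1 ≠ e.2),
      (1 : ℝ) / ((cs (K e.1) X).card : ℝ)) atTop (𝓝 0) := by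
    have := tendsto_finsetSum ((univ : Finset (Fin k × Fin k)).filter (fun e => e.1 ≠ e.2))
      (fun e _ => Tendsto.div_atTop (tendsto_const_nhds (x := (1 : ℝ))) (cs_tendsto (K e.1)))
    rwa [Finset.sum_const_zero] at this
  refine squeeze_zero' (Filter.Eventually.of_forall fun X =>
    div_nonneg (Nat.cast_nonneg _) (ct_nonneg K X)) ?_ h
  filter_upwards [Filter.eventually_all.2 fun i => (cs_tendsto (K i)).eventually_gt_atTop 0]
    with X hX
  have h0 : 0 < ct K X := Finset.prod_pos fun i _ => hX i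
  refine (div_le_div_of_nonneg_right (nonInj_card K X) h0.le).trans (le_of_eq ?_)
  rw [Finset.sum_div]
  refine Finset.sum_congr rfl fun e _ => ?_
  rw [div_eq_div_iff h0.ne' (hX e.1).ne', one_mul]
  unfold ct
  rw [← Finset.mul_prod_erase univ (fun l => ((cs (K l) X).card : ℝ)) (Finset.mem_univ e.1),
    mul_comm]

/-- **The proportion of the tuples of different primes with given labels and symbols.** -/
theorem count_inj (Q : (Fin k → Lb R) → (Pr k → ZMod 2) → Prop) (T : (Fin k → ℕ) → Prop)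
    (hT : ∀ p : Fin k → ℕ, (∀ i, (K i).C (p i)) → (T p ↔ Function.Injective p ∧ (∀ i, p i ∉ R) ∧
        Q (fun i => lb (K i) (p i)) (fun e => nrp (p e.1.1) (p e.1.2)))) :
    Tendsto (fun X : ℕ => (((tup K X).filter fun p => T p).card : ℝ) / ct K X) atTop
      (𝓝 ((Nat.card {x : (Fin k → Lb R) × (Pr k → ZMod 2) // Q x.1 x.2} : ℝ) /
        2 ^ (k * (R.card + 1) + (Pr k).card))) := by
  have h1 := count_all K Q
  have h2 := nonInj_small K
  have hd : Tendsto (fun X : ℕ => (((tup K X).filter fun p => (∀ i, p i ∉ R) ∧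
        Q (fun i => lb (K i) (p i)) (fun e => nr (p e.1.1) (p e.1.2))).card : ℝ) / ct K X -
      (((tup K X).filter fun p => T p).card : ℝ) / ct K X) atTop (𝓝 0) := by
    refine squeeze_zero (fun X => ?_) (fun X => ?_) h2
    · rw [← sub_div]
      refine div_nonneg ?_ (ct_nonneg K X)
      rw [sub_nonneg, Nat.cast_le]
      refine Finset.card_le_card fun p hp => ?_
      obtain ⟨a1, a2⟩ := Finset.mem_filter.1 hp
      refine Finset.mem_filter.2 ⟨a1, ?_⟩
      have := ((hT p fun i => ((mem_tup K).1 a1 i).2).1 a2).2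
      simp only [nr_eq]
      exact this
    · rw [← sub_div]
      refine div_le_div_of_nonneg_right ?_ (ct_nonneg K X)
      rw [sub_le_iff_le_add]
      have : ((tup K X).filter fun p => (∀ i, p i ∉ R) ∧
          Q (fun i => lb (K i) (p i)) (fun e => nr (p e.1.1) (p e.1.2))) ⊆
          ((tup K X).filter fun p => ¬ Function.Injective p) ∪ ((tup K X).filter fun p => T p) := by
        intro p hp
        obtain ⟨a1, a2⟩ := Finset.mem_filter.1 hp
        rw [Finset.mem_union, Finset.mem_filter, Finset.mem_filter]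
        by_cases hi : Function.Injective p
        · right
          refine ⟨a1, (hT p fun i => ((mem_tup K).1 a1 i).2).2 ⟨hi, ?_⟩⟩
          simp only [nr_eq] at a2
          exact a2
        · left
          exact ⟨a1, hi⟩
      exact_mod_cast (Finset.card_le_card this).trans (Finset.card_union_le _ _)
  have h3 := h1.sub hd
  rw [sub_zero] at h3
  refine h3.congr fun X => ?_
  ring

/-- the table of a tuple -/
noncomputable def tab (p : Fin k → ℕ) : Dta R k :=
  (fun i => lb (K i) (p i), sy fun e : Pr k => nrp (p e.1.1) (p e.1.2))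

theorem tab_snd {p : Fin k → ℕ} (hp : ∀ i, (p i).Prime ∧ p i % 4 = 1) :
    (tab K p).2.1 = fun i j => nrp (p i) (p j) :=
  sy_of (fun i j => nrp (p i) (p j)) (fun i j => nrp_sym (hp i) (hp j)) fun _ => nrp_self _

/-- **The law of the table.** -/
theorem table_law (W : Dta R k → Prop) (T : (Fin k → ℕ) → Prop)
    (hT : ∀ p : Fin k → ℕ, (∀ i, (K i).C (p i)) → (T p ↔ Function.Injective p ∧
      (∀ i, p i ∉ R) ∧ W (tab K p))) :
    Tendsto (fun X : ℕ => (((tup K X).filter fun p => T p).card : ℝ) / ct K X) atTop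
      (𝓝 ((Nat.card {x : Dta R k // W x} : ℝ) / (Nat.card (Dta R k) : ℝ))) := by
  have h1 := count_inj K (fun l α => W (l, sy α)) T (fun p hp => hT p hp)
  have h2 : (Nat.card {x : (Fin k → Lb R) × (Pr k → ZMod 2) // W (x.1, sy x.2)} : ℝ) =
      (Nat.card {x : Dta R k // W x} : ℝ) := by
    congr 1
    refine Nat.card_congr (Equiv.subtypeEquiv ((Equiv.refl _).prodCongr (syEquiv k)) ?_)
    intro x
    rfl
  rw [h2] at h1
  have h3 : (Nat.card (Dta R k) : ℝ) = 2 ^ (k * (R.card + 1) + (Pr k).card) := by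
    rw [card_dta]
    push_cast
    rfl
  rw [h3]
  exact h1

end

end Q155.KG
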