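import Pool.Agent.Q155.KG.Step

/-!
# The variance
-/

set_option autoImplicit false
set_option linter.unusedSectionVars false

namespace Q155.KG

open Finset Matrix
open Q155.KT (kz kz_submatrix ap ap_zero ap_succ ap_submatrix Par sh sh_one sh_two Lb z2_dbl avg_sh
  avg_mul_const avg_sum)
open Q283.TW
open Pool.Agent.Q1.PT (avg avg_equiv avg_prod avg_mono avg_const avg_add avg_sub abs_avg avg_hom)
open scoped Classical

/-- the statistics: the size of the kernel, and the indicators of the coranks -/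
noncomputable def SF : Option ℕ → ℕ → ℝ
  | none => fun z => z
  | some b => FI b

/-- their limit means -/
noncomputable def Sl : Option ℕ → ℝ
  | none => 2
  | some b => al b

theorem lm_SF (s : Option ℕ) : Lm (SF s) (Sl s) := by
  rcases s with _ | b
  · exact lm_id
  · exact lm_FI b

/-- the deviation -/
noncomputable def dev (D : Bs) (s : Option ℕ) {R : Finset ℕ} {k : ℕ} (A U : Finset (Fin k))
    (x : Par R k) : ℝ :=
  ap 0 (SF s) (bg D (U ∩ A) U x) - Sl s

section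
variable {D : Bs} {R : Finset ℕ} {k : ℕ}

theorem avg_ap_sq (h : Vd D) (hR : D.1 ∪ D.2 ⊆ R) (j : ℕ) {V W : Finset (Fin k)} (hVW : V ⊆ W) :
    avg (fun x : Par R k => ap j (fun z => (z : ℝ) ^ 2) (bg D V W x)) ≤ 40 * 4 ^ D.2.card := by
  have h1 := ap_iter hR (fun z => (z : ℝ) ^ 2) V j ∅ (W \ V) (Finset.empty_subset _)
    (Finset.disjoint_sdiff) (fun _ : Par R k => (1 : ℝ)) (fun _ _ _ _ => rfl)
  simp only [mul_one] at h1
  rw [Finset.empty_union, Finset.sdiff_union_of_subset hVW] at h1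
  rw [h1]
  have h2 : ∀ x : Par R k, ap (j + V.card) (fun z => (z : ℝ) ^ 2) (bg D ∅ (W \ V) x) ≤
      40 * 4 ^ D.2.card := by
    intro x
    refine (ap_sq_le (j + V.card) (bg_symm h ∅ (W \ V) x)).trans (le_of_eq ?_)
    rw [Fintype.card_sum, Fintype.card_coe, Fintype.card_coe, Finset.card_empty, add_zero]
  calc _ ≤ avg (fun _ : Par R k => (40 : ℝ) * 4 ^ D.2.card) := avg_mono h2
    _ = _ := avg_const _

theorem avg_mz (h : Vd D) (hR : D.1 ∪ D.2 ⊆ R) {V W : Finset (Fin k)} (hVW : V ⊆ W) :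
    avg (fun x : Par R k => mz (bg D V W x) ^ 2) ≤ 400 * 4 ^ D.2.card := by
  have h1 : avg (fun x : Par R k => mz (bg D V W x) ^ 2) ≤ avg (fun x : Par R k =>
      2 * ap 0 (fun z => (z : ℝ) ^ 2) (bg D V W x) +
      8 * ap 1 (fun z => (z : ℝ) ^ 2) (bg D V W x)) := avg_mono fun x => mz_sq _
  rw [avg_add, avg_cmul, avg_cmul] at h1
  have h2 := avg_ap_sq (k := k) h hR 0 hVW
  have h3 := avg_ap_sq (k := k) h hR 1 hVW
  linarith

theorem dev_abs (h : Vd D) (s : Option ℕ) (A U : Finset (Fin k)) (x : Par R k) :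
    |dev D s A U x| ≤ mz (bg D (U ∩ A) U x) := by
  have := ap_dist (lm_SF s) 0 (bg_symm h (U ∩ A) U x)
  rwa [pow_zero, div_one] at this

/-- **The correlations.** -/
theorem corr (h : Vd D) (hR : D.1 ∪ D.2 ⊆ R) (s : Option ℕ) (A U W : Finset (Fin k)) :
    avg (fun x : Par R k => dev D s A U x * dev D s A W x) ≤
      400 * 4 ^ D.2.card * (1 / 2) ^ ((U \ W) ∩ A).card := by
  set A0 : Finset (Fin k) := (U \ W) ∩ A with hA0
  have hG : ∀ i ∈ A0, ∀ (x : Par R k) (y : Lb R × (Fin k → ZMod 2)),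
      dev D s A W (x + sh R i y) = dev D s A W x := by
    intro i hi x y
    unfold dev
    rw [bg_sh Finset.inter_subset_left (Finset.mem_sdiff.1 (Finset.mem_inter.1 hi).1).2]
  have hsub : U ∩ W ∩ A ⊆ U \ A0 := by
    intro i hi
    simp only [hA0, Finset.mem_inter, Finset.mem_sdiff] at hi ⊢
    tauto
  have hd : Disjoint A0 (U \ A0) := Finset.disjoint_sdiff
  have e1 : U ∩ W ∩ A ∪ A0 = U ∩ A := by
    ext i
    simp only [hA0, Finset.mem_union, Finset.mem_inter, Finset.mem_sdiff]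
    tauto
  have e2 : U \ A0 ∪ A0 = U := by
    ext i
    simp only [hA0, Finset.mem_union, Finset.mem_inter, Finset.mem_sdiff]
    tauto
  have h1 := ap_iter hR (SF s) A0 0 (U ∩ W ∩ A) (U \ A0) hsub hd (dev D s A W) hG
  rw [e1, e2, zero_add] at h1
  have h2 : avg (fun x : Par R k => dev D s A U x * dev D s A W x) =
      avg fun x : Par R k => (ap A0.card (SF s) (bg D (U ∩ W ∩ A) (U \ A0) x) - Sl s) *
        dev D s A W x := by
    have e3 : (fun x : Par R k => dev D s A U x * dev D s A W x) =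
        fun x => ap 0 (SF s) (bg D (U ∩ A) U x) * dev D s A W x - dev D s A W x * Sl s := by
      funext x
      show (ap 0 (SF s) (bg D (U ∩ A) U x) - Sl s) * dev D s A W x = _
      ring
    have e4 : (fun x : Par R k => (ap A0.card (SF s) (bg D (U ∩ W ∩ A) (U \ A0) x) - Sl s) *
        dev D s A W x) =
        fun x => ap A0.card (SF s) (bg D (U ∩ W ∩ A) (U \ A0) x) * dev D s A W x -
          dev D s A W x * Sl s := by
      funext x
      ring
    rw [e3, e4, avg_sub, avg_sub, h1]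
  rw [h2]
  have h3 : ∀ x : Par R k, (ap A0.card (SF s) (bg D (U ∩ W ∩ A) (U \ A0) x) - Sl s) *
      dev D s A W x ≤ (1 / 2 * (1 / 2) ^ A0.card) * (mz (bg D (U ∩ W ∩ A) (U \ A0) x) ^ 2 +
        mz (bg D (W ∩ A) W x) ^ 2) := by
    intro x
    refine (le_abs_self _).trans ?_
    rw [abs_mul]
    have a1 := ap_dist (lm_SF s) A0.card (bg_symm h (U ∩ W ∩ A) (U \ A0) x)
    have a2 := dev_abs h s A W x
    have a3 := mz_nonneg (bg D (U ∩ W ∩ A) (U \ A0) x)
    have a4 := mz_nonneg (bg D (W ∩ A) W x)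
    calc |ap A0.card (SF s) (bg D (U ∩ W ∩ A) (U \ A0) x) - Sl s| * |dev D s A W x| ≤
          mz (bg D (U ∩ W ∩ A) (U \ A0) x) / 2 ^ A0.card * mz (bg D (W ∩ A) W x) :=
          mul_le_mul a1 a2 (abs_nonneg _) (by positivity)
      _ = (1 / 2) ^ A0.card * (mz (bg D (U ∩ W ∩ A) (U \ A0) x) * mz (bg D (W ∩ A) W x)) := by
          rw [one_div, inv_pow]
          ring
      _ ≤ (1 / 2) ^ A0.card * (1 / 2 * (mz (bg D (U ∩ W ∩ A) (U \ A0) x) ^ 2 +
            mz (bg D (W ∩ A) W x) ^ 2)) := by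
          refine mul_le_mul_of_nonneg_left ?_ (by positivity)
          nlinarith [sq_nonneg (mz (bg D (U ∩ W ∩ A) (U \ A0) x) - mz (bg D (W ∩ A) W x))]
      _ = _ := by ring
  refine (avg_mono h3).trans ?_
  rw [avg_cmul, avg_add]
  have h4 := avg_mz (k := k) h hR hsub
  have h5 := avg_mz (k := k) h hR (V := W ∩ A) (W := W) Finset.inter_subset_left
  have h6 : (0 : ℝ) ≤ (1 / 2) ^ A0.card := by positivity
  calc _ ≤ (1 / 2 * (1 / 2 : ℝ) ^ A0.card) * (400 * 4 ^ D.2.card + 400 * 4 ^ D.2.card) :=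
        mul_le_mul_of_nonneg_left (add_le_add h4 h5) (by positivity)
    _ = _ := by ring

/-- the sum of the bounds of the correlations -/
theorem sum_pairs (A : Finset (Fin k)) : ∑ U : Finset (Fin k), ∑ W : Finset (Fin k),
    (1 / 2 : ℝ) ^ ((U \ W) ∩ A).card = (7 / 8) ^ A.card * 4 ^ k := by
  rw [Finset.sum_comm]
  have h1 : ∀ V : Finset (Fin k), ∑ U : Finset (Fin k), (1 / 2 : ℝ) ^ ((U \ V) ∩ A).card =
      ∏ i : Fin k, if i ∈ V then (2 : ℝ) else (if i ∈ A then 3 / 2 else 2) := by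
    intro V
    have e : ∀ i : Fin k, (if i ∈ V then (2 : ℝ) else (if i ∈ A then 3 / 2 else 2)) =
        (if i ∈ A \ V then (1 / 2 : ℝ) else 1) + 1 := by
      intro i
      by_cases h1 : i ∈ V <;> by_cases h2 : i ∈ A <;>
        simp only [h1, h2, Finset.mem_sdiff, if_true, if_false, not_true_eq_false,
          not_false_eq_true, and_true, and_false] <;> norm_num
    simp_rw [e]
    rw [Finset.prod_add, ← Finset.powerset_univ]
    refine Finset.sum_congr rfl fun U _ => ?_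
    rw [Finset.prod_const_one, mul_one, Finset.prod_ite, Finset.prod_const_one, mul_one,
      Finset.prod_const]
    congr 1
    congr 1
    ext i
    simp only [Finset.mem_inter, Finset.mem_sdiff, Finset.mem_filter]
    tauto
  simp_rw [h1]
  have h2 : ∀ V : Finset (Fin k), (∏ i : Fin k, if i ∈ V then (2 : ℝ) else
      (if i ∈ A then 3 / 2 else 2)) =
      (∏ i ∈ V, (2 : ℝ)) * ∏ i ∈ univ \ V, (if i ∈ A then (3 / 2 : ℝ) else 2) := by
    intro V
    rw [Finset.prod_ite]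
    congr 1
    · congr 1
      ext i
      simp
    · congr 1
      ext i
      simp
  simp_rw [h2]
  rw [← Finset.powerset_univ, ← Finset.prod_add]
  have h3 : ∀ i : Fin k, (2 : ℝ) + (if i ∈ A then (3 / 2 : ℝ) else 2) =
      (if i ∈ A then (7 / 8 : ℝ) else 1) * 4 := by
    intro i
    split_ifs <;> norm_num
  simp_rw [h3]
  rw [Finset.prod_mul_distrib, Finset.prod_const, Finset.card_univ, Fintype.card_fin,
    Finset.prod_ite, Finset.prod_const_one, mul_one, Finset.prod_const]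
  congr 3
  ext i
  simp

/-- the deviation of the mean over the divisors -/
noncomputable def pdev (D : Bs) (s : Option ℕ) {R : Finset ℕ} {k : ℕ} (A : Finset (Fin k))
    (x : Par R k) : ℝ :=
  (∑ U : Finset (Fin k), SF s (kz (bg D (U ∩ A) U x))) / 2 ^ k - Sl s

theorem pdev_eq (s : Option ℕ) (A : Finset (Fin k)) (x : Par R k) :
    pdev D s A x = (∑ U : Finset (Fin k), dev D s A U x) / 2 ^ k := by
  unfold pdev dev
  simp_rw [ap_zero]
  rw [Finset.sum_sub_distrib, Finset.sum_const, Finset.card_univ, Fintype.card_finset,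
    Fintype.card_fin, nsmul_eq_mul]
  have : (2 : ℝ) ^ k ≠ 0 := by positivity
  push_cast
  field_simp

/-- **The variance.** -/
theorem variance (h : Vd D) (hR : D.1 ∪ D.2 ⊆ R) (s : Option ℕ) (A : Finset (Fin k)) :
    avg (fun x : Par R k => pdev D s A x ^ 2) ≤ 400 * 4 ^ D.2.card * (7 / 8) ^ A.card := by
  have h1 : (fun x : Par R k => pdev D s A x ^ 2) = fun x => (∑ U : Finset (Fin k),
      ∑ V : Finset (Fin k), dev D s A U x * dev D s A V x) * (1 / 4 ^ k) := by
    funext x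
    rw [pdev_eq, div_pow, ← Finset.sum_mul_sum, ← pow_mul, mul_comm k 2, pow_mul]
    norm_num
    ring
  rw [h1, avg_mul_const, avg_sum]
  simp_rw [avg_sum]
  have h2 : ∑ U : Finset (Fin k), ∑ V : Finset (Fin k),
      avg (fun x : Par R k => dev D s A U x * dev D s A V x) ≤
      ∑ U : Finset (Fin k), ∑ V : Finset (Fin k),
        400 * 4 ^ D.2.card * (1 / 2) ^ ((U \ V) ∩ A).card :=
    Finset.sum_le_sum fun U _ => Finset.sum_le_sum fun V _ => corr h hR s A U V
  have h3 : ∑ U : Finset (Fin k), ∑ V : Finset (Fin k),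
      400 * 4 ^ D.2.card * (1 / 2 : ℝ) ^ ((U \ V) ∩ A).card =
      400 * 4 ^ D.2.card * ((7 / 8) ^ A.card * 4 ^ k) := by
    rw [← sum_pairs A, Finset.mul_sum]
    refine Finset.sum_congr rfl fun U _ => ?_
    rw [Finset.mul_sum]
  rw [h3] at h2
  calc _ ≤ (400 * 4 ^ D.2.card * ((7 / 8) ^ A.card * 4 ^ k)) * (1 / 4 ^ k : ℝ) :=
        mul_le_mul_of_nonneg_right h2 (by positivity)
    _ = _ := by
        have : (4 : ℝ) ^ k ≠ 0 := by positivity
        field_simp

/-- **Chebyshev.** -/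
theorem cheb (h : Vd D) (hR : D.1 ∪ D.2 ⊆ R) (s : Option ℕ) (A : Finset (Fin k)) {ε : ℝ}
    (hε : 0 < ε) : avg (fun x : Par R k => if |pdev D s A x| < ε then (0 : ℝ) else 1) ≤
      400 * 4 ^ D.2.card * (7 / 8) ^ A.card / ε ^ 2 := by
  have h1 : ∀ x : Par R k, (if |pdev D s A x| < ε then (0 : ℝ) else 1) ≤
      pdev D s A x ^ 2 * (1 / ε ^ 2) := by
    intro x
    split_ifs with hx
    · positivity
    · rw [mul_one_div, le_div_iff₀ (by positivity), one_mul, ← sq_abs (pdev D s A x)]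
      exact pow_le_pow_left₀ hε.le (not_lt.1 hx) 2
  refine (avg_mono h1).trans ?_
  rw [avg_mul_const, ← div_eq_mul_one_div]
  exact div_le_div_of_nonneg_right (variance h hR s A) (by positivity)

/-- the constant of a finite set of bases -/
noncomputable def Cst (𝒟 : Finset Bs) : ℝ := ∑ D ∈ 𝒟, 400 * 4 ^ D.2.card

theorem Cst_nonneg (𝒟 : Finset Bs) : 0 ≤ Cst 𝒟 :=
  Finset.sum_nonneg fun _ _ => by positivity

/-- **The union bound.** -/
theorem bad_le {𝒟 : Finset Bs} (h : ∀ D ∈ 𝒟, Vd D) (hR : ∀ D ∈ 𝒟, D.1 ∪ D.2 ⊆ R)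
    (𝒮 : Finset (Option ℕ)) (A : Finset (Fin k)) {ε : ℝ} (hε : 0 < ε) :
    avg (fun x : Par R k => if ∀ D ∈ 𝒟, ∀ s ∈ 𝒮, |pdev D s A x| < ε then (0 : ℝ) else 1) ≤
      𝒮.card * Cst 𝒟 * (7 / 8) ^ A.card / ε ^ 2 := by
  have h1 : ∀ x : Par R k, (if ∀ D ∈ 𝒟, ∀ s ∈ 𝒮, |pdev D s A x| < ε then (0 : ℝ) else 1) ≤
      ∑ D ∈ 𝒟, ∑ s ∈ 𝒮, if |pdev D s A x| < ε then (0 : ℝ) else 1 := by
    intro x
    have hnn : ∀ D ∈ 𝒟, 0 ≤ ∑ s ∈ 𝒮, if |pdev D s A x| < ε then (0 : ℝ) else 1 := by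
      intro D _
      refine Finset.sum_nonneg fun s _ => ?_
      split_ifs <;> norm_num
    split_ifs with hx
    · exact Finset.sum_nonneg hnn
    · push Not at hx
      obtain ⟨D, hD, s, hs, hlt⟩ := hx
      refine le_trans ?_ (Finset.single_le_sum hnn hD)
      refine le_trans ?_ (Finset.single_le_sum (f := fun s => if |pdev D s A x| < ε then (0 : ℝ)
        else 1) (fun s _ => by split_ifs <;> norm_num) hs)
      rw [if_neg (not_lt.2 hlt)]
  refine (avg_mono h1).trans ?_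
  rw [avg_sum]
  simp_rw [avg_sum]
  calc _ ≤ ∑ D ∈ 𝒟, ∑ s ∈ 𝒮, 400 * 4 ^ D.2.card * (7 / 8) ^ A.card / ε ^ 2 :=
        Finset.sum_le_sum fun D hD => Finset.sum_le_sum fun s _ => cheb (h D hD) (hR D hD) s A hε
    _ = _ := by
        simp_rw [Finset.sum_const, nsmul_eq_mul]
        rw [← Finset.mul_sum]
        unfold Cst
        rw [← Finset.sum_div, ← Finset.sum_mul]
        ring

end

end Q155.KG
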