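import Pool.Agent.Q155.KT.Tr
import Pool.Agent.Q155.KG.Var
import Pool.Agent.Q155.KG.Tup

/-!
# The law of large numbers for tuples of primes of given classes
-/

set_option autoImplicit false
set_option linter.unusedSectionVars false

namespace Q155.KG

open Finset Matrix Filter Topology
open Q155.KT (kz Par Lb Dta tb avg_tb val Pr sy)
open Q283.TW
open Q283.XF (nf Cl1 Cl3 Base)
open Pool.Agent.Y698.SG (mat nq n4)
open Pool.Agent.Q1.PT (avg avg_equiv avg_prod avg_mono avg_const avg_add avg_sub abs_avg avg_hom)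
open scoped Classical

section
variable {R : Finset ℕ} {k : ℕ}

/-- the size of the kernel of the matrix of the twist by `U` -/
noncomputable def cz (D : Bs) (A U : Finset (Fin k)) (p : Fin k → ℕ) : ℕ :=
  kz (mat (D.1 ∪ (U \ A).image p) (D.2 ∪ (U ∩ A).image p))

/-- the same from the table -/
noncomputable def kzT (D : Bs) (A U : Finset (Fin k)) (x : Dta R k) : ℕ :=
  kz (big D (U ∩ A) U (fun i => Q155.KT.val (x.1 i).1) (fun i => (x.1 i).2) x.2.1)

theorem kz_tab {D : Bs} (hD : Vd D) (hR : D.1 ∪ D.2 ⊆ R) (K : Fin k → Cls R) {A : Finset (Fin k)}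
    (hA : ∀ i ∈ A, (K i).e = nf) {p : Fin k → ℕ} (hp : ∀ i, (K i).C (p i))
    (hinj : Function.Injective p) (hpR : ∀ i, p i ∉ R) (U : Finset (Fin k)) :
    cz D A U p = kzT D A U (tab K p) := by
  have hp' : ∀ i, (p i).Prime ∧ p i % 4 = 1 := fun i => (K i).hC _ (hp i)
  unfold cz kzT
  rw [kz_big hD hp' hinj (fun i h => hpR i (hR h)), tab_snd K hp']
  rw [big_congr2 (V := U ∩ A) (U := U) Finset.inter_subset_left
    (v := fun i r => nrp (p i) r) (v' := fun i => Q155.KT.val ((tab K p).1 i).1)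
    (e := fun i => nf (p i)) (e' := fun i => ((tab K p).1 i).2)
    (a := fun i j => nrp (p i) (p j)) (a' := fun i j => nrp (p i) (p j)) ?_ ?_ ?_]
  · intro i _ r hr
    have hrR := hR hr
    show nrp (p i) r = Q155.KT.val (fun q : R => nrp (p i) q) r
    unfold Q155.KT.val
    rw [dif_pos hrR]
  · intro i hi
    show nf (p i) = (K i).e (p i)
    rw [hA i (Finset.mem_inter.1 hi).2]
  · intro i _ j _
    rfl

/-- the mean of a statistic over the twists -/
noncomputable def mn (D : Bs) (s : Option ℕ) (A : Finset (Fin k)) (p : Fin k → ℕ) : ℝ :=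
  (∑ U : Finset (Fin k), SF s (cz D A U p)) / 2 ^ k

/-- the same from the table -/
noncomputable def mnT (D : Bs) (s : Option ℕ) (A : Finset (Fin k)) (x : Dta R k) : ℝ :=
  (∑ U : Finset (Fin k), SF s (kzT D A U x)) / 2 ^ k

theorem pdev_tb (D : Bs) (s : Option ℕ) (A : Finset (Fin k)) (x : Par R k) :
    pdev D s A x = mnT D s A (tb x) - Sl s := rfl

theorem mn_tab {D : Bs} (hD : Vd D) (hR : D.1 ∪ D.2 ⊆ R) (K : Fin k → Cls R)
    {A : Finset (Fin k)} (hA : ∀ i ∈ A, (K i).e = nf) {p : Fin k → ℕ}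
    (hp : ∀ i, (K i).C (p i)) (hinj : Function.Injective p) (hpR : ∀ i, p i ∉ R)
    (s : Option ℕ) : mn D s A p = mnT D s A (tab K p) := by
  unfold mn mnT
  congr 1
  exact Finset.sum_congr rfl fun U _ => by rw [kz_tab hD hR K hA hp hinj hpR U]

/-- **The law of large numbers for tuples of primes of given classes.** -/
theorem lln {𝒟 : Finset Bs} (h : ∀ D ∈ 𝒟, Vd D) (hR : ∀ D ∈ 𝒟, D.1 ∪ D.2 ⊆ R)
    (K : Fin k → Cls R) {A : Finset (Fin k)} (hA : ∀ i ∈ A, (K i).e = nf)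
    (𝒮 : Finset (Option ℕ)) {ε : ℝ} (hε : 0 < ε) (T : (Fin k → ℕ) → Prop)
    (hT : ∀ p : Fin k → ℕ, (∀ i, (K i).C (p i)) → (T p ↔ Function.Injective p ∧
      (∀ i, p i ∉ R) ∧ ∀ D ∈ 𝒟, ∀ s ∈ 𝒮, |mn D s A p - Sl s| < ε)) :
    ∃ ℓ : ℝ, 1 - 𝒮.card * Cst 𝒟 * (7 / 8) ^ A.card / ε ^ 2 ≤ ℓ ∧
      Tendsto (fun X : ℕ => (((tup K X).filter fun p => T p).card : ℝ) / ct K X) atTop (𝓝 ℓ) := by
  obtain ⟨W, hW⟩ : ∃ W : Dta R k → Prop,
      ∀ x, W x ↔ ∀ D ∈ 𝒟, ∀ s ∈ 𝒮, |mnT D s A x - Sl s| < ε := ⟨_, fun _ => Iff.rfl⟩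
  have h1 := table_law K W T (fun p hp => by
    rw [hT p hp, hW]
    refine and_congr_right fun hinj => and_congr_right fun hpR => ?_
    refine forall_congr' fun D => forall_congr' fun hD => forall_congr' fun s =>
      forall_congr' fun _ => ?_
    rw [mn_tab (h D hD) (hR D hD) K hA hp hinj hpR])
  refine ⟨_, ?_, h1⟩
  rw [avg_tb]
  have h2 := bad_le (k := k) h hR 𝒮 A hε
  have h3 : (fun x : Par R k => if W (tb x) then (1 : ℝ) else 0) =
      fun x => 1 - if ∀ D ∈ 𝒟, ∀ s ∈ 𝒮, |pdev D s A x| < ε then (0 : ℝ) else 1 := by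
    funext x
    have h4 : W (tb x) ↔ ∀ D ∈ 𝒟, ∀ s ∈ 𝒮, |pdev D s A x| < ε := hW _
    by_cases h5 : W (tb x)
    · rw [if_pos h5, if_pos (h4.1 h5), sub_zero]
    · rw [if_neg h5, if_neg (fun h6 => h5 (h4.2 h6)), sub_self]
  rw [h3, avg_sub, avg_const]
  linarith

end

end Q155.KG
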