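import Pool.Agent.Q155.KG.Half
import Pool.Agent.Q155.KG.Lln

/-!
# The law of large numbers for tuples of primes which are `1` modulo `4`
-/

set_option autoImplicit false
set_option linter.unusedSectionVars false

namespace Q155.KG

open Finset Matrix Filter Topology
open Q155.KT (kz)
open Q283.TW (nrp)
open Q283.XF (nf Cl1 Cl3 Base)
open Pool.Agent.Y698.SG (mat)
open scoped Classical

/-- the class of the integers -/
def Ad (m : ℕ) : Prop := Squarefree m ∧ ∀ q ∈ m.primeFactors, P1 q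

/-- the inert and the split prime factors -/
noncomputable def bs (m : ℕ) : Bs :=
  (m.primeFactors.filter fun q => ¬ Sq q, m.primeFactors.filter fun q => Sq q)

/-- the size of the kernel of the matrix of `m` -/
noncomputable def kn (m : ℕ) : ℕ := kz (mat (bs m).1 (bs m).2)

theorem bs_union (m : ℕ) : (bs m).1 ∪ (bs m).2 = m.primeFactors := by
  show (m.primeFactors.filter fun q => ¬ Sq q) ∪ (m.primeFactors.filter fun q => Sq q) = _
  rw [Finset.union_comm, Finset.filter_union_filter_not_eq]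

theorem vd_bs {m : ℕ} (h : Ad m) : Vd (bs m) := by
  refine ⟨fun q hq => ?_, ?_⟩
  · rw [bs_union] at hq
    exact h.2 q hq
  · exact (Finset.disjoint_filter_filter_not _ _ _).symm

section
variable {k : ℕ}

theorem pf_mul {D : ℕ} (hD : D ≠ 0) {p : Fin k → ℕ} (hp : ∀ i, (p i).Prime) (U : Finset (Fin k)) :
    (D * ∏ i ∈ U, p i).primeFactors = D.primeFactors ∪ U.image p := by
  have h0 : ∏ i ∈ U, p i ≠ 0 := Finset.prod_ne_zero_iff.2 fun i _ => (hp i).ne_zero
  ext q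
  rw [Nat.mem_primeFactors_of_ne_zero (mul_ne_zero hD h0), Finset.mem_union,
    Nat.mem_primeFactors_of_ne_zero hD, Finset.mem_image]
  constructor
  · rintro ⟨hq, hd⟩
    rcases (Nat.Prime.dvd_mul hq).1 hd with h | h
    · exact Or.inl ⟨hq, h⟩
    · obtain ⟨i, hi, hd⟩ := (Prime.dvd_finsetProd_iff hq.prime _).1 h
      exact Or.inr ⟨i, hi, ((Nat.prime_dvd_prime_iff_eq hq (hp i)).1 hd).symm⟩
  · rintro (⟨hq, hd⟩ | ⟨i, hi, rfl⟩)
    · exact ⟨hq, hd.mul_right _⟩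
    · exact ⟨hp i, (Finset.dvd_prod_of_mem p hi).mul_left _⟩

theorem ad_mul {D : ℕ} (hD : Ad D) {p : Fin k → ℕ} (hp : ∀ i, P1 (p i))
    (hinj : Function.Injective p) (hpD : ∀ i, p i ∉ D.primeFactors) (U : Finset (Fin k)) :
    Ad (D * ∏ i ∈ U, p i) := by
  refine ⟨?_, ?_⟩
  · induction U using Finset.induction_on with
    | empty => rw [Finset.prod_empty, mul_one]; exact hD.1
    | @insert i U hi ih =>
      have e : D * ∏ j ∈ insert i U, p j = p i * (D * ∏ j ∈ U, p j) := by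
        rw [Finset.prod_insert hi]
        ring
      rw [e, Nat.squarefree_mul_iff]
      refine ⟨?_, (hp i).1.squarefree, ih⟩
      rw [(hp i).1.coprime_iff_not_dvd]
      intro hd
      have h1 : p i ∈ (D * ∏ j ∈ U, p j).primeFactors :=
        (hp i).1.mem_primeFactors hd ih.ne_zero
      rw [pf_mul hD.1.ne_zero (fun i => (hp i).1)] at h1
      rcases Finset.mem_union.1 h1 with h | h
      · exact hpD i h
      · obtain ⟨j, hj, he⟩ := Finset.mem_image.1 h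
        rw [hinj he] at hj
        exact hi hj
  · intro q hq
    rw [pf_mul hD.1.ne_zero (fun i => (hp i).1)] at hq
    rcases Finset.mem_union.1 hq with h | h
    · exact hD.2 q h
    · obtain ⟨j, hj, rfl⟩ := Finset.mem_image.1 h
      exact hp j

theorem kn_mul {D : ℕ} (hD : D ≠ 0) {p : Fin k → ℕ} (hp : ∀ i, P1 (p i)) {A : Finset (Fin k)}
    (hA : ∀ i, Sq (p i) ↔ i ∈ A) (U : Finset (Fin k)) :
    kn (D * ∏ i ∈ U, p i) = cz (bs D) A U p := by
  have h1 : (bs (D * ∏ i ∈ U, p i)).1 = (bs D).1 ∪ (U \ A).image p := by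
    show (D * ∏ i ∈ U, p i).primeFactors.filter (fun q => ¬ Sq q) = _
    rw [pf_mul hD (fun i => (hp i).1), Finset.filter_union]
    congr 1
    ext q
    simp only [Finset.mem_filter, Finset.mem_image, Finset.mem_sdiff]
    constructor
    · rintro ⟨⟨i, hi, rfl⟩, h⟩
      exact ⟨i, ⟨hi, fun h' => h ((hA i).2 h')⟩, rfl⟩
    · rintro ⟨i, ⟨hi, h⟩, rfl⟩
      exact ⟨⟨i, hi, rfl⟩, fun h' => h ((hA i).1 h')⟩
  have h2 : (bs (D * ∏ i ∈ U, p i)).2 = (bs D).2 ∪ (U ∩ A).image p := by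
    show (D * ∏ i ∈ U, p i).primeFactors.filter (fun q => Sq q) = _
    rw [pf_mul hD (fun i => (hp i).1), Finset.filter_union]
    congr 1
    ext q
    simp only [Finset.mem_filter, Finset.mem_image, Finset.mem_inter]
    constructor
    · rintro ⟨⟨i, hi, rfl⟩, h⟩
      exact ⟨i, ⟨hi, (hA i).1 h⟩, rfl⟩
    · rintro ⟨i, ⟨hi, h⟩, rfl⟩
      exact ⟨⟨i, hi, rfl⟩, (hA i).2 h⟩
  unfold kn cz
  rw [h1, h2]

/-- the mean of a statistic over the twists by the divisors -/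
noncomputable def mm (D : ℕ) (s : Option ℕ) (p : Fin k → ℕ) : ℝ :=
  (∑ U : Finset (Fin k), SF s (kn (D * ∏ i ∈ U, p i))) / 2 ^ k

theorem mm_eq {D : ℕ} (hD : D ≠ 0) {p : Fin k → ℕ} (hp : ∀ i, P1 (p i)) {A : Finset (Fin k)}
    (hA : ∀ i, Sq (p i) ↔ i ∈ A) (s : Option ℕ) : mm D s p = mn (bs D) s A p := by
  unfold mm mn
  congr 1
  exact Finset.sum_congr rfl fun U _ => by rw [kn_mul hD hp hA]

/-- the primes of the base -/
def Rp (𝒟 : Finset ℕ) : Finset ℕ := 𝒟.biUnion Nat.primeFactors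

theorem Rp_P1 {𝒟 : Finset ℕ} (h : ∀ D ∈ 𝒟, Ad D) : ∀ q ∈ Rp 𝒟, P1 q := by
  intro q hq
  obtain ⟨D, hD, hq⟩ := Finset.mem_biUnion.1 hq
  exact (h D hD).2 q hq

/-- the classes -/
noncomputable def KA {𝒟 : Finset ℕ} (h : ∀ D ∈ 𝒟, Ad D) (A : Finset (Fin k)) (i : Fin k) :
    Cls (Rp 𝒟) := if i ∈ A then cS (base3 (Rp_P1 h)) 0 else cI (base3 (Rp_P1 h)) 0

theorem KA_e {𝒟 : Finset ℕ} (h : ∀ D ∈ 𝒟, Ad D) {A : Finset (Fin k)} {i : Fin k} (hi : i ∈ A) :
    (KA h A i).e = nf := by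
  unfold KA
  rw [if_pos hi]
  rfl

theorem KA_C {𝒟 : Finset ℕ} (h : ∀ D ∈ 𝒟, Ad D) (A : Finset (Fin k)) (i : Fin k) (p : ℕ) :
    (KA h A i).C p ↔ P1 p ∧ (Sq p ↔ i ∈ A) := by
  unfold KA
  by_cases hi : i ∈ A
  · rw [if_pos hi]
    show Cl1 3 0 p ↔ _
    rw [cl1_iff]
    tauto
  · rw [if_neg hi]
    show Cl3 3 0 p ↔ _
    rw [cl3_iff]
    tauto

theorem KA_half {𝒟 : Finset ℕ} (h : ∀ D ∈ 𝒟, Ad D) (A : Finset (Fin k)) (i : Fin k) :
    Tendsto (fun X : ℕ => ((cs (KA h A i) X).card : ℝ) / ((ps P1 X).card : ℝ)) atTop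
      (𝓝 (1 / 2)) := by
  unfold KA
  by_cases hi : i ∈ A
  · rw [if_pos hi]
    refine half_split.congr fun X => ?_
    rfl
  · rw [if_neg hi]
    refine half_inert.congr fun X => ?_
    rfl

/-- the tuples of primes `1` modulo `4` up to `X` -/
noncomputable def tupP (k X : ℕ) : Finset (Fin k → ℕ) := Fintype.piFinset fun _ : Fin k => ps P1 X

theorem card_tupP (k X : ℕ) : (tupP k X).card = (ps P1 X).card ^ k := by
  unfold tupP
  rw [Fintype.card_piFinset, Finset.prod_const, Finset.card_univ, Fintype.card_fin]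

theorem mem_ps {A : ℕ → Prop} {X p : ℕ} : p ∈ ps A X ↔ p ≤ X ∧ A p := by
  unfold ps
  rw [Finset.mem_filter, Finset.mem_range, Nat.lt_succ_iff]

theorem mem_tupP {X : ℕ} {p : Fin k → ℕ} : p ∈ tupP k X ↔ ∀ i, p i ≤ X ∧ P1 (p i) := by
  unfold tupP
  rw [Fintype.mem_piFinset]
  exact forall_congr' fun i => mem_ps

/-- the constant -/
noncomputable def Cs (𝒟 : Finset ℕ) : ℝ := Cst (𝒟.image bs)

/-- **The law of large numbers**, all primes `1` modulo `4`. -/
theorem lln_all {𝒟 : Finset ℕ} (h : ∀ D ∈ 𝒟, Ad D) (k : ℕ) (𝒮 : Finset (Option ℕ)) {ε : ℝ}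
    (hε : 0 < ε) (T : (Fin k → ℕ) → Prop)
    (hT : ∀ p : Fin k → ℕ, (∀ i, P1 (p i)) → (T p ↔ Function.Injective p ∧
      (∀ i, p i ∉ Rp 𝒟) ∧ ∀ D ∈ 𝒟, ∀ s ∈ 𝒮, |mm D s p - Sl s| < ε)) :
    ∃ ℓ : ℝ, 1 - 𝒮.card * Cs 𝒟 * (15 / 16) ^ k / ε ^ 2 ≤ ℓ ∧
      Tendsto (fun X : ℕ => (((tupP k X).filter fun p => T p).card : ℝ) / ((tupP k X).card : ℝ))
        atTop (𝓝 ℓ) := by
  have hvd : ∀ D ∈ 𝒟.image bs, Vd D := by
    intro D hD
    obtain ⟨m, hm, rfl⟩ := Finset.mem_image.1 hD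
    exact vd_bs (h m hm)
  have hsub : ∀ D ∈ 𝒟.image bs, D.1 ∪ D.2 ⊆ Rp 𝒟 := by
    intro D hD
    obtain ⟨m, hm, rfl⟩ := Finset.mem_image.1 hD
    rw [bs_union]
    exact Finset.subset_biUnion_of_mem Nat.primeFactors hm
  have hA : ∀ A : Finset (Fin k), ∃ ℓ : ℝ, 1 - 𝒮.card * Cs 𝒟 * (7 / 8) ^ A.card / ε ^ 2 ≤ ℓ ∧
      Tendsto (fun X : ℕ => (((tup (KA h A) X).filter fun p => T p).card : ℝ) / ct (KA h A) X)
        atTop (𝓝 ℓ) := by
    intro A
    refine lln hvd hsub (KA h A) (A := A) (fun i hi => KA_e h hi) 𝒮 hε T fun p hp => ?_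
    have hp1 : ∀ i, P1 (p i) := fun i => ((KA_C h A i (p i)).1 (hp i)).1
    have hp2 : ∀ i, Sq (p i) ↔ i ∈ A := fun i => ((KA_C h A i (p i)).1 (hp i)).2
    rw [hT p hp1]
    refine and_congr_right fun _ => and_congr_right fun _ => ?_
    rw [Finset.forall_mem_image]
    refine forall_congr' fun D => forall_congr' fun hD => ?_
    have hD0 : D ≠ 0 := (h D hD).1.ne_zero
    simp only [mm_eq hD0 hp1 hp2]
  choose ℓ hℓ hlim using hA
  refine ⟨∑ A : Finset (Fin k), ℓ A * (1 / 2) ^ k, ?_, ?_⟩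
  · have h1 : ∑ A : Finset (Fin k), (1 - 𝒮.card * Cs 𝒟 * (7 / 8) ^ A.card / ε ^ 2) * (1 / 2 : ℝ) ^ k ≤
        ∑ A : Finset (Fin k), ℓ A * (1 / 2) ^ k :=
      Finset.sum_le_sum fun A _ => mul_le_mul_of_nonneg_right (hℓ A) (by positivity)
    refine le_trans (le_of_eq ?_) h1
    have h2 := Fintype.sum_pow_mul_eq_add_pow (Fin k) (7 / 8 : ℝ) 1
    simp only [one_pow, mul_one, Fintype.card_fin] at h2
    have h3 : ∀ A : Finset (Fin k), (1 - 𝒮.card * Cs 𝒟 * (7 / 8) ^ A.card / ε ^ 2) * (1 / 2 : ℝ) ^ k =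
        (1 / 2 : ℝ) ^ k - (7 / 8) ^ A.card * (𝒮.card * Cs 𝒟 / ε ^ 2 * (1 / 2) ^ k) := by
      intro A
      ring
    simp_rw [h3]
    rw [Finset.sum_sub_distrib, ← Finset.sum_mul, h2, Finset.sum_const, Finset.card_univ,
      Fintype.card_finset, Fintype.card_fin, nsmul_eq_mul]
    have e1 : ((2 ^ k : ℕ) : ℝ) * (1 / 2) ^ k = 1 := by
      push_cast
      rw [← mul_pow]
      norm_num
    have e2 : (7 / 8 + 1 : ℝ) ^ k * (1 / 2) ^ k = (15 / 16) ^ k := by
      rw [← mul_pow]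
      norm_num
    rw [e1, ← e2]
    ring
  · have h1 : ∀ A : Finset (Fin k), Tendsto (fun X : ℕ =>
        ct (KA h A) X / ((ps P1 X).card : ℝ) ^ k) atTop (𝓝 ((1 / 2) ^ k)) := by
      intro A
      have h2 : Tendsto (fun X : ℕ => ∏ i : Fin k,
          (((cs (KA h A i) X).card : ℝ) / ((ps P1 X).card : ℝ))) atTop
          (𝓝 (∏ _i : Fin k, (1 / 2 : ℝ))) := tendsto_finsetProd _ fun i _ => KA_half h A i
      rw [Finset.prod_const, Finset.card_univ, Fintype.card_fin] at h2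
      refine h2.congr fun X => ?_
      rw [Finset.prod_div_distrib, Finset.prod_const, Finset.card_univ, Fintype.card_fin]
      rfl
    have h2 : Tendsto (fun X : ℕ => ∑ A : Finset (Fin k),
        (((tup (KA h A) X).filter fun p => T p).card : ℝ) / ct (KA h A) X *
          (ct (KA h A) X / ((ps P1 X).card : ℝ) ^ k)) atTop
        (𝓝 (∑ A : Finset (Fin k), ℓ A * (1 / 2) ^ k)) :=
      tendsto_finsetSum _ fun A _ => (hlim A).mul (h1 A)
    refine h2.congr' ?_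
    have h3 : ∀ A : Finset (Fin k), ∀ᶠ X : ℕ in atTop, 0 < ct (KA h A) X := by
      intro A
      filter_upwards [Filter.eventually_all.2 fun i => (cs_tendsto (KA h A i)).eventually_gt_atTop 0]
        with X hX
      exact Finset.prod_pos fun i _ => hX i
    filter_upwards [Filter.eventually_all.2 h3] with X hX
    have h4 : ((tupP k X).filter fun p => T p).card =
        ∑ A : Finset (Fin k), ((tup (KA h A) X).filter fun p => T p).card := by
      rw [Finset.card_eq_sum_card_fiberwise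
        (f := fun p : Fin k → ℕ => univ.filter fun i => Sq (p i))
        (t := (univ : Finset (Finset (Fin k)))) (fun _ _ => Finset.mem_coe.2 (Finset.mem_univ _))]
      refine Finset.sum_congr rfl fun A _ => ?_
      congr 1
      ext p
      simp only [Finset.mem_filter, mem_tupP, mem_tup, KA_C]
      constructor
      · rintro ⟨⟨a1, a2⟩, a3⟩
        refine ⟨fun i => ⟨(a1 i).1, (a1 i).2, ?_⟩, a2⟩
        rw [← a3]
        simp
      · rintro ⟨a1, a2⟩
        refine ⟨⟨fun i => ⟨(a1 i).1, (a1 i).2.1⟩, a2⟩, ?_⟩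
        ext i
        simp only [Finset.mem_filter, Finset.mem_univ, true_and]
        exact (a1 i).2.2
    rw [h4, card_tupP]
    push_cast
    rw [Finset.sum_div]
    refine Finset.sum_congr rfl fun A _ => ?_
    have h5 := (hX A).ne'
    field_simp

end

end Q155.KG
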