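import Pool.Agent.Q155.KG.Lln

/-!
# Conditional averages and potentials
-/

set_option autoImplicit false
set_option linter.unusedSectionVars false

namespace Q155.KG

open Finset Filter Topology
open Q155.KT (Par Lb Dta Sy tb avg_tb Pr sy avg_ind)
open Pool.Agent.Q1.PT (avg avg_equiv avg_prod avg_mono avg_const avg_add avg_sub abs_avg avg_hom)
open scoped Classical

section
variable {R : Finset ℕ}

/-- the symbols with one more prime -/
def exf {t : ℕ} (a : Fin t → Fin t → ZMod 2) (v : Fin t → ZMod 2) (i j : Fin (t + 1)) : ZMod 2 :=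
  if hi : (i : ℕ) < t then (if hj : (j : ℕ) < t then a ⟨i, hi⟩ ⟨j, hj⟩ else v ⟨i, hi⟩)
    else (if hj : (j : ℕ) < t then v ⟨j, hj⟩ else 0)

theorem exf_sym {t : ℕ} {a : Fin t → Fin t → ZMod 2} (h : ∀ i j, a i j = a j i)
    (v : Fin t → ZMod 2) (i j : Fin (t + 1)) : exf a v i j = exf a v j i := by
  unfold exf
  by_cases hi : (i : ℕ) < t
  · by_cases hj : (j : ℕ) < t
    · rw [dif_pos hi, dif_pos hj, dif_pos hj, dif_pos hi]
      exact h _ _
    · rw [dif_pos hi, dif_neg hj, dif_neg hj, dif_pos hi]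
  · by_cases hj : (j : ℕ) < t
    · rw [dif_neg hi, dif_pos hj, dif_pos hj, dif_neg hi]
    · rw [dif_neg hi, dif_neg hj, dif_neg hj, dif_neg hi]

theorem exf_diag {t : ℕ} {a : Fin t → Fin t → ZMod 2} (h : ∀ i, a i i = 0)
    (v : Fin t → ZMod 2) (i : Fin (t + 1)) : exf a v i i = 0 := by
  unfold exf
  by_cases hi : (i : ℕ) < t
  · rw [dif_pos hi, dif_pos hi]
    exact h _
  · rw [dif_neg hi, dif_neg hi]

/-- one more prime -/
noncomputable def ex {t : ℕ} (x : Dta R t) (z : Lb R × (Fin t → ZMod 2)) : Dta R (t + 1) :=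
  (fun i => if hi : (i : ℕ) < t then x.1 ⟨i, hi⟩ else z.1,
    ⟨exf x.2.1 z.2, exf_sym x.2.2.1 z.2, exf_diag x.2.2.2 z.2⟩)

/-- the tables with one more prime -/
noncomputable def exE (t : ℕ) : Dta R t × (Lb R × (Fin t → ZMod 2)) ≃ Dta R (t + 1) where
  toFun w := ex w.1 w.2
  invFun y := ((fun i => y.1 i.castSucc, ⟨fun i j => y.2.1 i.castSucc j.castSucc,
    fun _ _ => y.2.2.1 _ _, fun _ => y.2.2.2 _⟩), (y.1 (Fin.last t),
    fun j => y.2.1 (Fin.last t) j.castSucc))
  left_inv := by
    rintro ⟨x, z⟩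
    have hl : ¬ ((Fin.last t : Fin (t + 1)) : ℕ) < t := by simp
    have hc : ∀ i : Fin t, ((i.castSucc : Fin (t + 1)) : ℕ) < t := fun i => i.2
    refine Prod.ext (Prod.ext ?_ (Subtype.ext ?_)) (Prod.ext ?_ ?_)
    · funext i
      exact dif_pos (hc i)
    · funext i j
      show exf x.2.1 z.2 i.castSucc j.castSucc = x.2.1 i j
      unfold exf
      rw [dif_pos (hc i), dif_pos (hc j)]
      rfl
    · exact dif_neg hl
    · funext j
      show exf x.2.1 z.2 (Fin.last t) j.castSucc = z.2 j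
      unfold exf
      rw [dif_neg hl, dif_pos (hc j)]
      rfl
  right_inv := by
    intro y
    have hl : ∀ i : Fin (t + 1), ¬ (i : ℕ) < t → i = Fin.last t := fun i hi =>
      Fin.ext (by have := i.2; simp; omega)
    refine Prod.ext ?_ (Subtype.ext ?_)
    · funext i
      show (if hi : (i : ℕ) < t then y.1 (Fin.castSucc ⟨i, hi⟩) else y.1 (Fin.last t)) = y.1 i
      by_cases hi : (i : ℕ) < t
      · rw [dif_pos hi]
        rfl
      · rw [dif_neg hi, hl i hi]
    · funext i j
      show exf (fun i j => y.2.1 i.castSucc j.castSucc) (fun j => y.2.1 (Fin.last t) j.castSucc) i j =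
        y.2.1 i j
      unfold exf
      by_cases hi : (i : ℕ) < t
      · by_cases hj : (j : ℕ) < t
        · rw [dif_pos hi, dif_pos hj]
          rfl
        · rw [dif_pos hi, dif_neg hj, hl j hj, y.2.2.1 i]
          rfl
      · by_cases hj : (j : ℕ) < t
        · rw [dif_neg hi, dif_pos hj, hl i hi]
          rfl
        · rw [dif_neg hi, dif_neg hj, hl i hi, hl j hj, y.2.2.2]

/-- the conditional average of `F (t + m)` -/
noncomputable def cp (F : (t : ℕ) → Dta R t → ℝ) : ℕ → (t : ℕ) → Dta R t → ℝ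
  | 0, t, x => F t x
  | m + 1, t, x => avg fun z : Lb R × (Fin t → ZMod 2) => cp F m (t + 1) (ex x z)

variable {F : (t : ℕ) → Dta R t → ℝ}

theorem cp_avg (m : ℕ) : ∀ t n : ℕ, n = t + m → avg (cp F m t) = avg (F n) := by
  induction m with
  | zero =>
    intro t n h
    rw [add_zero] at h
    subst h
    rfl
  | succ m ih =>
    intro t n h
    rw [← ih (t + 1) n (by omega), ← avg_equiv (exE t)]
    exact (avg_prod (fun w : Dta R t × (Lb R × (Fin t → ZMod 2)) =>
      cp F m (t + 1) (exE t w))).symm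

theorem cp_nonneg (hF : ∀ t x, 0 ≤ F t x) (m : ℕ) : ∀ t x, 0 ≤ cp F m t x := by
  induction m with
  | zero => exact hF
  | succ m ih =>
    intro t x
    exact avg_nonneg fun z => ih _ _

theorem cp_le (hF : ∀ t x, 0 ≤ F t x) (m t : ℕ) (x : Dta R t) :
    cp F m t x ≤ (Fintype.card (Dta R t) : ℝ) * avg (F (t + m)) := by
  rw [← cp_avg m t (t + m) rfl]
  unfold avg
  have h0 : (0 : ℝ) < Fintype.card (Dta R t) := by
    exact_mod_cast Fintype.card_pos_iff.2 ⟨x⟩
  rw [mul_div_cancel₀ _ h0.ne']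
  exact Finset.single_le_sum (fun y _ => cp_nonneg hF m t y) (Finset.mem_univ x)

theorem summable_cp (hF : ∀ t x, 0 ≤ F t x) (hs : Summable fun n => avg (F n)) (t : ℕ)
    (x : Dta R t) : Summable fun m => cp F m t x := by
  refine Summable.of_nonneg_of_le (fun m => cp_nonneg hF m t x) (fun m => cp_le hF m t x) ?_
  refine Summable.mul_left _ ?_
  exact hs.comp_injective (fun a b h => Nat.add_left_cancel h)

/-- the potential -/
noncomputable def ph (F : (t : ℕ) → Dta R t → ℝ) (K t : ℕ) (x : Dta R t) : ℝ :=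
  ∑' m, if K ≤ t + m then cp F m t x else 0

theorem summable_ph (hF : ∀ t x, 0 ≤ F t x) (hs : Summable fun n => avg (F n)) (K t : ℕ)
    (x : Dta R t) : Summable fun m => if K ≤ t + m then cp F m t x else 0 := by
  refine Summable.of_nonneg_of_le (fun m => ?_) (fun m => ?_) (summable_cp hF hs t x)
  · split_ifs
    · exact cp_nonneg hF m t x
    · exact le_rfl
  · split_ifs
    · exact le_rfl
    · exact cp_nonneg hF m t x

theorem ph_nonneg (hF : ∀ t x, 0 ≤ F t x) (K t : ℕ) (x : Dta R t) : 0 ≤ ph F K t x := by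
  refine tsum_nonneg fun m => ?_
  split_ifs
  · exact cp_nonneg hF m t x
  · exact le_rfl

theorem ph_step (hF : ∀ t x, 0 ≤ F t x) (hs : Summable fun n => avg (F n)) (K t : ℕ)
    (x : Dta R t) :
    avg (fun z : Lb R × (Fin t → ZMod 2) => ph F K (t + 1) (ex x z)) ≤ ph F K t x := by
  have h1 : avg (fun z : Lb R × (Fin t → ZMod 2) => ph F K (t + 1) (ex x z)) =
      ∑' m, if K ≤ t + (m + 1) then cp F (m + 1) t x else 0 := by
    unfold avg ph
    rw [← Summable.tsum_finsetSum (fun z _ => summable_ph hF hs K (t + 1) (ex x z)),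
      ← tsum_div_const]
    congr 1
    funext m
    by_cases h : K ≤ t + (m + 1)
    · have h' : K ≤ t + 1 + m := by omega
      simp only [if_pos h, if_pos h']
      rfl
    · have h' : ¬ K ≤ t + 1 + m := by omega
      simp only [if_neg h, if_neg h']
      rw [Finset.sum_const_zero, zero_div]
  rw [h1]
  unfold ph
  rw [(summable_ph hF hs K t x).tsum_eq_zero_add]
  refine le_add_of_nonneg_left ?_
  split_ifs
  · exact cp_nonneg hF 0 t x
  · exact le_rfl

theorem ph_self (hF : ∀ t x, 0 ≤ F t x) (hs : Summable fun n => avg (F n)) {K t : ℕ} (h : K ≤ t)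
    (x : Dta R t) : F t x ≤ ph F K t x := by
  unfold ph
  rw [(summable_ph hF hs K t x).tsum_eq_zero_add, if_pos (by omega : K ≤ t + 0)]
  show F t x ≤ F t x + _
  refine le_add_of_nonneg_right (tsum_nonneg fun m => ?_)
  split_ifs
  · exact cp_nonneg hF _ t x
  · exact le_rfl

theorem ph_small (hF : ∀ t x, 0 ≤ F t x) (hs : Summable fun n => avg (F n)) (t : ℕ)
    (x : Dta R t) {δ : ℝ} (hδ : 0 < δ) : ∃ K, ph F K t x < δ := by
  have h1 := (tendsto_sum_nat_add fun m => cp F m t x).eventually (gt_mem_nhds hδ)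
  obtain ⟨j, hj⟩ := h1.exists
  refine ⟨t + j, ?_⟩
  refine lt_of_eq_of_lt ?_ hj
  unfold ph
  rw [← (summable_ph hF hs (t + j) t x).sum_add_tsum_nat_add j]
  have h2 : ∑ m ∈ range j, (if t + j ≤ t + m then cp F m t x else 0) = 0 := by
    refine Finset.sum_eq_zero fun m hm => ?_
    rw [if_neg]
    have := Finset.mem_range.1 hm
    omega
  rw [h2, zero_add]
  congr 1
  funext m
  rw [if_pos (by omega)]

end

end Q155.KG
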