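import Pool.Agent.Q155.KG.MainQ
import Pool.Agent.Q283.GM.Sel4
import Pool.Agent.Q283.GM.X49

/-!
# The twists of `X_0(49)`
-/

set_option autoImplicit false
set_option linter.unusedSectionVars false

namespace Q155.KG

open Finset Matrix
open Q155.KT (kz)
open Q283.GW (CF PA QA ρ49 C4)
open Q283.GM (rk)
open Q283.XF (nf)
open Pool.Agent.Y698.SG (mat)
open Pool.Agent.Y698.SG.Cv (WF)
open scoped Classical

theorem kz_rank {n : Type} [Fintype n] [DecidableEq n] (N : Matrix n n (ZMod 2)) :
    kz N = 2 ^ Module.finrank (ZMod 2) (LinearMap.ker N.mulVecLin) := by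
  have h1 : kz N = Nat.card (LinearMap.ker N.mulVecLin) := by
    unfold kz
    refine Nat.card_congr (Equiv.subtypeEquivRight fun x => ?_)
    rw [LinearMap.mem_ker, Matrix.mulVecLin_apply]
  rw [h1, Nat.card_eq_fintype_card, Module.card_eq_pow_finrank (K := ZMod 2), ZMod.card]

theorem ad_iff (D : ℕ) : Ad D ↔ C4 D := Iff.rfl

theorem A_iff {p : ℕ} (h : P1 p) : ρ49.Φ.A p ↔ Sq p := by
  constructor
  · intro h1
    exact (Q283.GW.spl_A h1).sq
  · intro h1
    by_contra h3
    exact (Q283.GW.inq_B h.1 h.2 h3).ns h1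

theorem bs_eq {D : ℕ} (hD : Ad D) : bs D = (QA D.primeFactors, PA D.primeFactors) := by
  refine Prod.ext ?_ ?_
  · refine Finset.filter_congr fun p hp => ?_
    rw [A_iff (hD.2 p hp)]
  · refine Finset.filter_congr fun p hp => ?_
    rw [A_iff (hD.2 p hp)]

/-- the size of the kernel in terms of the corank -/
theorem kn_rk {D : ℕ} (hD : Ad D) : kn D = 2 ^ rk ρ49.Φ nf D.primeFactors := by
  have key : ∀ B : Bs, B = (QA D.primeFactors, PA D.primeFactors) →
      kz (mat B.1 B.2) = 2 ^ Module.finrank (ZMod 2)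
        (LinearMap.ker (mat (QA D.primeFactors) (PA D.primeFactors)).mulVecLin) := by
    rintro _ rfl
    exact kz_rank _
  rw [Q283.GW.rk_eq]
  exact key _ (bs_eq hD)

end Q155.KG
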