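import Pool.Agent.Q155.KT.Lab
import Pool.Agent.Q283.XF.MatD

/-!
# The densities of the labels in the classes of primes

The general form of the two densities of `Q283.XF.Main`.
-/

set_option autoImplicit false
set_option linter.style.haveILetI false
set_option linter.unusedSectionVars false

namespace Q155.KG

open NumberField Filter Topology Finset Pool.Agent.W401.Cheb
open Q283.TW (ng nrp bord card_pairs prop dens_of)
open Q283.XF (nf Cl1 Cl2 Cl3 Base Dat exists_dat hgood ratio_lim)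

open scoped Classical in
/-- **The density for the split primes**, general predicate. -/
theorem split_gen {R S : Finset ℕ} {r : ℕ} (hb : Base R r) (n : ℕ) (hS : S ⊆ R)
    (P : (S → ZMod 2) × ZMod 2 → Prop) (T : ℕ → Prop)
    (hT : ∀ p, Cl1 r n p → p ∉ R → (T p ↔ P (fun q : S => nrp p q,
      ∑ q ∈ R, nrp p q + nf p))) :
    Tendsto (fun X : ℕ => (((range (X + 1)).filter fun p => Cl1 r n p ∧ T p).card : ℝ) /
      (((range (X + 1)).filter fun p => Cl1 r n p).card : ℝ)) atTop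
      (𝓝 ((Nat.card {x : (S → ZMod 2) × ZMod 2 // P x} : ℝ) / 2 ^ (Fintype.card S + 1))) := by
  haveI : NeZero r := ⟨hb.hr.ne_zero⟩
  obtain ⟨L, hL, hN, hG, ⟨E⟩⟩ := exists_dat hb
  set C : Set Gal(L/ℚ) := {g | ∃ h : g ∈ E.G1 n, P (Multiplicative.toAdd (E.Ψ hb n hS ⟨g, h⟩))}
    with hC
  have hD0 : 0 < 14 * r * ∏ q ∈ R, q := by
    have h1 : 0 < ∏ q ∈ R, q := Finset.prod_pos fun q hq => (hb.hR q hq).1.pos
    have h2 := hb.hr.pos
    positivity
  have hCcard : Nat.card C = Nat.card {g : E.G1 n // P (Multiplicative.toAdd (E.Ψ hb n hS g))} := by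
    refine Nat.card_congr
      { toFun := fun x => ⟨⟨x.1, x.2.1⟩, x.2.2⟩
        invFun := fun x => ⟨x.1.1, x.1.2, x.2⟩
        left_inv := fun x => rfl
        right_inv := fun x => rfl }
  have hlim := ratio_lim (L := L) C (E.G1 n : Set Gal(L/ℚ)) (Cl1 r n) T (fun p h => h.1)
    (14 * r * ∏ q ∈ R, q) hD0 (by
      intro p hp hpd φ g hφ
      obtain ⟨h2, h7, hpr, hpR⟩ := hgood hpd
      exact (E.frob_facts hb n h2 h7 hpr hpR hφ).1) (by
      intro p hp hpd φ g hφ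
      obtain ⟨h2, h7, hpr, hpR⟩ := hgood hpd
      obtain ⟨f1, -, f2, -, f3⟩ := E.frob_facts hb n h2 h7 hpr hpR hφ
      have key : ∀ hsp : Cl1 r n p, (T p ↔ P (Multiplicative.toAdd
          (E.Ψ hb n hS ⟨g, f1.1 hsp⟩))) := by
        intro hsp
        rw [hT p hsp hpR]
        have e1 : (fun q : S => nrp p q) = fun q : S => ng g (E.s ((q : ℕ) : ℤ)) := by
          funext q
          exact f2 q (hS q.2)
        have e2 : ∑ q ∈ R, nrp p q + nf p = E.dg g := by
          unfold Dat.dg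
          rw [f3 hsp, Finset.sum_congr rfl f2]
        rw [e1, e2]
        exact Iff.rfl
      constructor
      · rintro ⟨hsp, hTp⟩
        exact ⟨f1.1 hsp, (key hsp).1 hTp⟩
      · rintro ⟨hg, hPg⟩
        exact ⟨f1.2 hg, (key (f1.2 hg)).2 hPg⟩) (by
      show 0 < Nat.card (E.G1 n)
      exact Nat.card_pos)
  have hval : (Nat.card C : ℝ) / (Nat.card (E.G1 n : Set Gal(L/ℚ)) : ℝ) =
      (Nat.card {x : (S → ZMod 2) × ZMod 2 // P x} : ℝ) / 2 ^ (Fintype.card S + 1) := by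
    have h1 := E.ratio hb n hS P
    have h2 : (Nat.card (E.G1 n : Set Gal(L/ℚ)) : ℝ) = Nat.card (E.G1 n) := rfl
    rw [hCcard, h2, h1]
  rw [hval] at hlim
  exact hlim

open scoped Classical in
/-- **The density for the inert primes**, general predicate. -/
theorem inert_gen {R S : Finset ℕ} {r : ℕ} (hb : Base R r) (n : ℕ) (hS : S ⊆ R)
    (P : (S → ZMod 2) → Prop) (T : ℕ → Prop)
    (hT : ∀ p, Cl3 r n p → p ∉ R → (T p ↔ P fun q : S => nrp p q)) :
    Tendsto (fun X : ℕ => (((range (X + 1)).filter fun p => Cl3 r n p ∧ T p).card : ℝ) /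
      (((range (X + 1)).filter fun p => Cl3 r n p).card : ℝ)) atTop
      (𝓝 ((Nat.card {x : S → ZMod 2 // P x} : ℝ) / 2 ^ (Fintype.card S))) := by
  haveI : NeZero r := ⟨hb.hr.ne_zero⟩
  obtain ⟨L, hL, hN, hG, ⟨E⟩⟩ := exists_dat hb
  set C₀ : Set Gal(L/ℚ) := {g | ∃ h : g ∈ E.G2 n,
    (Multiplicative.toAdd (E.Φ hb n hS ⟨g, h⟩)).2 = 1} with hC₀
  set C : Set Gal(L/ℚ) := {g | ∃ h : g ∈ E.G2 n,
    (Multiplicative.toAdd (E.Φ hb n hS ⟨g, h⟩)).2 = 1 ∧
      P (Multiplicative.toAdd (E.Φ hb n hS ⟨g, h⟩)).1} with hC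
  have hD0 : 0 < 14 * r * ∏ q ∈ R, q := by
    have h1 : 0 < ∏ q ∈ R, q := Finset.prod_pos fun q hq => (hb.hR q hq).1.pos
    have h2 := hb.hr.pos
    positivity
  have hCcard : Nat.card C = Nat.card {g : E.G2 n //
      (Multiplicative.toAdd (E.Φ hb n hS g)).2 = 1 ∧
        P (Multiplicative.toAdd (E.Φ hb n hS g)).1} := by
    refine Nat.card_congr
      { toFun := fun x => ⟨⟨x.1, x.2.1⟩, x.2.2⟩
        invFun := fun x => ⟨x.1.1, x.1.2, x.2⟩
        left_inv := fun x => rfl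
        right_inv := fun x => rfl }
  have hC0card : Nat.card C₀ = Nat.card {g : E.G2 n //
      (Multiplicative.toAdd (E.Φ hb n hS g)).2 = 1} := by
    refine Nat.card_congr
      { toFun := fun x => ⟨⟨x.1, x.2.1⟩, x.2.2⟩
        invFun := fun x => ⟨x.1.1, x.1.2, x.2⟩
        left_inv := fun x => rfl
        right_inv := fun x => rfl }
  have key0 : ∀ (p : ℕ) [Fact p.Prime], ¬ p ∣ 14 * r * ∏ q ∈ R, q →
      ∀ (φ : 𝓞 L →+* AlgebraicClosure (ZMod p)) (g : Gal(L/ℚ)), HasFrob p φ g →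
      (Cl3 r n p ↔ g ∈ C₀) := by
    intro p hp hpd φ g hφ
    obtain ⟨h2, h7, hpr, hpR⟩ := hgood hpd
    obtain ⟨-, f1, -, f4, -⟩ := E.frob_facts hb n h2 h7 hpr hpR hφ
    have f5 : ¬ IsSquare (-7 : ZMod p) ↔ ng g (E.θ ^ 2) = 1 := by
      rw [f4]
      unfold ng
      by_cases hc : g (E.θ ^ 2) = E.θ ^ 2
      · rw [if_pos hc]
        exact ⟨fun h => absurd hc h, fun h => absurd h zero_ne_one⟩
      · rw [if_neg hc]
        exact ⟨fun _ => rfl, fun _ => hc⟩
    constructor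
    · rintro ⟨ha, ha4, hb, hne, hy⟩
      exact ⟨f1.1 ⟨ha, ha4, hy⟩, f5.1 hb⟩
    · rintro ⟨ha, hb⟩
      obtain ⟨a1, a2, a3⟩ := f1.2 ha
      exact ⟨a1, a2, f5.2 hb, hpr, a3⟩
  have hlim := ratio_lim (L := L) C C₀ (Cl3 r n) T
    (fun p h => h.1) (14 * r * ∏ q ∈ R, q) hD0 key0 (by
      intro p hp hpd φ g hφ
      obtain ⟨h2, h7, hpr, hpR⟩ := hgood hpd
      have k0 := key0 p hpd φ g hφ
      obtain ⟨-, f1, f2, f4, -⟩ := E.frob_facts hb n h2 h7 hpr hpR hφ
      have key : ∀ (hsp : Cl3 r n p),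
          (T p ↔ P (Multiplicative.toAdd (E.Φ hb n hS ⟨g, f1.1 ⟨hsp.1, hsp.2.1, hsp.2.2.2.2⟩⟩)).1) := by
        intro hsp
        rw [hT p hsp hpR]
        have e1 : (fun q : S => nrp p q) = fun q : S => ng g (E.s ((q : ℕ) : ℤ)) := by
          funext q
          exact f2 q (hS q.2)
        rw [e1]
        exact Iff.rfl
      constructor
      · rintro ⟨hsp, hTp⟩
        obtain ⟨a1, a2⟩ := k0.1 hsp
        exact ⟨a1, a2, (key hsp).1 hTp⟩
      · rintro ⟨hg, a2, hPg⟩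
        have hsp := k0.2 ⟨hg, a2⟩
        exact ⟨hsp, (key hsp).2 hPg⟩) (by
      have hsur := E.surj' hb n hS
      obtain ⟨g, hg⟩ := hsur (Multiplicative.ofAdd (0, 1))
      have : Nonempty C₀ := ⟨⟨g.1, g.2, by
        show (Multiplicative.toAdd (E.Φ hb n hS g)).2 = 1
        rw [hg]; rfl⟩⟩
      exact Nat.card_pos)
  have hval : (Nat.card C : ℝ) / (Nat.card C₀ : ℝ) =
      (Nat.card {x : S → ZMod 2 // P x} : ℝ) / 2 ^ (Fintype.card S) := by
    have h1 := E.ratio' hb n hS P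
    rw [hCcard, hC0card, h1]
  rw [hval] at hlim
  exact hlim

end Q155.KG
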