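import Pool.Agent.Q155.KG.Cls

/-!
# Half of the primes which are `1` modulo `4` split in `ℚ(√-7)`
-/

set_option autoImplicit false
set_option linter.style.haveILetI false
set_option linter.unusedSectionVars false

namespace Q155.KG

open NumberField Filter Topology Finset Pool.Agent.W401.Cheb
open Q283.TW (ng nrp card_pairs)
open Q283.XF (nf Cl1 Cl2 Cl3 Base Dat exists_dat hgood ratio_lim)

/-- the primes `1` modulo `4` -/
def P1 (p : ℕ) : Prop := p.Prime ∧ p % 4 = 1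

/-- `p` splits in `ℚ(√-7)` -/
def Sq (p : ℕ) : Prop := IsSquare (-7 : ZMod p)

theorem cl1_iff (p : ℕ) : Cl1 3 0 p ↔ P1 p ∧ Sq p := by
  unfold Cl1 P1 Sq
  constructor
  · rintro ⟨h1, h2, h3, -⟩
    exact ⟨⟨h1, h2⟩, h3⟩
  · rintro ⟨⟨h1, h2⟩, h3⟩
    exact ⟨h1, h2, h3, (p : ZMod 3), by rw [pow_zero, pow_one]⟩

theorem cl2_iff (p : ℕ) : Cl2 3 0 p ↔ P1 p := by
  unfold Cl2 P1
  constructor
  · rintro ⟨h1, h2, -⟩
    exact ⟨h1, h2⟩
  · rintro ⟨h1, h2⟩
    exact ⟨h1, h2, (p : ZMod 3) ^ 2, by rw [pow_zero, pow_one]⟩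

theorem cl3_iff (p : ℕ) : Cl3 3 0 p ↔ P1 p ∧ ¬ Sq p := by
  unfold Cl3 P1 Sq
  constructor
  · rintro ⟨h1, h2, h3, -⟩
    exact ⟨⟨h1, h2⟩, h3⟩
  · rintro ⟨⟨h1, h2⟩, h3⟩
    exact ⟨h1, h2, h3, by omega, (p : ZMod 3) ^ 2, by rw [pow_zero, pow_one]⟩

theorem base3 {R : Finset ℕ} (hR : ∀ q ∈ R, q.Prime ∧ q % 4 = 1) : Base R 3 := by
  refine ⟨by norm_num, by norm_num, by norm_num, ?_, ?_⟩
  · intro h
    have := (hR 3 h).2
    omega
  · intro q hq
    obtain ⟨h1, h2⟩ := hR q hq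
    exact ⟨h1, by omega, by omega⟩

section
variable {L : Type} [Field L] [NumberField L] [IsGalois ℚ L] (E : Dat L ∅ 3) [NeZero 3]

theorem index_two (hb : Base ∅ 3) :
    (Nat.card (E.G1 0) : ℝ) / (Nat.card (E.G2 0) : ℝ) = 1 / 2 := by
  have hsur := E.surj' hb 0 (subset_refl (∅ : Finset ℕ))
  set Φ := E.Φ hb 0 (subset_refl (∅ : Finset ℕ)) with hΦ
  have h1 := card_fib Φ (fun b => (Multiplicative.toAdd b).2 = 0) (fun b _ => hsur b)
  have h2 := card_fib Φ (fun _ => True) (fun b _ => hsur b)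
  have h3 : Nat.card {a : E.G2 0 // True} = Nat.card (E.G2 0) :=
    Nat.card_congr (Equiv.subtypeUnivEquiv fun _ => trivial)
  have h4 : Nat.card {b : Multiplicative (((∅ : Finset ℕ) → ZMod 2) × ZMod 2) // True} = 2 := by
    have := card_pairs (n := (∅ : Finset ℕ))
    rw [Fintype.card_coe, Finset.card_empty, zero_add, pow_one] at this
    exact (Nat.card_congr (Equiv.subtypeUnivEquiv
      (α := Multiplicative (((∅ : Finset ℕ) → ZMod 2) × ZMod 2)) fun _ => trivial)).trans this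
  have h5 : Nat.card {b : Multiplicative (((∅ : Finset ℕ) → ZMod 2) × ZMod 2) //
      (Multiplicative.toAdd b).2 = 0} = 1 := by
    have e : {b : Multiplicative (((∅ : Finset ℕ) → ZMod 2) × ZMod 2) //
        (Multiplicative.toAdd b).2 = 0} ≃ ((∅ : Finset ℕ) → ZMod 2) :=
      { toFun := fun b => (Multiplicative.toAdd b.1).1
        invFun := fun v => ⟨Multiplicative.ofAdd (v, 0), rfl⟩
        left_inv := by
          rintro ⟨b, hb⟩
          apply Subtype.ext
          show Multiplicative.ofAdd ((Multiplicative.toAdd b).1, (0 : ZMod 2)) = b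
          rw [← hb]
          rfl
        right_inv := fun v => rfl }
    rw [Nat.card_congr e]
    exact Nat.card_unique
  have h6 : Nat.card (E.G1 0) = Nat.card {a : E.G2 0 // (Multiplicative.toAdd (Φ a)).2 = 0} := by
    have hng : ∀ g : Gal(L/ℚ), ng g (E.θ ^ 2) = 0 ↔ g (E.θ ^ 2) = E.θ ^ 2 := by
      intro g
      unfold ng
      by_cases hc : g (E.θ ^ 2) = E.θ ^ 2
      · rw [if_pos hc]
        exact ⟨fun _ => hc, fun _ => rfl⟩
      · rw [if_neg hc]
        exact ⟨fun h => absurd h.symm zero_ne_one, fun h => absurd h hc⟩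
    refine Nat.card_congr
      { toFun := fun g => ⟨⟨g.1, ?_⟩, ?_⟩
        invFun := fun g => ⟨g.1.1, ?_⟩
        left_inv := fun _ => rfl
        right_inv := fun _ => rfl }
    · rw [E.mem_G2]
      refine ⟨(E.mem_G1.1 g.2).1, E.χ g.1 ^ 2, by rw [pow_zero, pow_one]⟩
    · exact (hng g.1).2 (E.mem_G1.1 g.2).2.1
    · rw [E.mem_G1]
      exact ⟨(E.mem_G2.1 g.1.2).1, (hng g.1.1).1 g.2, E.χ g.1.1, by rw [pow_zero, pow_one]⟩
  rw [h3, h4] at h2
  rw [h5, mul_one] at h1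
  rw [h6, h1, h2]
  have hk : 0 < Nat.card Φ.ker := Nat.card_pos
  push_cast
  have hk' : (Nat.card Φ.ker : ℝ) ≠ 0 := by positivity
  field_simp

end

open scoped Classical in
/-- the primes of a class up to `X` -/
noncomputable def ps (A : ℕ → Prop) (X : ℕ) : Finset ℕ := (range (X + 1)).filter fun p => A p

theorem half_split : Tendsto (fun X : ℕ => ((ps (Cl1 3 0) X).card : ℝ) / ((ps P1 X).card : ℝ)) atTop
    (𝓝 (1 / 2)) := by
  classical
  have hb : Base (∅ : Finset ℕ) 3 := base3 (by simp)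
  obtain ⟨L, hL, hN, hG, ⟨E⟩⟩ := exists_dat hb
  have hlim := ratio_lim (L := L) (E.G1 0 : Set Gal(L/ℚ)) (E.G2 0 : Set Gal(L/ℚ)) P1 Sq
    (fun p h => h.1) (14 * 3 * ∏ q ∈ (∅ : Finset ℕ), q) (by norm_num) (by
      intro p hp hpd φ g hφ
      obtain ⟨h2, h7, hpr, hpR⟩ := hgood hpd
      rw [← cl2_iff]
      exact (E.frob_facts hb 0 h2 h7 hpr hpR hφ).2.1) (by
      intro p hp hpd φ g hφ
      obtain ⟨h2, h7, hpr, hpR⟩ := hgood hpd
      rw [← cl1_iff]
      exact (E.frob_facts hb 0 h2 h7 hpr hpR hφ).1) (by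
      show 0 < Nat.card (E.G2 0)
      exact Nat.card_pos)
  have hval : (Nat.card (E.G1 0 : Set Gal(L/ℚ)) : ℝ) / (Nat.card (E.G2 0 : Set Gal(L/ℚ)) : ℝ) =
      1 / 2 := index_two E hb
  rw [hval] at hlim
  refine hlim.congr fun X => ?_
  have e1 : ps (Cl1 3 0) X = (range (X + 1)).filter fun p => P1 p ∧ Sq p := by
    unfold ps
    refine Finset.filter_congr fun p _ => ?_
    exact cl1_iff p
  rw [e1]
  unfold ps
  congr

theorem half_inert : Tendsto (fun X : ℕ => ((ps (Cl3 3 0) X).card : ℝ) / ((ps P1 X).card : ℝ)) atTop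
    (𝓝 (1 / 2)) := by
  classical
  have h1 := half_split
  have h2 : Tendsto (fun X : ℕ => 1 - ((ps (Cl1 3 0) X).card : ℝ) / ((ps P1 X).card : ℝ)) atTop
      (𝓝 (1 - 1 / 2)) := tendsto_const_nhds.sub h1
  have e : (1 : ℝ) - 1 / 2 = 1 / 2 := by norm_num
  rw [e] at h2
  refine h2.congr' ?_
  filter_upwards [eventually_ge_atTop 5] with X hX
  have h0 : (0 : ℝ) < ((ps P1 X).card : ℝ) := by
    have : 5 ∈ ps P1 X := by
      unfold ps
      rw [Finset.mem_filter, Finset.mem_range]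
      exact ⟨by omega, by norm_num, rfl⟩
    exact_mod_cast Finset.card_pos.2 ⟨5, this⟩
  have h3 : (ps P1 X).card = (ps (Cl1 3 0) X).card + (ps (Cl3 3 0) X).card := by
    have e1 : ps (Cl1 3 0) X = (ps P1 X).filter Sq := by
      ext p
      unfold ps
      simp only [Finset.mem_filter, cl1_iff]
      tauto
    have e2 : ps (Cl3 3 0) X = (ps P1 X).filter fun p => ¬ Sq p := by
      ext p
      unfold ps
      simp only [Finset.mem_filter, cl3_iff]
      tauto
    rw [e1, e2, Finset.card_filter_add_card_filter_not]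
  rw [h3]
  rw [h3] at h0
  push_cast at h0 ⊢
  field_simp
  ring

end Q155.KG
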