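import Pool.Agent.Q283.GM.BQ
import Pool.Agent.Q283.J2.Lfun
import Pool.Agent.Q155.KG.Crv

/-!
# The L-functions over `ℚ` of all the twists of `X_0(49)` of the class
-/

set_option autoImplicit false
set_option linter.unusedSectionVars false

namespace Q155.KG

open WeierstrassCurve Finset
open Pool.Agent.Y698
open Pool.Agent.Y698.SG (Spl Gp mat inp val_quad' val_quad0)
open Q283.J2 (fac fac_two fac_three prod_norm card_pts)
open W165.CE (pw)
open Pool.Agent.TH936.PU Pool.Agent.TH936.CM H667R3 Pool.Agent.W192.HK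

/-- the L-function, with the Euler factors at all the primes -/
theorem exists_F0 {Q P : Finset ℕ} (hQ : ∀ q ∈ Q, Inq q) (hP : ∀ p ∈ P, Spl p) :
    ∃ F : ℂ → ℂ, Differentiable ℂ F ∧ (∀ z : ℂ, 3 / 2 < z.re → HasProd (fun p : Nat.Primes =>
      EF (∏ q ∈ Q ∪ P, qch q (p : ℕ)) z p) (F z)) := by
  by_cases hdet : (mat Q P).det = 0
  · obtain ⟨F, h1, h2, -⟩ := val_quad0 inp Pool.Agent.Y21.SG.t_NSI hQ hP hdet
    exact ⟨F, h1, h2⟩
  · obtain ⟨F, h1, h2, -⟩ := val_quad' inp hQ hP hdet
    exact ⟨F, h1, h2⟩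

/-- **the L-function over `ℚ`, for all the members of the class** -/
theorem lfun_all {Q P : Finset ℕ} {j : ℕ} (hQ : ∀ q ∈ Q, Inq q) (hP : ∀ p ∈ P, Spl p)
    (hj : ∏ q ∈ Q ∪ P, q = 1 + 4 * j) :
    ∃ F : ℂ → ℂ, Pool.Agent.Y19.QT.IsLFun (-2835 * ((1 + 4 * j : ℕ) : ℤ) ^ 2)
      (-71442 * ((1 + 4 * j : ℕ) : ℤ) ^ 3) F := by
  classical
  obtain ⟨F, hF, hprod⟩ := exists_F0 hQ hP
  set S := Q ∪ P with hS
  have hSg : ∀ q ∈ S, Gp q := by
    intro q hq
    rcases Finset.mem_union.1 hq with h | h
    · exact Gp.of_inq (hQ q h)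
    · exact Gp.of_spl (hP q h)
  set χ : ℕ → ℂ := fun n => ∏ q ∈ S, qch q (n : ℤ) with hχ
  have hDZ : ((1 + 4 * j : ℕ) : ℤ) ≠ 0 := by
    rw [Nat.cast_ne_zero]
    omega
  have edisc : 2 * (-4 * (-2835 * ((1 + 4 * j : ℕ) : ℤ) ^ 2) ^ 3 -
      27 * (-71442 * ((1 + 4 * j : ℕ) : ℤ) ^ 3) ^ 2) =
      -(2 ^ 9 * 3 ^ 12 * 7 ^ 3 * ((1 + 4 * j : ℕ) : ℤ) ^ 6) := by ring
  have hdvd : ∀ p : ℕ, p.Prime → (((p : ℤ) ∣ 2 * (-4 * (-2835 * ((1 + 4 * j : ℕ) : ℤ) ^ 2) ^ 3 -
      27 * (-71442 * ((1 + 4 * j : ℕ) : ℤ) ^ 3) ^ 2)) ↔ (p = 2 ∨ p = 3 ∨ p = 7 ∨ p ∈ S)) := by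
    intro p hp
    have hpZ : Prime (p : ℤ) := Nat.prime_iff_prime_int.1 hp
    have hpd : ∀ m : ℕ, m.Prime → ∀ k : ℕ, k ≠ 0 → ((p : ℤ) ∣ (m : ℤ) ^ k ↔ p = m) := by
      intro m hm k hk
      rw [Prime.dvd_pow_iff_dvd hpZ hk]
      constructor
      · intro h
        exact (Nat.prime_dvd_prime_iff_eq hp hm).1 (by exact_mod_cast h)
      · rintro rfl
        exact dvd_rfl
    have h1 : (p : ℤ) ∣ 2 ^ 9 ↔ p = 2 := hpd 2 Nat.prime_two 9 (by norm_num)
    have h2 : (p : ℤ) ∣ 3 ^ 12 ↔ p = 3 := hpd 3 Nat.prime_three 12 (by norm_num)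
    have h3 : (p : ℤ) ∣ 7 ^ 3 ↔ p = 7 := hpd 7 (by norm_num) 3 (by norm_num)
    have h4 : (p : ℤ) ∣ ((1 + 4 * j : ℕ) : ℤ) ^ 6 ↔ p ∈ S := by
      rw [Prime.dvd_pow_iff_dvd hpZ (by norm_num), Int.natCast_dvd_natCast, ← hj,
        Prime.dvd_finsetProd_iff hp.prime]
      constructor
      · rintro ⟨q, hq, hd⟩
        rwa [(Nat.prime_dvd_prime_iff_eq hp (hSg q hq).pr).1 hd]
      · intro h
        exact ⟨p, h, dvd_rfl⟩
    rw [edisc, dvd_neg, hpZ.dvd_mul, hpZ.dvd_mul, hpZ.dvd_mul]
    rw [h1, h2, h3, h4]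
    tauto
  refine ⟨fun s => F s * (fac (χ 2) s 2 * fac (χ 3) s 3), ?_, ?_⟩
  · have hd : ∀ p : ℕ, 0 < p → Differentiable ℂ fun s : ℂ => (p : ℂ) ^ (-s) := by
      intro p hp s
      exact (differentiableAt_id.neg).const_cpow (Or.inl (by exact_mod_cast hp.ne'))
    have hd2 := hd 2 (by norm_num)
    have hd3 := hd 3 (by norm_num)
    unfold fac
    exact hF.mul (((((differentiable_const _).sub ((hd2.const_mul _).const_mul _)).add
      (((hd2.const_mul _).pow 2).const_mul _))).mul ((((differentiable_const _).sub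
        ((hd3.const_mul _).const_mul _)).add (((hd3.const_mul _).pow 2).const_mul _))))
  · intro s hs
    set g : ℕ → ℂ := fun n => if n.Prime then EF (χ n) s n else 1 with hg
    have hg1 : HasProd g (F s) := by
      have hinj : Function.Injective (fun p : Nat.Primes => (p : ℕ)) := Subtype.val_injective
      rw [← hinj.hasProd_iff]
      · have h0 := hprod s hs
        have e : (g ∘ fun p : Nat.Primes => (p : ℕ)) =
            fun p : Nat.Primes => EF (∏ q ∈ S, qch q (p : ℕ)) s p := by
          funext p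
          exact if_pos p.2
        rw [e]
        exact h0
      · intro x hx
        rw [hg]
        simp only
        rw [if_neg]
        intro h
        exact hx ⟨⟨x, h⟩, rfl⟩
    set h : ℕ → ℂ := fun n => if n = 2 ∨ n = 3 then fac (χ n) s n else 1 with hh
    have hh1 : HasProd h (fac (χ 2) s 2 * fac (χ 3) s 3) := by
      have h1 : HasProd h (∏ b ∈ ({2, 3} : Finset ℕ), h b) := by
        apply hasProd_prod_of_ne_finset_one
        intro b hb
        rw [hh]
        simp only
        rw [if_neg]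
        intro h2
        apply hb
        simp only [Finset.mem_insert, Finset.mem_singleton]
        exact h2
      rw [Finset.prod_pair (by norm_num)] at h1
      have e2 : h 2 = fac (χ 2) s 2 := if_pos (Or.inl rfl)
      have e3 : h 3 = fac (χ 3) s 3 := if_pos (Or.inr rfl)
      rw [e2, e3] at h1
      exact h1
    have hgh := hg1.mul hh1
    convert hgh using 1
    funext n
    by_cases hn : n.Prime
    · have : Fact n.Prime := ⟨hn⟩
      have hgn : g n = (fac (χ n) s n)⁻¹ := if_pos hn
      by_cases h23 : n = 2 ∨ n = 3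
      · have hhn : h n = fac (χ n) s n := if_pos h23
        rw [if_neg (by
          rintro ⟨-, h1⟩
          exact h1 ((hdvd n hn).2 (by tauto)))]
        rw [hgn, hhn, inv_mul_cancel₀]
        rcases h23 with rfl | rfl
        · exact fac_two hs (prod_norm _)
        · exact fac_three hs (prod_norm _)
      · have hhn : h n = 1 := if_neg h23
        rw [hgn, hhn, mul_one]
        rw [not_or] at h23
        by_cases h7 : n = 7
        · rw [if_neg (by
            rintro ⟨-, h1⟩
            exact h1 ((hdvd n hn).2 (by tauto)))]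
          have e1 : bc 7 = 0 := bc_seven 0
          have e2 : ec 7 = 0 := if_pos rfl
          rw [h7]
          unfold fac
          rw [e1, e2]
          simp
        · by_cases hnS : n ∈ S
          · rw [if_neg (by
              rintro ⟨-, h1⟩
              exact h1 ((hdvd n hn).2 (by tauto)))]
            have e1 : χ n = 0 := by
              rw [hχ]
              refine Finset.prod_eq_zero hnS ?_
              unfold qch
              have : jacobiSym (n : ℤ) n = 0 := by
                rw [jacobiSym.eq_zero_iff_not_coprime]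
                rw [Int.gcd_self]
                rw [Int.natAbs_natCast]
                exact hn.one_lt.ne'
              rw [this, Int.cast_zero]
            unfold fac
            rw [e1]
            simp
          · rw [if_pos ⟨hn, fun h1 => by
              rcases (hdvd n hn).1 h1 with h2 | h2 | h2 | h2
              · exact h23.1 h2
              · exact h23.2 h2
              · exact h7 h2
              · exact hnS h2⟩]
            have htr := Pool.Agent.Y698.SG.trace_tw (ZMod n) hn h7 one_ne_zero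
              (by rw [Nat.card_zmod, pow_one]) hSg hnS hj
            rw [card_pts h23.1 h23.2, Nat.card_zmod, pow_one] at htr
            have hpw : pw (bc n) (ec n) 1 = bc n := rfl
            rw [hpw] at htr
            push_cast at htr
            have hsq : (χ n) ^ 2 = 1 := by
              refine qprod_sq (fun q hq => (hSg q hq).pr) fun q hq hd => ?_
              have h1 : q ∣ n := by exact_mod_cast hd
              exact hnS (((Nat.prime_dvd_prime_iff_eq (hSg q hq).pr hn).1 h1) ▸ hq)
            have hec : ec n = (n : ℂ) := if_neg h7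
            unfold fac
            congr 1
            have e1 : bc n * (χ n * (n : ℂ) ^ (-s)) = (χ n * bc n) * (n : ℂ) ^ (-s) := by ring
            have hn0 : (n : ℂ) ≠ 0 := by exact_mod_cast hn.ne_zero
            have e2 : ec n * (χ n * (n : ℂ) ^ (-s)) ^ 2 = (n : ℂ) ^ (1 - 2 * s) := by
              rw [hec, mul_pow, hsq, one_mul, sub_eq_add_neg, Complex.cpow_add _ _ hn0,
                Complex.cpow_one]
              congr 1
              rw [pow_two, ← Complex.cpow_add _ _ hn0]
              congr 1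
              ring
            rw [e1, e2]
            have e3 : χ n * bc n = (n : ℂ) - (Nat.card {q : ZMod n × ZMod n //
                q.2 ^ 2 = q.1 ^ 3 + ((-2835 * ((1 + 4 * j : ℕ) : ℤ) ^ 2 : ℤ) : ZMod n) * q.1 +
                  ((-71442 * ((1 + 4 * j : ℕ) : ℤ) ^ 3 : ℤ) : ZMod n)} : ℂ) := by
              rw [hχ]
              push_cast
              exact htr.symm
            rw [e3]
    · have hgn : g n = 1 := if_neg hn
      have hhn : h n = 1 := by
        refine if_neg ?_
        rintro (rfl | rfl)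
        · exact hn Nat.prime_two
        · exact hn Nat.prime_three
      rw [hgn, hhn, mul_one, if_neg (by tauto)]

/-- the same for the members of the class -/
theorem lfun_C4 {D : ℕ} (hD : Ad D) :
    ∃ F : ℂ → ℂ, Pool.Agent.Y19.QT.IsLFun (-2835 * (D : ℤ) ^ 2) (-71442 * (D : ℤ) ^ 3) F := by
  have hC : Q283.GW.C4 D := hD
  obtain ⟨j, hj⟩ := hC.2.prod
  have hDj : D = 1 + 4 * j := by
    rw [← hj, Q283.GW.union_A, Nat.prod_primeFactors_of_squarefree hC.1]
  obtain ⟨F, hF⟩ := lfun_all (Q283.GW.QA_inq hC.2) (Q283.GW.PA_spl D.primeFactors) hj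
  rw [← hDj] at hF
  exact ⟨F, hF⟩

end Q155.KG
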