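import Pool.Agent.Q155.KT.Law

/-!
# Functions of the corank along the chain

A function `F` of the number `2 ^ c` of the elements of the kernel which changes by at most `2 ^ c` between
`c` and `c + 1` has a limit mean `ℓ` along the chain, and the distance of the mean after `k` steps from `ℓ`
is at most `2 ^ c / 2 ^ k`. For the indicator function of the corank `b` the limit is
`c2 / ((2 - 1) (4 - 1) ⋯ (2 ^ b - 1))`.
-/

set_option autoImplicit false
set_option linter.unusedSectionVars false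

namespace Q155.KG

open Finset Filter Topology
open Q155.KT
open Pool.Agent.Y703.CQ (c2)

/-- one step for functions of the corank -/
noncomputable def st (f : ℕ → ℝ) (c : ℕ) : ℝ :=
  (1 - (1 / 2 : ℝ) ^ c) * f (c - 1) + (1 / 2) ^ (c + 1) * (f c + f (c + 1))

/-- `k` steps -/
noncomputable def hf (f : ℕ → ℝ) : ℕ → ℕ → ℝ
  | 0 => f
  | k + 1 => st (hf f k)

theorem hf_zero (f : ℕ → ℝ) (c : ℕ) : hf f 0 c = f c := rfl

theorem hf_succ (f : ℕ → ℝ) (k c : ℕ) : hf f (k + 1) c =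
    (1 - (1 / 2 : ℝ) ^ c) * hf f k (c - 1) + (1 / 2) ^ (c + 1) * (hf f k c + hf f k (c + 1)) := rfl

theorem gF_eq (F : ℕ → ℝ) (k : ℕ) : ∀ c, gF F k (2 ^ c) = hf (fun c => F (2 ^ c)) k c := by
  induction k with
  | zero => intro c; rfl
  | succ k ih =>
    intro c
    rw [gF_succ, hf_succ]
    rcases c with _ | c
    · have e1 : 2 * 2 ^ 0 = 2 ^ (0 + 1) := by norm_num
      rw [e1, ih, ih]
      norm_num
    · have e1 : 2 ^ (c + 1) / 2 = 2 ^ c := by
        rw [pow_succ, Nat.mul_div_cancel _ (by norm_num)]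
      have e2 : 2 * 2 ^ (c + 1) = 2 ^ (c + 1 + 1) := by ring
      rw [e1, e2, ih, ih, ih, Nat.add_sub_cancel]
      have e3 : (1 : ℝ) / ((2 ^ (c + 1) : ℕ) : ℝ) = (1 / 2) ^ (c + 1) := by
        push_cast
        rw [one_div, one_div, inv_pow]
      have e4 : (1 : ℝ) / (2 * ((2 ^ (c + 1) : ℕ) : ℝ)) = (1 / 2) ^ (c + 1 + 1) := by
        push_cast
        rw [one_div, one_div, inv_pow, pow_succ (2 : ℝ) (c + 1), mul_comm]
      rw [e3, e4]

theorem hf_comm (f : ℕ → ℝ) (k : ℕ) : hf f (k + 1) = hf (st f) k := by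
  induction k with
  | zero => rfl
  | succ k ih =>
    show st (hf f (k + 1)) = st (hf (st f) k)
    rw [ih]

theorem hf_lin (f g h : ℕ → ℝ) (x y z : ℝ) (k : ℕ) : ∀ c,
    hf (fun c => x * f c + y * g c + z * h c) k c = x * hf f k c + y * hf g k c + z * hf h k c := by
  induction k with
  | zero => intro c; rfl
  | succ k ih =>
    intro c
    rw [hf_succ, hf_succ, hf_succ, hf_succ, ih, ih, ih]
    ring

theorem st_lip {f : ℕ → ℝ} {L : ℝ} (h : ∀ c, |f (c + 1) - f c| ≤ L * 2 ^ c) (c : ℕ) :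
    |st f (c + 1) - st f c| ≤ L / 2 * 2 ^ c := by
  have e : st f (c + 1) - st f c = (1 / 2) ^ (c + 2) * (f (c + 2) - f (c + 1)) +
      (1 - (1 / 2) ^ c) * (f c - f (c - 1)) := by
    unfold st
    rw [Nat.add_sub_cancel, pow_succ (1 / 2 : ℝ) (c + 1), pow_succ (1 / 2 : ℝ) c]
    ring
  rw [e]
  refine (abs_add_le _ _).trans ?_
  rw [abs_mul, abs_mul, abs_of_nonneg (by positivity : (0 : ℝ) ≤ (1 / 2) ^ (c + 2))]
  have h1 : (1 / 2 : ℝ) ^ c ≤ 1 := pow_le_one₀ (by norm_num) (by norm_num)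
  rw [abs_of_nonneg (by linarith : (0 : ℝ) ≤ 1 - (1 / 2) ^ c)]
  have h2 : (1 / 2 : ℝ) ^ (c + 2) * |f (c + 2) - f (c + 1)| ≤ L / 2 := by
    calc (1 / 2 : ℝ) ^ (c + 2) * |f (c + 2) - f (c + 1)| ≤ (1 / 2) ^ (c + 2) * (L * 2 ^ (c + 1)) :=
          mul_le_mul_of_nonneg_left (h (c + 1)) (by positivity)
      _ = L / 2 * ((1 / 2) ^ (c + 1) * 2 ^ (c + 1)) := by rw [pow_succ (1 / 2 : ℝ) (c + 1)]; ring
      _ = L / 2 := by rw [← mul_pow]; norm_num
  rcases c with _ | c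
  · rw [pow_zero, sub_self, zero_mul, add_zero, pow_zero, mul_one]
    exact h2
  · have h3 : |f (c + 1) - f (c + 1 - 1)| ≤ L * 2 ^ c := h c
    have h4 : (1 - (1 / 2 : ℝ) ^ (c + 1)) * |f (c + 1) - f (c + 1 - 1)| ≤
        (1 - (1 / 2 : ℝ) ^ (c + 1)) * (L * 2 ^ c) := mul_le_mul_of_nonneg_left h3 (by linarith)
    have e2 : (1 - (1 / 2 : ℝ) ^ (c + 1)) * (L * 2 ^ c) = L * 2 ^ c - L / 2 := by
      have : (1 / 2 : ℝ) ^ c * 2 ^ c = 1 := by rw [← mul_pow]; norm_num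
      rw [pow_succ (1 / 2 : ℝ) c]
      linear_combination -(L / 2) * this
    rw [pow_succ (2 : ℝ) c]
    linarith

theorem hf_lip {f : ℕ → ℝ} {L : ℝ} (h : ∀ c, |f (c + 1) - f c| ≤ L * 2 ^ c) (k : ℕ) : ∀ c,
    |hf f k (c + 1) - hf f k c| ≤ L / 2 ^ k * 2 ^ c := by
  induction k with
  | zero => simpa [hf_zero] using h
  | succ k ih =>
    intro c
    have := st_lip ih c
    rw [pow_succ (2 : ℝ) k, ← div_div]
    exact this

theorem hf_dist {f : ℕ → ℝ} {L : ℝ} (h : ∀ c, |f (c + 1) - f c| ≤ L * 2 ^ c) (k : ℕ) : ∀ c,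
    |hf f k c - hf f k 0| ≤ L / 2 ^ k * (2 ^ c - 1) := by
  intro c
  induction c with
  | zero => simp
  | succ c ih =>
    have h1 := hf_lip h k c
    have e : hf f k (c + 1) - hf f k 0 = (hf f k (c + 1) - hf f k c) + (hf f k c - hf f k 0) := by
      ring
    rw [e]
    refine (abs_add_le _ _).trans ?_
    rw [pow_succ (2 : ℝ) c]
    linarith

theorem hf_step {f : ℕ → ℝ} {L : ℝ} (h : ∀ c, |f (c + 1) - f c| ≤ L * 2 ^ c) (k : ℕ) :
    |hf f (k + 1) 0 - hf f k 0| ≤ L / 2 * (1 / 2) ^ k := by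
  have h1 := hf_lip h k 0
  rw [hf_succ]
  have e : (1 - (1 / 2 : ℝ) ^ 0) * hf f k (0 - 1) + (1 / 2) ^ (0 + 1) * (hf f k 0 + hf f k (0 + 1)) -
      hf f k 0 = (1 / 2) * (hf f k (0 + 1) - hf f k 0) := by
    rw [pow_zero, zero_add, pow_one]
    ring
  rw [e, abs_mul, abs_of_pos (by norm_num : (0 : ℝ) < 1 / 2)]
  rw [pow_zero, mul_one] at h1
  rw [one_div, inv_pow]
  have e2 : L / 2 * ((2 : ℝ) ^ k)⁻¹ = 2⁻¹ * (L / 2 ^ k) := by
    rw [div_eq_mul_inv, div_eq_mul_inv]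
    ring
  rw [e2]
  exact mul_le_mul_of_nonneg_left h1 (by norm_num)

/-- the mean converges to `ℓ` -/
def Lm (F : ℕ → ℝ) (ℓ : ℝ) : Prop := ∀ k c : ℕ, |gF F k (2 ^ c) - ℓ| ≤ 2 ^ c / 2 ^ k

theorem exists_lm {F : ℕ → ℝ} (h : ∀ c, |F (2 ^ (c + 1)) - F (2 ^ c)| ≤ 2 ^ c) : ∃ ℓ, Lm F ℓ := by
  set f : ℕ → ℝ := fun c => F (2 ^ c) with hf'
  have h' : ∀ c, |f (c + 1) - f c| ≤ 1 * 2 ^ c := by
    intro c
    rw [one_mul]
    exact h c
  have hd : ∀ n, dist (hf f n 0) (hf f (n + 1) 0) ≤ (1 / 2) * (1 / 2 : ℝ) ^ n := by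
    intro n
    rw [dist_comm, Real.dist_eq]
    exact hf_step h' n
  obtain ⟨ℓ, hℓ⟩ := cauchySeq_tendsto_of_complete (cauchySeq_of_le_geometric _ _ (by norm_num) hd)
  refine ⟨ℓ, fun k c => ?_⟩
  rw [gF_eq]
  have h1 := dist_le_of_le_geometric_of_tendsto _ _ (by norm_num) hd hℓ k
  rw [Real.dist_eq] at h1
  have h2 := hf_dist h' k c
  have e : hf f k c - ℓ = (hf f k c - hf f k 0) + (hf f k 0 - ℓ) := by ring
  rw [e]
  refine (abs_add_le _ _).trans ?_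
  have e2 : (1 / 2 : ℝ) * (1 / 2) ^ k / (1 - 1 / 2) = 1 / 2 ^ k := by
    rw [one_div, inv_pow]
    norm_num
  rw [e2] at h1
  have e3 : (1 : ℝ) / 2 ^ k * (2 ^ c - 1) + 1 / 2 ^ k = 2 ^ c / 2 ^ k := by ring
  linarith

theorem lm_tendsto {F : ℕ → ℝ} {ℓ : ℝ} (h : Lm F ℓ) (c : ℕ) :
    Tendsto (fun k => hf (fun c => F (2 ^ c)) k c) atTop (𝓝 ℓ) := by
  rw [tendsto_iff_norm_sub_tendsto_zero]
  refine squeeze_zero (fun _ => norm_nonneg _) (fun k => ?_)
    (g := fun k : ℕ => (2 : ℝ) ^ c * (1 / 2 : ℝ) ^ k) ?_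
  · rw [Real.norm_eq_abs, ← gF_eq]
    refine (h k c).trans (le_of_eq ?_)
    rw [one_div, inv_pow, div_eq_mul_inv]
  · have := (tendsto_pow_atTop_nhds_zero_of_lt_one (by norm_num : (0 : ℝ) ≤ 1 / 2)
      (by norm_num : (1 / 2 : ℝ) < 1)).const_mul ((2 : ℝ) ^ c)
    rwa [mul_zero] at this

/-- the indicator function of the corank `b` -/
noncomputable def FI (b z : ℕ) : ℝ := if z = 2 ^ b then 1 else 0

/-- the limit law -/
noncomputable def al (b : ℕ) : ℝ := c2 / ∏ i ∈ range b, ((2 : ℝ) ^ (i + 1) - 1)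

/-- the indicator function in terms of the corank -/
noncomputable def fb (b c : ℕ) : ℝ := if c = b then 1 else 0

theorem FI_pow (b c : ℕ) : FI b (2 ^ c) = fb b c := by
  unfold FI fb
  by_cases h : c = b
  · rw [if_pos h, h, if_pos rfl]
  · rw [if_neg h, if_neg (fun h' => h (Nat.pow_right_injective le_rfl h'))]

theorem st_fb_zero : st (fb 0) = fun c => (1 / 2) * fb 0 c + (1 / 2) * fb 1 c + 0 * fb 0 c := by
  funext c
  unfold st fb
  rcases c with _ | _ | c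
  · norm_num
  · norm_num
  · have h1 : c + 1 + 1 - 1 ≠ 0 := by omega
    norm_num

theorem st_fb_succ (m : ℕ) : st (fb (m + 1)) = fun c => (1 - (1 / 2) ^ (m + 2)) * fb (m + 2) c +
    (1 / 2) ^ (m + 2) * fb (m + 1) c + (1 / 2) ^ (m + 1) * fb m c := by
  funext c
  unfold st fb
  rcases lt_trichotomy c (m + 1) with h | h | h
  · rcases Nat.lt_succ_iff_lt_or_eq.1 h with h' | h'
    · have a1 : c - 1 ≠ m + 1 := by omega
      have a2 : c ≠ m + 1 := by omega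
      have a3 : c + 1 ≠ m + 1 := by omega
      have a4 : c ≠ m + 2 := by omega
      have a5 : c ≠ m := by omega
      rw [if_neg a1, if_neg a2, if_neg a3, if_neg a4, if_neg a5]
      ring
    · subst h'
      have a1 : c - 1 ≠ c + 1 := by omega
      have a2 : c ≠ c + 1 := by omega
      have a4 : c ≠ c + 2 := by omega
      rw [if_neg a1, if_neg a2, if_pos rfl, if_neg a4, if_pos rfl]
      ring
  · subst h
    have a1 : m + 1 - 1 ≠ m + 1 := by omega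
    have a3 : m + 1 + 1 ≠ m + 1 := by omega
    have a4 : m + 1 ≠ m + 2 := by omega
    have a5 : m + 1 ≠ m := by omega
    rw [if_neg a1, if_pos rfl, if_neg a3, if_neg a4, if_neg a5]
    ring
  · rcases Nat.lt_or_eq_of_le (Nat.succ_le_of_lt h) with h' | h'
    · have h'' : m + 2 < c := h'
      have a1 : c - 1 ≠ m + 1 := by omega
      have a2 : c ≠ m + 1 := by omega
      have a3 : c + 1 ≠ m + 1 := by omega
      have a4 : c ≠ m + 2 := by omega
      have a5 : c ≠ m := by omega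
      rw [if_neg a1, if_neg a2, if_neg a3, if_neg a4, if_neg a5]
      ring
    · have h'' : m + 2 = c := h'
      subst h''
      have a1 : m + 2 - 1 = m + 1 := by omega
      have a2 : m + 2 ≠ m + 1 := by omega
      have a3 : m + 2 + 1 ≠ m + 1 := by omega
      have a5 : m + 2 ≠ m := by omega
      rw [if_pos a1, if_neg a2, if_neg a3, if_pos rfl, if_neg a5]
      ring

theorem FI_lip (b c : ℕ) : |FI b (2 ^ (c + 1)) - FI b (2 ^ c)| ≤ 2 ^ c := by
  have h1 : (1 : ℝ) ≤ 2 ^ c := one_le_pow₀ (by norm_num)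
  rw [FI_pow, FI_pow]
  unfold fb
  split_ifs <;> rw [abs_le] <;> constructor <;> linarith

theorem FI_zero : FI 0 = F0 := by
  funext z
  unfold FI F0
  rw [pow_zero]

/-- **The limit law.** -/
theorem lm_FI (b : ℕ) : Lm (FI b) (al b) := by
  choose ℓ hℓ using fun b => exists_lm (FI_lip b)
  have hT : ∀ b, Tendsto (fun k => hf (fb b) k 0) atTop (𝓝 (ℓ b)) := by
    intro b
    have h := lm_tendsto (hℓ b) 0
    have e : (fun c => FI b (2 ^ c)) = fb b := funext fun c => FI_pow b c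
    rwa [e] at h
  have h0 : ℓ 0 = c2 := by
    refine tendsto_nhds_unique (hT 0) ?_
    have e : (fun c => FI 0 (2 ^ c)) = fb 0 := funext fun c => FI_pow 0 c
    rw [← e, tendsto_iff_norm_sub_tendsto_zero]
    refine squeeze_zero (fun _ => norm_nonneg _) (fun k => ?_)
      (g := fun k : ℕ => 2 * (1 / 2 : ℝ) ^ k) ?_
    · rw [Real.norm_eq_abs, ← gF_eq, FI_zero]
      refine (gF_bound k 0).trans (le_of_eq ?_)
      rw [pow_zero, one_div, one_div, inv_pow]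
    · have := (tendsto_pow_atTop_nhds_zero_of_lt_one (by norm_num : (0 : ℝ) ≤ 1 / 2)
        (by norm_num : (1 / 2 : ℝ) < 1)).const_mul (2 : ℝ)
      rwa [mul_zero] at this
  have hs : ∀ f : ℕ → ℝ, ∀ a, Tendsto (fun k => hf f k 0) atTop (𝓝 a) →
      Tendsto (fun k => hf (st f) k 0) atTop (𝓝 a) := by
    intro f a h
    have h1 := (tendsto_add_atTop_iff_nat 1).2 h
    refine h1.congr fun k => ?_
    rw [hf_comm]
  have h1 : ℓ 1 = ℓ 0 := by
    have k1 := hs _ _ (hT 0)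
    rw [st_fb_zero] at k1
    have k2 : Tendsto (fun k => (1 / 2) * hf (fb 0) k 0 + (1 / 2) * hf (fb 1) k 0 +
        0 * hf (fb 0) k 0) atTop (𝓝 ((1 / 2) * ℓ 0 + (1 / 2) * ℓ 1 + 0 * ℓ 0)) :=
      (((hT 0).const_mul _).add ((hT 1).const_mul _)).add ((hT 0).const_mul _)
    have k3 := tendsto_nhds_unique (k1.congr fun k => hf_lin _ _ _ _ _ _ _ _) k2
    linarith
  have h2 : ∀ m, ℓ (m + 1) = (1 - (1 / 2) ^ (m + 2)) * ℓ (m + 2) + (1 / 2) ^ (m + 2) * ℓ (m + 1) +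
      (1 / 2) ^ (m + 1) * ℓ m := by
    intro m
    have k1 := hs _ _ (hT (m + 1))
    rw [st_fb_succ] at k1
    have k2 : Tendsto (fun k => (1 - (1 / 2) ^ (m + 2)) * hf (fb (m + 2)) k 0 +
        (1 / 2) ^ (m + 2) * hf (fb (m + 1)) k 0 + (1 / 2) ^ (m + 1) * hf (fb m) k 0) atTop
        (𝓝 ((1 - (1 / 2) ^ (m + 2)) * ℓ (m + 2) + (1 / 2) ^ (m + 2) * ℓ (m + 1) +
          (1 / 2) ^ (m + 1) * ℓ m)) :=
      (((hT (m + 2)).const_mul _).add ((hT (m + 1)).const_mul _)).add ((hT m).const_mul _)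
    exact tendsto_nhds_unique (k1.congr fun k => hf_lin _ _ _ _ _ _ _ _) k2
  have h3 : ∀ m, ℓ (m + 1) * (2 ^ (m + 1) - 1) = ℓ m := by
    intro m
    induction m with
    | zero => rw [h1]; norm_num
    | succ m ih =>
      have k := h2 m
      have e1 : (1 / 2 : ℝ) ^ (m + 2) * 2 ^ (m + 2) = 1 := by rw [← mul_pow]; norm_num
      have e2 : (1 / 2 : ℝ) ^ (m + 1) * 2 ^ (m + 2) = 2 := by
        rw [pow_succ (2 : ℝ) (m + 1), ← mul_assoc, ← mul_pow]; norm_num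
      have e3 : (2 : ℝ) ^ (m + 2) = 2 * 2 ^ (m + 1) := by ring
      have k' : ℓ (m + 1) * 2 ^ (m + 2) = (2 ^ (m + 2) - 1) * ℓ (m + 2) + ℓ (m + 1) + 2 * ℓ m := by
        calc ℓ (m + 1) * 2 ^ (m + 2) = ((1 - (1 / 2) ^ (m + 2)) * ℓ (m + 2) +
              (1 / 2) ^ (m + 2) * ℓ (m + 1) + (1 / 2) ^ (m + 1) * ℓ m) * 2 ^ (m + 2) := by
                rw [← k]
          _ = 2 ^ (m + 2) * ℓ (m + 2) - ((1 / 2) ^ (m + 2) * 2 ^ (m + 2)) * ℓ (m + 2) +
              ((1 / 2) ^ (m + 2) * 2 ^ (m + 2)) * ℓ (m + 1) +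
              ((1 / 2) ^ (m + 1) * 2 ^ (m + 2)) * ℓ m := by ring
          _ = _ := by rw [e1, e2]; ring
      show ℓ (m + 2) * (2 ^ (m + 2) - 1) = ℓ (m + 1)
      rw [e3] at k' ⊢
      linarith
  have h4 : ∀ b, ℓ b = al b := by
    intro b
    unfold al
    induction b with
    | zero => rw [Finset.range_zero, Finset.prod_empty, div_one, h0]
    | succ b ih =>
      have hp : (0 : ℝ) < 2 ^ (b + 1) - 1 := by
        have : (2 : ℝ) ≤ 2 ^ (b + 1) := by
          calc (2 : ℝ) = 2 ^ 1 := by norm_num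
            _ ≤ 2 ^ (b + 1) := pow_le_pow_right₀ (by norm_num) (by omega)
        linarith
      rw [Finset.prod_range_succ, ← div_div, ← ih, ← h3 b, mul_div_assoc, div_self hp.ne', mul_one]
  rw [← h4 b]
  exact hℓ b

/-- the mean of the number of the elements of the kernel -/
theorem lm_id : Lm (fun z => (z : ℝ)) 2 := by
  intro k c
  rw [gF_id]
  have h1 : (1 : ℝ) ≤ 2 ^ c := one_le_pow₀ (by norm_num)
  have h2 : (0 : ℝ) < 2 ^ k := by positivity
  rw [add_sub_cancel_left, abs_div, abs_of_pos h2]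
  refine div_le_div_of_nonneg_right ?_ h2.le
  rw [abs_le]
  constructor <;> linarith

theorem gF_sq (k : ℕ) : ∀ c : ℕ, gF (fun z => (z : ℝ) ^ 2) k (2 ^ c) =
    ((1 / 2) ^ k) ^ 2 * (2 ^ c) ^ 2 + 6 * (1 - ((1 / 2) ^ k) ^ 2) +
      9 * (2 ^ c - 2) * (1 / 2) ^ k * (1 - (1 / 2) ^ k) := by
  induction k with
  | zero =>
    intro c
    rw [gF_zero]
    push_cast
    ring
  | succ k ih =>
    intro c
    rw [gF_succ]
    rcases c with _ | c
    · have e1 : 2 * 2 ^ 0 = 2 ^ (0 + 1) := by norm_num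
      rw [e1, ih, ih, pow_succ (1 / 2 : ℝ) k]
      push_cast
      generalize (1 / 2 : ℝ) ^ k = t
      ring
    · have e1 : 2 ^ (c + 1) / 2 = 2 ^ c := by
        rw [pow_succ, Nat.mul_div_cancel _ (by norm_num)]
      have e2 : 2 * 2 ^ (c + 1) = 2 ^ (c + 1 + 1) := by ring
      have h0 : (2 : ℝ) ^ c ≠ 0 := by positivity
      rw [e1, e2, ih, ih, ih, pow_succ (1 / 2 : ℝ) k]
      push_cast
      rw [pow_succ (2 : ℝ) (c + 1), pow_succ (2 : ℝ) c]
      generalize (1 / 2 : ℝ) ^ k = t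
      revert h0
      generalize (2 : ℝ) ^ c = y
      intro h0
      field_simp
      ring

theorem gF_sq_le (k c : ℕ) : gF (fun z => (z : ℝ) ^ 2) k (2 ^ c) ≤ 10 * (2 ^ c) ^ 2 := by
  rw [gF_sq]
  have h1 : (1 : ℝ) ≤ 2 ^ c := one_le_pow₀ (by norm_num)
  have h2 : (0 : ℝ) ≤ (1 / 2 : ℝ) ^ k := by positivity
  have h3 : (1 / 2 : ℝ) ^ k ≤ 1 := pow_le_one₀ (by norm_num) (by norm_num)
  generalize (1 / 2 : ℝ) ^ k = t at h2 h3
  generalize (2 : ℝ) ^ c = y at h1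
  have a1 : t * (1 - t) ≤ 1 / 4 := by nlinarith [sq_nonneg (t - 1 / 2)]
  have a0 : 0 ≤ t * (1 - t) := mul_nonneg h2 (by linarith)
  have a2 : 9 * (y - 2) * t * (1 - t) ≤ 9 / 4 * y := by
    have e : 9 * (y - 2) * t * (1 - t) = 9 * y * (t * (1 - t)) - 18 * (t * (1 - t)) := by ring
    rw [e]
    nlinarith [mul_le_mul_of_nonneg_left a1 (by linarith : (0 : ℝ) ≤ 9 * y)]
  have a3 : t ^ 2 * y ^ 2 ≤ y ^ 2 := by
    have : t ^ 2 ≤ 1 := pow_le_one₀ h2 h3
    nlinarith [sq_nonneg y]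
  have a4 : 0 ≤ t ^ 2 := sq_nonneg t
  nlinarith

end Q155.KG
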