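import Pool.Agent.Q155.KT.Var
import Pool.Agent.Q155.KG.Mat

/-!
# One more active prime
-/

set_option autoImplicit false
set_option linter.unusedSectionVars false

namespace Q155.KG

open Finset Matrix
open Q155.KT (kz kz_submatrix ap ap_zero ap_succ ap_submatrix Par sh sh_one sh_two val Lb z2_dbl avg_sh)
open Q283.TW
open Q283.XF (nf)
open Pool.Agent.Y698.SG (mat nq n4)
open Pool.Agent.Q1.PT (avg avg_equiv avg_prod avg_mono avg_const avg_add avg_sub abs_avg avg_hom)
open scoped Classical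

/-- the matrix -/
noncomputable def bg (D : Bs) {R : Finset ℕ} {k : ℕ} (V U : Finset (Fin k)) (x : Par R k) :
    Matrix (D.2 ⊕ V) (D.2 ⊕ V) (ZMod 2) :=
  big D V U (fun i => val (x.1 i).1) (fun i => (x.1 i).2) fun i j => x.2 i j + x.2 j i

section
variable {D : Bs} {R : Finset ℕ} {k : ℕ}

theorem big_congr2 {V U : Finset (Fin k)} (hVU : V ⊆ U) {v v' : Fin k → ℕ → ZMod 2}
    {e e' : Fin k → ZMod 2} {a a' : Fin k → Fin k → ZMod 2}
    (hv : ∀ i ∈ U, ∀ r ∈ D.1 ∪ D.2, v i r = v' i r) (he : ∀ i ∈ V, e i = e' i)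
    (ha : ∀ i ∈ U, ∀ j ∈ U, a i j = a' i j) : big D V U v e a = big D V U v' e' a' := by
  have h2 : ∀ r : D.2, (r : ℕ) ∈ D.1 ∪ D.2 := fun r => Finset.mem_union_right _ r.2
  unfold big
  congr 1
  · congr 2
    funext r
    exact Finset.sum_congr rfl fun i hi => hv i hi r (h2 r)
  · ext r i
    show v i r = v' i r
    exact hv i (hVU i.2) r (h2 r)
  · ext i r
    show v i r = v' i r
    exact hv i (hVU i.2) r (h2 r)
  · ext i j
    rw [Matrix.of_apply, Matrix.of_apply, he i i.2, ha i (hVU i.2) j (hVU j.2),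
      Finset.sum_congr rfl fun r hr => hv i (hVU i.2) r hr]
    congr 3
    exact Finset.sum_congr rfl fun l hl => ha i (hVU i.2) l (Finset.mem_of_mem_erase hl)

theorem bg_sh {V W : Finset (Fin k)} (hVW : V ⊆ W) {i : Fin k} (hi : i ∉ W) (x : Par R k)
    (y : Lb R × (Fin k → ZMod 2)) : bg D V W (x + sh R i y) = bg D V W x := by
  have h : ∀ j ∈ W, j ≠ i := fun j hj e => hi (e ▸ hj)
  refine big_congr2 hVW (fun j hj r _ => ?_) (fun j hj => ?_) fun j hj l hl => ?_
  · show val ((x + sh R i y).1 j).1 r = _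
    rw [sh_one, if_neg (h j hj)]
  · show ((x + sh R i y).1 j).2 = _
    rw [sh_one, if_neg (h j (hVW hj))]
  · show (x + sh R i y).2 j l + (x + sh R i y).2 l j = _
    rw [sh_two, sh_two, if_neg (h j hj), if_neg (h l hl)]

/-- the index sets -/
noncomputable def eqi (D : Bs) {V : Finset (Fin k)} {i : Fin k} (hi : i ∉ V) :
    (D.2 ⊕ V) ⊕ Unit ≃ D.2 ⊕ ↥(insert i V) := by
  refine (Equiv.sumAssoc _ _ _).trans ((Equiv.refl _).sumCongr (Equiv.ofBijective
    (Sum.elim (fun j : V => (⟨j, Finset.mem_insert_of_mem j.2⟩ : ↥(insert i V)))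
      fun _ : Unit => ⟨i, Finset.mem_insert_self i V⟩) ⟨?_, ?_⟩))
  · rintro (j | j) (j' | j') h
    · simp only [Sum.elim_inl, Subtype.mk.injEq] at h
      rw [Subtype.ext h]
    · simp only [Sum.elim_inl, Sum.elim_inr, Subtype.mk.injEq] at h
      exact absurd (h ▸ j.2) hi
    · simp only [Sum.elim_inl, Sum.elim_inr, Subtype.mk.injEq] at h
      exact absurd (h ▸ j'.2) hi
    · rfl
  · rintro ⟨j, hj⟩
    rcases Finset.mem_insert.1 hj with h | h
    · subst h
      exact ⟨Sum.inr (), rfl⟩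
    · exact ⟨Sum.inl ⟨j, h⟩, rfl⟩

theorem eqi_1 {V : Finset (Fin k)} {i : Fin k} (hi : i ∉ V) (r : D.2) :
    eqi D hi (Sum.inl (Sum.inl r)) = Sum.inl r := rfl

theorem eqi_2 {V : Finset (Fin k)} {i : Fin k} (hi : i ∉ V) (j : V) :
    eqi D hi (Sum.inl (Sum.inr j)) = Sum.inr ⟨j, Finset.mem_insert_of_mem j.2⟩ := rfl

theorem eqi_3 {V : Finset (Fin k)} {i : Fin k} (hi : i ∉ V) (u : Unit) :
    eqi D hi (Sum.inr u) = Sum.inr ⟨i, Finset.mem_insert_self i V⟩ := rfl

/-- **The bordering.** -/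
theorem big_insert {V W : Finset (Fin k)} {i : Fin k} (hi : i ∉ W) (hiV : i ∉ V)
    (v : Fin k → ℕ → ZMod 2) (e : Fin k → ZMod 2) (a : Fin k → Fin k → ZMod 2)
    (ha : ∀ i j, a i j = a j i) :
    (big D (insert i V) (insert i W) v e a).submatrix (eqi D hiV) (eqi D hiV) =
      bord (big D V W v e a) (Sum.elim (fun r : D.2 => v i r) fun j : V => a i j)
        (∑ r ∈ D.1 ∪ D.2, v i r + ∑ l ∈ W, a i l + e i) := by
  have hne : ∀ j : V, (j : Fin k) ≠ i := fun j h => hiV (h ▸ j.2)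
  ext p q
  rw [Matrix.submatrix_apply]
  unfold big bord
  rcases p with (p | p) | p <;> rcases q with (q | q) | q
  · rw [eqi_1, eqi_1, Matrix.fromBlocks_apply₁₁, Matrix.fromBlocks_apply₁₁, Matrix.add_apply,
      Matrix.add_apply, Matrix.fromBlocks_apply₁₁, Matrix.add_apply, Matrix.diagonal_apply,
      Matrix.diagonal_apply, Matrix.diagonal_apply]
    by_cases h : p = q
    · subst h
      rw [if_pos rfl, if_pos rfl, if_pos rfl, Finset.sum_insert hi, Sum.elim_inl]
      ring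
    · rw [if_neg h, if_neg h, if_neg (fun h' => h (Sum.inl_injective h'))]
      ring
  · rw [eqi_1, eqi_2, Matrix.fromBlocks_apply₁₂, Matrix.fromBlocks_apply₁₁, Matrix.add_apply,
      Matrix.fromBlocks_apply₁₂, Matrix.diagonal_apply, if_neg Sum.inl_ne_inr, add_zero]
    rfl
  · rw [eqi_1, eqi_3, Matrix.fromBlocks_apply₁₂, Matrix.fromBlocks_apply₁₂]
    rfl
  · rw [eqi_1, eqi_2, Matrix.fromBlocks_apply₂₁, Matrix.fromBlocks_apply₁₁, Matrix.add_apply,
      Matrix.fromBlocks_apply₂₁, Matrix.diagonal_apply, if_neg Sum.inr_ne_inl, add_zero]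
    rfl
  · rw [eqi_2, eqi_2, Matrix.fromBlocks_apply₂₂, Matrix.fromBlocks_apply₁₁, Matrix.add_apply,
      Matrix.fromBlocks_apply₂₂, Matrix.diagonal_apply, Matrix.of_apply, Matrix.of_apply]
    by_cases h : p = q
    · subst h
      have h1 : (insert i W).erase (p : Fin k) = insert i (W.erase p) := by
        rw [Finset.erase_insert_of_ne (hne p).symm]
      rw [if_pos rfl, if_pos rfl, if_pos rfl]
      show _ + ∑ l ∈ (insert i W).erase (p : Fin k), a p l + e p = _ + a i p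
      rw [h1, Finset.sum_insert (fun h' => hi (Finset.mem_of_mem_erase h')), ha i p]
      ring
    · rw [if_neg h, if_neg (fun h' => h (Sum.inr_injective h')), if_neg, add_zero]
      intro h'
      exact h (Subtype.ext (Subtype.mk.injEq _ _ _ _ ▸ h'))
  · rw [eqi_2, eqi_3, Matrix.fromBlocks_apply₂₂, Matrix.fromBlocks_apply₁₂, Matrix.of_apply,
      Matrix.of_apply, if_neg]
    · exact ha _ _
    · intro h'
      exact hne p (congrArg Subtype.val h')
  · rw [eqi_1, eqi_3, Matrix.fromBlocks_apply₂₁, Matrix.fromBlocks_apply₂₁]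
    rfl
  · rw [eqi_2, eqi_3, Matrix.fromBlocks_apply₂₂, Matrix.fromBlocks_apply₂₁, Matrix.of_apply,
      Matrix.of_apply, if_neg]
    · rfl
    · intro h'
      exact hne q (congrArg Subtype.val h').symm
  · rw [eqi_3, Matrix.fromBlocks_apply₂₂, Matrix.fromBlocks_apply₂₂, Matrix.of_apply,
      Matrix.of_apply, if_pos rfl]
    show _ + ∑ l ∈ (insert i W).erase i, a i l + e i = _
    rw [Finset.erase_insert hi]

/-- the data of the bordering -/
noncomputable def th (D : Bs) (R : Finset ℕ) (V W : Finset (Fin k)) :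
    (Lb R × (Fin k → ZMod 2)) →+ ((D.2 ⊕ V → ZMod 2) × ZMod 2) where
  toFun y := (Sum.elim (fun r : D.2 => val y.1.1 r) fun j : V => y.2 j,
    ∑ r ∈ D.1 ∪ D.2, val y.1.1 r + ∑ l ∈ W, y.2 l + y.1.2)
  map_zero' := by
    have h0 : ∀ r, val (0 : R → ZMod 2) r = 0 := by
      intro r
      unfold Q155.KT.val
      split_ifs <;> rfl
    refine Prod.ext ?_ ?_
    · funext w
      rcases w with w | w
      · exact h0 _
      · rfl
    · show ∑ r ∈ D.1 ∪ D.2, val (0 : R → ZMod 2) r + ∑ l ∈ W, (0 : ZMod 2) + 0 = 0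
      rw [Finset.sum_congr rfl fun r _ => h0 r]
      simp
  map_add' y z := by
    refine Prod.ext ?_ ?_
    · funext w
      rcases w with w | w
      · exact Q155.KT.val_add _ _ _
      · rfl
    · show ∑ r ∈ D.1 ∪ D.2, val (y.1.1 + z.1.1) r + ∑ l ∈ W, (y.2 l + z.2 l) +
        (y.1.2 + z.1.2) = (∑ r ∈ D.1 ∪ D.2, val y.1.1 r + ∑ l ∈ W, y.2 l + y.1.2) +
        (∑ r ∈ D.1 ∪ D.2, val z.1.1 r + ∑ l ∈ W, z.2 l + z.1.2)
      rw [Finset.sum_congr rfl fun r _ => Q155.KT.val_add y.1.1 z.1.1 r, Finset.sum_add_distrib,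
        Finset.sum_add_distrib]
      ring

theorem th_surj (V W : Finset (Fin k)) (hR : D.1 ∪ D.2 ⊆ R) :
    Function.Surjective (th D R V W) := by
  rintro ⟨v, d⟩
  have hS : ∀ r ∈ D.2, r ∈ R := fun r hr => hR (Finset.mem_union_right _ hr)
  let y1 : R → ZMod 2 := fun r => if h : (r : ℕ) ∈ D.2 then v (Sum.inl ⟨r, h⟩) else 0
  let y2 : Fin k → ZMod 2 := fun j => if h : j ∈ V then v (Sum.inr ⟨j, h⟩) else 0
  refine ⟨((y1, d - (∑ r ∈ D.1 ∪ D.2, val y1 r + ∑ l ∈ W, y2 l)), y2), ?_⟩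
  refine Prod.ext ?_ ?_
  · funext w
    rcases w with w | w
    · show val y1 w = v (Sum.inl w)
      unfold Q155.KT.val
      rw [dif_pos (hS w w.2)]
      exact dif_pos w.2
    · exact dif_pos w.2
  · show ∑ r ∈ D.1 ∪ D.2, val y1 r + ∑ l ∈ W, y2 l +
      (d - (∑ r ∈ D.1 ∪ D.2, val y1 r + ∑ l ∈ W, y2 l)) = d
    ring

/-- **One step.** -/
theorem ap_step (hR : D.1 ∪ D.2 ⊆ R) {V W : Finset (Fin k)} (hVW : V ⊆ W) {i : Fin k} (hi : i ∉ W)
    (F : ℕ → ℝ) (j : ℕ) (x : Par R k) :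
    avg (fun y : Lb R × (Fin k → ZMod 2) => ap j F (bg D (insert i V) (insert i W) (x + sh R i y))) =
      ap (j + 1) F (bg D V W x) := by
  have hiV : i ∉ V := fun h => hi (hVW h)
  set z0 : (D.2 ⊕ V → ZMod 2) × ZMod 2 :=
    (Sum.elim (fun r : D.2 => val (x.1 i).1 r) fun l : V => x.2 i l + x.2 l i,
      ∑ r ∈ D.1 ∪ D.2, val (x.1 i).1 r + ∑ l ∈ W, (x.2 i l + x.2 l i) + (x.1 i).2) with hz0
  set ψ : (D.2 ⊕ V → ZMod 2) × ZMod 2 → ℝ := fun z => ap j F (bord (bg D V W x) z.1 z.2) with hψ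
  have h1 : ∀ y : Lb R × (Fin k → ZMod 2),
      ap j F (bg D (insert i V) (insert i W) (x + sh R i y)) = ψ (z0 + th D R V W y) := by
    intro y
    have hne : ∀ l ∈ W, l ≠ i := fun l hl e => hi (e ▸ hl)
    rw [← ap_submatrix F j (eqi D hiV)]
    unfold bg
    rw [big_insert hi hiV _ _ _ (fun _ _ => add_comm _ _)]
    have e1 : big D V W (fun i_1 => val ((x + sh R i y).1 i_1).1)
        (fun i_1 => ((x + sh R i y).1 i_1).2)
        (fun i_1 j => (x + sh R i y).2 i_1 j + (x + sh R i y).2 j i_1) = bg D V W x :=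
      bg_sh hVW hi x y
    rw [e1]
    show ap j F (bord (bg D V W x) _ _) = ap j F (bord (bg D V W x) (z0 + th D R V W y).1
      (z0 + th D R V W y).2)
    have hl : ∀ l ∈ W, (x + sh R i y).2 i l + (x + sh R i y).2 l i =
        (x.2 i l + x.2 l i) + y.2 l := by
      intro l hl
      rw [sh_two, sh_two, if_pos rfl, if_neg (hne l hl)]
      ring
    have hx : (x + sh R i y).1 i = x.1 i + y.1 := by
      rw [sh_one, if_pos rfl]
    congr 2
    · funext w
      rcases w with w | w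
      · show val ((x + sh R i y).1 i).1 w = val (x.1 i).1 w + val y.1.1 w
        rw [hx]
        exact Q155.KT.val_add _ _ _
      · exact hl w (hVW w.2)
    · show ∑ r ∈ D.1 ∪ D.2, val ((x + sh R i y).1 i).1 r +
        ∑ l ∈ W, ((x + sh R i y).2 i l + (x + sh R i y).2 l i) + ((x + sh R i y).1 i).2 =
        (∑ r ∈ D.1 ∪ D.2, val (x.1 i).1 r + ∑ l ∈ W, (x.2 i l + x.2 l i) + (x.1 i).2) +
        (∑ r ∈ D.1 ∪ D.2, val y.1.1 r + ∑ l ∈ W, y.2 l + y.1.2)
      rw [hx, Finset.sum_congr rfl hl, Finset.sum_add_distrib]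
      have : ∀ r, val (x.1 i + y.1).1 r = val (x.1 i).1 r + val y.1.1 r := fun r =>
        Q155.KT.val_add _ _ _
      rw [Finset.sum_congr rfl fun r _ => this r, Finset.sum_add_distrib]
      show _ + (_ + _) + ((x.1 i).2 + y.1.2) = _
      ring
  simp_rw [h1]
  rw [avg_hom (th D R V W) (th_surj V W hR) (fun z => ψ (z0 + z)), ap_succ]
  exact avg_equiv (Equiv.addLeft z0) ψ

/-- **All the steps.** -/
theorem ap_iter (hR : D.1 ∪ D.2 ⊆ R) (F : ℕ → ℝ) (A : Finset (Fin k)) :
    ∀ (j : ℕ) (V W : Finset (Fin k)), V ⊆ W → Disjoint A W → ∀ G : Par R k → ℝ,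
      (∀ i ∈ A, ∀ x y, G (x + sh R i y) = G x) →
      avg (fun x : Par R k => ap j F (bg D (V ∪ A) (W ∪ A) x) * G x) =
        avg fun x : Par R k => ap (j + A.card) F (bg D V W x) * G x := by
  induction A using Finset.induction_on with
  | empty =>
    intro j V W _ _ G _
    rw [Finset.union_empty, Finset.union_empty, Finset.card_empty, add_zero]
  | @insert i A hi ih =>
    intro j V W hVW hd G hG
    obtain ⟨h1, h2⟩ := Finset.disjoint_insert_left.1 hd
    have hni : i ∉ W ∪ A := by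
      rw [Finset.mem_union, not_or]
      exact ⟨h1, hi⟩
    have e : V ∪ insert i A = insert i (V ∪ A) := Finset.union_insert _ _ _
    have e' : W ∪ insert i A = insert i (W ∪ A) := Finset.union_insert _ _ _
    rw [e, e', avg_sh i]
    have h3 : ∀ x : Par R k, avg (fun y : Lb R × (Fin k → ZMod 2) =>
        ap j F (bg D (insert i (V ∪ A)) (insert i (W ∪ A)) (x + sh R i y)) * G (x + sh R i y)) =
        ap (j + 1) F (bg D (V ∪ A) (W ∪ A) x) * G x := by
      intro x
      simp_rw [hG i (Finset.mem_insert_self i A) x]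
      rw [Q155.KT.avg_mul_const, ap_step hR (Finset.union_subset_union hVW le_rfl) hni]
    simp_rw [h3]
    rw [ih (j + 1) V W hVW h2 G (fun l hl => hG l (Finset.mem_insert_of_mem hl)),
      Finset.card_insert_of_notMem hi]
    have : j + 1 + A.card = j + (A.card + 1) := by omega
    rw [this]

theorem mat_sym (h : Vd D) : (mat D.1 D.2).IsSymm := by
  refine Matrix.IsSymm.ext fun i j => ?_
  rw [mat_apply', mat_apply']
  by_cases hij : i = j
  · subst hij
    rfl
  · rw [if_neg hij, if_neg (fun h' => hij h'.symm)]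
    exact nrp_sym (h.1 j (Finset.mem_union_right _ j.2)) (h.1 i (Finset.mem_union_right _ i.2))

theorem bg_symm (h : Vd D) (V U : Finset (Fin k)) (x : Par R k) : (bg D V U x).IsSymm := by
  refine Matrix.IsSymm.ext fun i j => ?_
  unfold bg big
  rcases i with i | i <;> rcases j with j | j
  · rw [Matrix.fromBlocks_apply₁₁, Matrix.fromBlocks_apply₁₁, Matrix.add_apply, Matrix.add_apply,
      (mat_sym h).apply i j, Matrix.diagonal_apply, Matrix.diagonal_apply]
    by_cases hij : i = j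
    · subst hij
      rfl
    · rw [if_neg hij, if_neg (fun h' => hij h'.symm)]
  · rfl
  · rfl
  · rw [Matrix.fromBlocks_apply₂₂, Matrix.fromBlocks_apply₂₂, Matrix.of_apply, Matrix.of_apply]
    by_cases hij : i = j
    · subst hij
      rfl
    · rw [if_neg hij, if_neg (fun h' => hij h'.symm)]
      exact add_comm _ _

end

end Q155.KG
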